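import Pool.Agent.Run7.h35.NEG.Defs2

/-!
# Interface, part 2: pieces of the rigidity proposition and of the windows

Library available: `Basic.lean` (`proj`, `hs`, `rho`, `mixR`, `mixE`, `Contr`), `Rep.lean`
(`acc_succ`, `ev_sum`, `mc_mix_le`, `rep_mix`, `rep_add`, `sum_norm_sq_le` = MIX, …),
`Lib.lean` (inner product estimates for `G`, level bounds, sign averages; coming).

Notation in the comments: `b_s = acc c s` (accumulated content), `|·|` Euclidean norm, `|·|_1`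
the `ℓ₁` norm, `η_s = 8 √(a/n_s)`; `⟨Gb,Gw⟩ = ⟨b,w⟩ ± (ε|b||w| + η_s|b|_1|w|_1)` for `s < top`
(from `diag`, `off` of `RMProp`), and exactly `⟨Gb,Gw⟩ = ⟨b,w⟩` for `s = top`.
All tiny terms are made `≤ δ` by `Γ ≤ a ≤ k_s`, `n_s = k_s^30`, `n_s^g ≤ k_{s+1}`.
-/

set_option autoImplicit false

namespace Run7.h35.NEG

open Finset Module Classical

/-! ## ANN (pure linear algebra).
`A` (`n` rows), `A₀` (`m` rows), `B` (`n` rows), columns `Fin r`.  Let `V` be the kernel of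
`(A, A₀)`, `dim V^⊥ ≤ n + m`.  The map `ℝ^n × ℝ^n → V^⊥`, `(p,p') ↦ P_{V^⊥}(pᵀA + p'ᵀB)` has a
kernel of dimension `≥ n - m`; take an orthonormal family in it.  For `(p,p')` in the kernel
`pᵀA + p'ᵀB = P_V Bᵀ p'`; `∑_e |P_V Bᵀ p'_e|² ≤ ∑_b |P_V Bᵀ e_b|²` (Bessel) and for `w = P_V Bᵀe_b`:
`|w|² = ⟨B w, e_b⟩ ≤ √σ |w|`. -/
def S_ANN : Prop :=
  ∀ (n m r : ℕ) (A : Fin n → Fin r → ℝ) (ι : Type) [Fintype ι] (A₀ : ι → Fin r → ℝ)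
    (B : Fin n → Fin r → ℝ) (σ : ℝ), Fintype.card ι ≤ m → m ≤ n → 0 ≤ σ →
    (∀ v : Fin r → ℝ, (∀ b, ∑ j, A b j * v j = 0) → (∀ b, ∑ j, A₀ b j * v j = 0) →
      ∑ b, (∑ j, B b j * v j) ^ 2 ≤ σ * ∑ j, v j ^ 2) →
    ∃ p p' : Fin (n - m) → Fin n → ℝ,
      (∀ e f, ∑ b, p e b * p f b + ∑ b, p' e b * p' f b = if e = f then 1 else 0) ∧
      ∑ e, ∑ j, (∑ b, p e b * A b j + ∑ b, p' e b * B b j) ^ 2 ≤ n * σ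

/-! ## PAIR.
`lev_{i+1} = y_{i+1} + G^{i+1}(c_{i+1} + K b_i)`.  `∑_j ⟨y, Gu_j⟩ ≤ √hs(y) √hs(Gu)`,
`∑_j ⟨G c_{i+1,j}, G u_j⟩ ≤ (1+ε)√hs(c_{i+1})√hs(u) + η_{i+1} (∑_j|c_{i+1,j}|_1²)^{1/2} (∑_j|u_j|_1²)^{1/2}`,
`K⟨G b_i, G u⟩ = K⟨b_i,u⟩ ± …`; `|u_j|_1² ≤ k_i³ |u_j|²`; `r⁴ ≤ k_{i+1}`, `n_{i+1} = k_{i+1}^30` or
level `i+1 = top` where `G` is an isometry. -/
def S_PAIR : Prop :=
  ∀ (K top : ℕ) (H B δ : ℝ), 1 ≤ H → 1 ≤ B → 0 < δ → ∃ ε₀ : ℝ, 0 < ε₀ ∧ ∃ Γ : ℕ,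
    ∀ (H₂ ε C₀ : ℝ) (g : ℕ) (T : Tower), 4 ≤ g → 0 < ε → ε ≤ ε₀ → ε < 1 →
    T.K = K → T.top = top → T.OK H₂ ε C₀ g Γ →
    ∀ i < top, ∀ r : ℕ, r ^ 4 ≤ T.k (i + 1) →
    ∀ (u : Fin (2 ^ T.a) → Fin r → ℝ) (y : (s : ℕ) → Fin (T.n s) → Fin r → ℝ)
      (c : ℕ → Fin (2 ^ T.a) → Fin r → ℝ) (A : ℝ),
      (∀ t, SG T.a (T.k i ^ 3) H (fun ν => u ν t)) →
      hs (y (i + 1)) + hs (c (i + 1)) ≤ A * r →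
      A ≤ B →
      ∑ j, (∑ ν, |c (i + 1) ν j|) ^ 2 ≤ T.k (i + 1) * (B * r) →
      hs (T.accJ c i) ≤ B * r →
      ∑ j, (∑ ν, |T.accJ c i ν j|) ^ 2 ≤ (T.k i : ℝ) ^ 4 * (B * r) →
      |∑ j, ∑ b, T.ev (fun s b => y s b j) (fun s ν => c s ν j) (i + 1) b * T.GM (i + 1) u b j -
          K * ∑ j, ∑ ν, T.accJ c i ν j * u ν j| ≤
        2 * Real.sqrt (A * r) * Real.sqrt (hs u) + δ * r

/-! ## LOWB.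
Let `A_e`, `e ∈ {±1}^r`, be the rows of `signA V`; `x_e = mixE A w e`, `W_e = mixR A u e`.
`∑_e ⟨lev_{i+1} x_e, G W_e⟩ = ⟨lev_{i+1} w, G u⟩_HS - ⟨(lev_{i+1} w) P^⊥, (G u) P^⊥⟩_HS`
(`∑_e A_{ej}A_{ej'} = P_{jj'}`), the last term is `≤ √hs(lev w) · √hs(G(u P^⊥))`,
`hs(uP^⊥) ≤ H² (r - dim V)` (disjoint supports), `rho(uP^⊥)² ≤ k_i³ r hs(uP^⊥)`.
The first one is `≥ K Λ - 2√(Ar)√hs(u) - δr` by PAIR.  Upper bound for each `e`: take a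
representation `(y,c)` of `x_e` of cost `≤ |x_e|² + tiny`:
`⟨lev_{i+1}x,GW⟩ ≤ |y||GW| + (1+ε)|c_{i+1}||W| + η|c_{i+1}|_1|W|_1 + K(|b_i|_1 |W|_∞ + ε|b_i||W| + η|b_i|_1|W|_1)`,
`|b_i|_1 ≤ (i+1)K^i √k_i √cost`, `|W_e|_∞ ≤ H max_j |A_ej|`, `∑_e max_j A_ej² ≤ 2 + 2(r - dim V)`,
`∑_e |W_e|² ≤ hs(u)`; then Cauchy-Schwarz over `e`.  (`∑_e |x_e|²` is not bounded a priori:
if `hs u ≤ δ'' r` then the left side is `≤ K√(Br)√(δ''r)`, otherwise the error terms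
`tiny √r √(∑_e cost_e)` are absorbed in the main term, whose true constant is about `√2 < 3`.) -/
def S_LOWB : Prop :=
  ∀ (K top : ℕ) (H B δ : ℝ), 1 ≤ K → 1 ≤ H → 1 ≤ B → 0 < δ → ∃ ε₀ : ℝ, 0 < ε₀ ∧ ∃ Γ : ℕ,
    ∀ (H₂ ε C₀ : ℝ) (g : ℕ) (T : Tower), 4 ≤ g → 0 < ε → ε ≤ ε₀ → ε < 1 →
    T.K = K → T.top = top → T.OK H₂ ε C₀ g Γ →
    ∀ (E : Type) [NormedAddCommGroup E] [NormedSpace ℝ E] (X : TowerSpace T E),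
    ∀ i < top, ∀ r : ℕ, T.n i ^ 3 ≤ r → r ^ 4 ≤ T.k (i + 1) →
    ∀ (u : Fin (2 ^ T.a) → Fin r → ℝ) (w : Fin r → E) (y : (s : ℕ) → Fin (T.n s) → Fin r → ℝ)
      (c : ℕ → Fin (2 ^ T.a) → Fin r → ℝ) (A : ℝ) (V : Submodule ℝ (Fin r → ℝ)),
      (∀ t, SG T.a (T.k i ^ 3) H (fun ν => u ν t)) →
      (∀ t t', t ≠ t' → ∀ ν, u ν t = 0 ∨ u ν t' = 0) →
      X.Rep w y c →
      hs (y (i + 1)) + hs (c (i + 1)) ≤ A * r →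
      A ≤ B →
      ∑ j, (∑ ν, |c (i + 1) ν j|) ^ 2 ≤ T.k (i + 1) * (B * r) →
      hs (T.accJ c i) ≤ B * r →
      ∑ j, (∑ ν, |T.accJ c i ν j|) ^ 2 ≤ (T.k i : ℝ) ^ 4 * (B * r) →
      ∑ j, ‖w j‖ ^ 2 ≤ B * r →
      ((r : ℝ) - finrank ℝ V) * (T.k i : ℝ) ^ 5 ≤ r →
      K * ∑ j, ∑ ν, T.accJ c i ν j * u ν j ≤
        3 * Real.sqrt (hs u) * Real.sqrt (∑ e, ‖mixE (signA V) w e‖ ^ 2) +
          2 * Real.sqrt (A * r) * Real.sqrt (hs u) + δ * r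

/-! ## UPB.
`z` has the representation `(y,c)` with `c_s = 0` (`s < i`), `c_i = u`; `w` has `(y',c')`,
`b' = acc c' i`.  With `A = signA V` a representation of `mixE A (w - λ z)`: levels `≤ i` pure noise
`(lev_s w) A` (as `(lev_s z) A = 0`), level `s > i` noise `(y'_s + G^s c'_s - λ y_s) A`, contents
`c̃_{i+1} = (K(b' - λu) - λ c_{i+1}) A`, `c̃_s = (K c'_{s-1} - λ c_s) A` for `s ≥ i+2`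
(the contents `c'_s`, `s > i`, are shifted by one level: `U_s(c) = G^s c @ level s + U_{s+1}(K c)`).
The rows `ν ∈ S` of `b'` are killed by `A`.  `rho(·)² ≤ #rows · hs(·)`, `#rows ≤ r k_i³ · 2 ≤ k_{i+1}`
resp. `r k_{s-1}² ≤ k_s`; `hs(G^s c'_s) ≤ 2 hs(c'_s) + η_s k_s² hs(c'_s)·…`. -/
def S_UPB : Prop :=
  ∀ (K top : ℕ), 1 ≤ K → ∃ Γ : ℕ,
    ∀ (H₂ ε C₀ : ℝ) (g : ℕ) (T : Tower), 4 ≤ g → 0 < ε → ε < 1 →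
    T.K = K → T.top = top → T.OK H₂ ε C₀ g Γ →
    ∀ (E : Type) [NormedAddCommGroup E] [NormedSpace ℝ E] (X : TowerSpace T E),
    ∀ i < top, ∀ r : ℕ, T.n i ^ 3 ≤ r → r ^ 4 ≤ T.k (i + 1) →
    ∀ (z w : Fin r → E) (y y' : (s : ℕ) → Fin (T.n s) → Fin r → ℝ)
      (c c' : ℕ → Fin (2 ^ T.a) → Fin r → ℝ) (H κ κ' δ lam : ℝ)
      (V : Submodule ℝ (Fin r → ℝ)) (S : Finset (Fin (2 ^ T.a))),
      X.Rep z y c → (∀ s < i, c s = 0) → (∀ t, SG T.a (T.k i ^ 3) H (fun ν => c i ν t)) →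
      T.mc y (T.above i c) ≤ κ * r →
      X.Rep w y' c' → T.Sparse c' H →
      ∑ j, T.cost (fun s b => y' s b j) (fun s ν => c' s ν j) ≤ κ' * r →
      |lam| ≤ 1 →
      (∀ v ∈ V, ∀ s ≤ i, X.lev s (∑ j, v j • z j) = 0) →
      (∀ v ∈ V, ∀ ν ∈ S, ∑ j, T.accJ c' i ν j * v j = 0) →
      (∑ s ∈ range (i + 1), ∑ b : Fin (T.n s), ∑ j, proj V (fun j => X.lev s (w j) b) j ^ 2 ≤
        δ * r) →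
      ∑ e, ‖mixE (signA V) (fun j => w j - lam • z j) e‖ ^ 2 ≤
        δ * r + 30 * (K : ℝ) ^ 2 * (∑ ν ∈ Sᶜ, ∑ j, (T.accJ c' i ν j - lam * c i ν j) ^ 2 +
          ∑ ν ∈ S, ∑ j, c i ν j ^ 2 + κ' * r) + 30 * κ * r

/-! ## RIG.
From `RMProp.rigid` (the `p, p'` from ANN): if `lam := 8(δ' + κ + κ') + 2ε` satisfied the hypothesis
of `rigid` then `lam/4 r ≤ ∑∑(⟨p,Gu⟩+⟨p',Gv⟩)² ≤ 2 δ' r + 2(hs(y_i) + hs(y'_i)) ≤ 2(δ'+κ+κ') r`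
(`G u = lev z - y_i`, `G v = lev w - y'_i`, Bessel), contradiction if this is `< lam r/4`; so some
`(α,β)` violates the hypothesis, normalize to `α²+β² = 1`. -/
def S_RIG : Prop :=
  ∀ (T : Tower) (H₂ ε C₀ : ℝ) (g Γ : ℕ), 0 < ε → T.OK H₂ ε C₀ g Γ →
    ∀ i < T.top, ∀ r : ℕ, 1 ≤ r → r ≤ 2 ^ T.a → C₀ * T.a * T.n i ^ 2 ≤ r →
    ∀ (u v : Fin (2 ^ T.a) → Fin r → ℝ) (yz yw lz lw : Fin (T.n i) → Fin r → ℝ) (κ κ' δ' : ℝ),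
      (∀ t, SG T.a (T.k i ^ 3) H₂ (fun ν => u ν t)) →
      (∀ t, SG T.a (T.k i ^ 3) H₂ (fun ν => v ν t)) →
      (∀ b j, lz b j = yz b j + T.GM i u b j) → (∀ b j, lw b j = yw b j + T.GM i v b j) →
      hs yz ≤ κ * r → hs yw ≤ κ' * r → 0 ≤ δ' →
      ∀ (n' : ℕ), T.n i ≤ 2 * n' → ∀ p p' : Fin n' → Fin (T.n i) → ℝ,
        (∀ e f, ∑ b, p e b * p f b + ∑ b, p' e b * p' f b = if e = f then 1 else 0) →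
        ∑ e, ∑ j, (∑ b, p e b * lz b j + ∑ b, p' e b * lw b j) ^ 2 ≤ δ' * r →
        ∃ α β : ℝ, α ^ 2 + β ^ 2 = 1 ∧
          ∑ ν ∈ univ.filter (fun ν => occ2 u v ν ≤ T.k i ^ 10), ∑ t, (α * u ν t + β * v ν t) ^ 2 ≤
            (8 * (δ' + κ + κ') + 2 * ε) * r

/-! ## CORE (assembled by helper35 from ANN, PAIR, LOWB, UPB, RIG, SPARSE). -/
def S_CORE : Prop :=
  ∀ C : ℝ, 1 ≤ C → ∃ Θ : ℝ, 1 ≤ Θ ∧ ∃ K₀ : ℕ, ∀ K : ℕ, K₀ ≤ K → ∀ (top : ℕ) (H M δ : ℝ),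
    1 ≤ H → 1 ≤ M → 0 < δ → ∃ δ₁ H₂ ε : ℝ, 0 < δ₁ ∧ 1 ≤ H₂ ∧ 0 < ε ∧ ε < 1 ∧
    ∀ C₀ : ℝ, 1 ≤ C₀ → ∃ Γ : ℕ,
    ∀ (g : ℕ) (T : Tower), 10 ≤ g → T.K = K → T.top = top → T.OK H₂ ε C₀ g Γ →
    ∀ (E : Type) [NormedAddCommGroup E] [NormedSpace ℝ E] [FiniteDimensional ℝ E]
      (X : TowerSpace T E) (F : Submodule ℝ E), BasisLe F C →
    ∀ i < top, ∀ r : ℕ, T.n i ^ 3 ≤ r → r ^ 4 ≤ T.k (i + 1) →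
    ∀ (z : Fin r → E) (y : (s : ℕ) → Fin (T.n s) → Fin r → ℝ)
      (c : ℕ → Fin (2 ^ T.a) → Fin r → ℝ),
      (∀ t, z t ∈ F) → X.Rep z y c → (∀ s < i, c s = 0) →
      (∀ t, SG T.a (T.k i ^ 3) H (fun ν => c i ν t)) →
      (∀ t t', t ≠ t' → ∀ ν, c i ν t = 0 ∨ c i ν t' = 0) →
      (∀ t, ‖z t‖ ≤ M) →
      (∀ v : Fin r → ℝ, (∀ s ≤ i, X.lev s (∑ j, v j • z j) = 0) →
        ‖∑ j, v j • z j‖ ^ 2 ≤ δ₁ * r / T.n i * ∑ j, v j ^ 2) →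
      ∀ κ : ℝ, ∑ t, ‖z t‖ ^ 2 + T.mc y (T.above i c) ≤ κ * r →
        ∑ t, ∑ ν, c i ν t ^ 2 ≤ Θ * (κ + δ) * r

/-! ## PIG (pigeonhole choice of windows).
`W = ⌈(top+1)B²/δ⌉ + 1` candidates: with `M_l = (n_s)^{10^{l+1}}`: `Lo = M_{3l}`, `r = M_{3l+1}`,
`Hi = M_{3l+2}`; the buffers `{ν : Lo·occ < J ≤ Hi·occ}` are disjoint for different `l`, total mass
`∑_ν ∑_{s' ≤ s} ∑_j c² ≤ (s+1) B² J`.  `g = 10^{3W+5}`. -/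
def S_PIG : Prop :=
  ∀ (top : ℕ) (B δ : ℝ), 1 ≤ B → 0 < δ → ∃ g₀ : ℕ, 10 ≤ g₀ ∧
    ∀ (H₂ ε C₀ : ℝ) (g Γ : ℕ) (T : Tower), g₀ ≤ g → T.top = top → T.OK H₂ ε C₀ g Γ →
    ∀ (J : ℕ) (c : ℕ → Fin (2 ^ T.a) → Fin J → ℝ), 1 ≤ J → T.Sparse c B →
      ∃ Lo r Hi : ℕ → ℕ, Win T c δ Lo r Hi

/-! ## SAMPLE.  `τ : Fin r → Fin J` uniformly random; `P(bad) ≤ r² β`.
`hav`: the average inequality for good `τ`, `Φ` a further nonnegative function of `τ`. -/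
def S_SAMPLE : Prop :=
  (∀ (J r : ℕ) (f g : Fin J → ℝ) (Φ : (Fin r → Fin J) → ℝ) (B β θ A : ℝ)
    (bad : Fin J → Fin J → Prop), 1 ≤ J → 1 ≤ r → (∀ j, 0 ≤ f j) → (∀ j, f j ≤ B) →
    (∀ j, 0 ≤ g j) → (∀ τ, 0 ≤ Φ τ) → 0 ≤ B → 0 ≤ θ →
    (((univ : Finset (Fin J × Fin J)).filter (fun p => bad p.1 p.2)).card : ℝ) ≤ β * J ^ 2 →
    (∑ τ, Φ τ ≤ A * (J : ℝ) ^ r) →
    (∀ τ : Fin r → Fin J, (∀ l l', l ≠ l' → ¬ bad (τ l) (τ l')) →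
      ∑ l, f (τ l) ≤ ∑ l, g (τ l) + Φ τ + θ * r) →
    (∑ j, f j) / J ≤ (∑ j, g j) / J + A / r + θ + B * r ^ 2 * β) ∧
  (∀ (T : Tower) (J r : ℕ) (y : (s : ℕ) → Fin (T.n s) → Fin J → ℝ)
    (c : ℕ → Fin (2 ^ T.a) → Fin J → ℝ), 1 ≤ J →
    ∑ τ : Fin r → Fin J, T.mc (fun s b l => y s b (τ l)) (fun s ν l => c s ν (τ l)) ≤
      (r / J * T.mc y c) * (J : ℝ) ^ r)

/-! ## LEAK.
`M = rres R (acc c s')`, `s' ≤ i`, `R` disjoint from the rows `{ν : J ≤ Hi·occ}`.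
(1) `hs(P_i G^i M) ≤ δ J`.  Let `A : Fin n × Fin R → ℝ` with `A d_j = P_i(row_b(G M))(j)`, where
`d_j` lists the `c_s ν j` (`s ≤ i`, `ν ∈ S_i`).  By SAMPLE with `r = r_i` and `RMProp.leak` (the
supports of `M_{τ l}` are disjoint for good `τ`; `P(bad) ≤ r²·(i+1)k_i²/Hi`):
`hs(GM - P_i GM)/J ≥ (1-ε) hs(M)/J - ε - tiny`, and `hs(GM) ≤ (1+ε) hs(M) + tiny J`.
(2) `hs(P_i M) ≤ max_ν |row_ν| · ∑_ν |P_i row_ν|`, `∑_ν |P_i m_ν| ≤ √(rank) (∑_j |M_j|_1²)^{1/2}`,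
`|row_ν|² ≤ B'² J/Hi`.  (3) `rho(P_i M')² ≤ rank · ∑_j |M'_j|_1²`. -/
def S_LEAK : Prop :=
  ∀ (K top : ℕ) (B δ : ℝ), 1 ≤ B → 0 < δ → ∃ H₂ ε₀ : ℝ, 1 ≤ H₂ ∧ 0 < ε₀ ∧
    ∀ C₀ : ℝ, 1 ≤ C₀ → ∃ Γ : ℕ,
    ∀ (H' ε : ℝ) (g : ℕ) (T : Tower), 10 ≤ g → H₂ ≤ H' → 0 < ε → ε ≤ ε₀ → ε < 1 →
    T.K = K → T.top = top → T.OK H' ε C₀ g Γ →
    ∀ (J : ℕ) (c : ℕ → Fin (2 ^ T.a) → Fin J → ℝ) (Lo r Hi : ℕ → ℕ) (δ' : ℝ),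
      1 ≤ J → T.Sparse c B → Win T c δ' Lo r Hi →
      ∀ i < top, ∀ s' ≤ i, ∀ R : Finset (Fin (2 ^ T.a)), (∀ ν ∈ R, Hi i * occ c i ν < J) →
        hs (rowmap (proj (Vf T c Lo i)) (T.GM i (rres R (T.accJ c s')))) ≤ δ * J ∧
        hs (rowmap (proj (Vf T c Lo i)) (rres R (T.accJ c s'))) ≤ δ * J

/-! ## MIXU (final mixing bound in terms of the `u_i²`).
`b''_s = rres (S_{s-1}) b_s` (`b''_0 = 0`), `c''_s = b''_s - K b''_{s-1}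
= 1_{S_{s-1}} c_s + K 1_{S_{s-1} ∖ S_{s-2}} b_{s-1}`, noise `y''_s = y_s + G^s(1_{S_{s-1}^c} b_s)`,
`1_{S_{s-1}^c} b_s = 1_{S_{s-1}^c} c_s + K 1_{S_{s-1}^c} b_{s-1}` (mass `K² u_{s-1}²`),
`rho(c''_s)² ≤ |S_{s-1}| hs(c''_s) ≤ k_s hs`. -/
def S_MIXU : Prop :=
  ∀ (K top : ℕ) (B : ℝ), 1 ≤ K → 1 ≤ B → ∃ Γ : ℕ,
    ∀ (H₂ ε C₀ : ℝ) (g : ℕ) (T : Tower), 10 ≤ g → 0 < ε → ε < 1 →
    T.K = K → T.top = top → T.OK H₂ ε C₀ g Γ →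
    ∀ (J : ℕ) (y : (s : ℕ) → Fin (T.n s) → Fin J → ℝ) (c : ℕ → Fin (2 ^ T.a) → Fin J → ℝ)
      (Lo r Hi : ℕ → ℕ) (δ' : ℝ),
      1 ≤ J → T.Sparse c B → Win T c δ' Lo r Hi →
      (∀ j, T.cost (fun s b => y s b j) (fun s ν => c s ν j) ≤ 3) →
      ∃ (y'' : (s : ℕ) → Fin (T.n s) → Fin J → ℝ) (c'' : ℕ → Fin (2 ^ T.a) → Fin J → ℝ),
        (∀ s ≤ top, ∀ b j, T.ev (fun s b => y s b j) (fun s ν => c s ν j) s b =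
          T.ev (fun s b => y'' s b j) (fun s ν => c'' s ν j) s b) ∧
        T.mc y'' c'' ≤ 100 * ((K : ℝ) ^ 2 + (K : ℝ) ^ 4 * ∑ i ∈ range top, usq T c Lo i) * J

end Run7.h35.NEG
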