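import Pool.Agent.Run7.h35.NEG.Tower

set_option autoImplicit false

namespace Run7.h35.NEG

open Finset Module

/-! ## contractions, mixing -/

/-- `A` is a contraction `ℓ₂^J → ℓ₂^I` -/
def Contr {I J : Type} [Fintype I] [Fintype J] (A : I → J → ℝ) : Prop :=
  ∀ w : J → ℝ, ∑ i, (∑ j, A i j * w j) ^ 2 ≤ ∑ j, w j ^ 2

/-- mixing real tuples -/
def mixR {I J : Type} [Fintype J] (A : I → J → ℝ) (w : J → ℝ) (i : I) : ℝ := ∑ j, A i j * w j

/-- mixing tuples of vectors -/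
def mixE {I J E : Type} [Fintype J] [AddCommGroup E] [Module ℝ E] (A : I → J → ℝ) (z : J → E)
    (i : I) : E := ∑ j, A i j • z j

/-- Hilbert-Schmidt norm squared -/
def hs {ι J : Type} [Fintype ι] [Fintype J] (M : ι → J → ℝ) : ℝ := ∑ b, ∑ j, M b j ^ 2

/-- sum of the row norms -/
noncomputable def rho {ι J : Type} [Fintype ι] [Fintype J] (M : ι → J → ℝ) : ℝ :=
  ∑ b, Real.sqrt (∑ j, M b j ^ 2)

section hs

variable {ι J I : Type} [Fintype ι] [Fintype J] [Fintype I]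

theorem hs_nonneg (M : ι → J → ℝ) : 0 ≤ hs M := by unfold hs; positivity

theorem rho_nonneg (M : ι → J → ℝ) : 0 ≤ rho M := by unfold rho; positivity

theorem hs_add_le (M M' : ι → J → ℝ) : hs (fun b j => M b j + M' b j) ≤ 2 * hs M + 2 * hs M' := by
  unfold hs
  simp only [mul_sum, ← sum_add_distrib]
  refine sum_le_sum fun b _ => sum_le_sum fun j _ => ?_
  nlinarith [sq_nonneg (M b j - M' b j)]

theorem rho_add_le (M M' : ι → J → ℝ) : rho (fun b j => M b j + M' b j) ≤ rho M + rho M' := by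
  unfold rho
  rw [← sum_add_distrib]
  refine sum_le_sum fun b _ => ?_
  have := norm_add_le (WithLp.toLp 2 (M b) : EuclideanSpace ℝ J) (WithLp.toLp 2 (M' b))
  simpa [EuclideanSpace.norm_eq, sq_abs] using this

/-- Cauchy-Schwarz for `rho` -/
theorem rho_sq_le (M : ι → J → ℝ) (S : Finset ι) (hS : ∀ b, b ∉ S → ∀ j, M b j = 0) :
    rho M ^ 2 ≤ S.card * hs M := by
  unfold rho hs
  have h1 : ∑ b, Real.sqrt (∑ j, M b j ^ 2) = ∑ b ∈ S, Real.sqrt (∑ j, M b j ^ 2) := by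
    refine (sum_subset (subset_univ S) fun b _ hb => ?_).symm
    simp [hS b hb]
  have h2 : ∑ b ∈ S, ∑ j, M b j ^ 2 ≤ ∑ b, ∑ j, M b j ^ 2 :=
    sum_le_sum_of_subset_of_nonneg (subset_univ _) fun _ _ _ => by positivity
  rw [h1]
  have h3 := sq_sum_le_card_mul_sum_sq (s := S) (f := fun b => Real.sqrt (∑ j, M b j ^ 2))
  refine h3.trans (mul_le_mul_of_nonneg_left ?_ (Nat.cast_nonneg _))
  refine le_trans (le_of_eq (sum_congr rfl fun b _ => ?_)) h2
  exact Real.sq_sqrt (by positivity)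

theorem hs_mix_le {A : I → J → ℝ} (hA : Contr A) (M : ι → J → ℝ) :
    hs (fun b => mixR A (M b)) ≤ hs M := by
  unfold hs mixR
  exact sum_le_sum fun b _ => hA (M b)

theorem rho_mix_le {A : I → J → ℝ} (hA : Contr A) (M : ι → J → ℝ) :
    rho (fun b => mixR A (M b)) ≤ rho M := by
  unfold rho mixR
  exact sum_le_sum fun b _ => Real.sqrt_le_sqrt (hA (M b))

/-- columns against rows (Minkowski) -/
theorem sum_l1_sq_le (M : ι → J → ℝ) : ∑ j, (∑ b, |M b j|) ^ 2 ≤ rho M ^ 2 := by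
  unfold rho
  have h := norm_sum_le (univ : Finset ι)
    (fun b => (WithLp.toLp 2 (fun j => |M b j|) : EuclideanSpace ℝ J))
  have h1 : ‖∑ b, (WithLp.toLp 2 (fun j => |M b j|) : EuclideanSpace ℝ J)‖ ^ 2 =
      ∑ j, (∑ b, |M b j|) ^ 2 := by
    rw [EuclideanSpace.norm_eq, Real.sq_sqrt (by positivity)]
    refine sum_congr rfl fun j _ => ?_
    simp [sq_abs]
  have h2 : ∀ b, ‖(WithLp.toLp 2 (fun j => |M b j|) : EuclideanSpace ℝ J)‖ =
      Real.sqrt (∑ j, M b j ^ 2) := by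
    intro b
    rw [EuclideanSpace.norm_eq]
    simp [sq_abs]
  rw [← h1]
  simp only [h2] at h
  exact pow_le_pow_left₀ (norm_nonneg _) h 2

end hs

/-! ## orthogonal projections on `ℝ^J` -/

section proj

variable {J : Type} [Fintype J]

/-- orthogonal projection onto the subspace `V` of `ℝ^J` -/
noncomputable def proj (V : Submodule ℝ (J → ℝ)) : (J → ℝ) →ₗ[ℝ] (J → ℝ) :=
  (WithLp.linearEquiv 2 ℝ (J → ℝ)).toLinearMap ∘ₗ
    ((V.map (WithLp.linearEquiv 2 ℝ (J → ℝ)).symm.toLinearMap).starProjection :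
      EuclideanSpace ℝ J →L[ℝ] EuclideanSpace ℝ J).toLinearMap ∘ₗ
    (WithLp.linearEquiv 2 ℝ (J → ℝ)).symm.toLinearMap

theorem inner_toLp (v w : J → ℝ) :
    inner ℝ (WithLp.toLp 2 v : EuclideanSpace ℝ J) (WithLp.toLp 2 w) = ∑ j, v j * w j := by
  rw [PiLp.inner_apply]
  refine sum_congr rfl fun j _ => ?_
  simp [mul_comm]

theorem proj_eq (V : Submodule ℝ (J → ℝ)) (v : J → ℝ) :
    WithLp.toLp 2 (proj V v) =
      (V.map (WithLp.linearEquiv 2 ℝ (J → ℝ)).symm.toLinearMap).starProjection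
        (WithLp.toLp 2 v : EuclideanSpace ℝ J) := rfl

theorem proj_mem (V : Submodule ℝ (J → ℝ)) (v : J → ℝ) : proj V v ∈ V := by
  have h := Submodule.starProjection_apply_mem
    (V.map (WithLp.linearEquiv 2 ℝ (J → ℝ)).symm.toLinearMap) (WithLp.toLp 2 v : EuclideanSpace ℝ J)
  rw [← proj_eq] at h
  obtain ⟨w, hw, hw'⟩ := h
  have : w = proj V v := by
    have := congrArg (WithLp.linearEquiv 2 ℝ (J → ℝ)) hw'
    simpa using this
  rwa [← this]

theorem proj_of_mem {V : Submodule ℝ (J → ℝ)} {v : J → ℝ} (hv : v ∈ V) : proj V v = v := by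
  have h : (WithLp.toLp 2 v : EuclideanSpace ℝ J) ∈
      V.map (WithLp.linearEquiv 2 ℝ (J → ℝ)).symm.toLinearMap := ⟨v, hv, rfl⟩
  have h1 := (Submodule.starProjection_eq_self_iff).mpr h
  rw [← proj_eq] at h1
  exact congrArg (WithLp.linearEquiv 2 ℝ (J → ℝ)) h1

theorem proj_idem (V : Submodule ℝ (J → ℝ)) (v : J → ℝ) : proj V (proj V v) = proj V v :=
  proj_of_mem (proj_mem V v)

theorem proj_symm (V : Submodule ℝ (J → ℝ)) (v w : J → ℝ) :
    ∑ j, proj V v j * w j = ∑ j, v j * proj V w j := by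
  rw [← inner_toLp, ← inner_toLp, proj_eq, proj_eq]
  exact Submodule.inner_starProjection_left_eq_right _ _ _

theorem proj_norm_le (V : Submodule ℝ (J → ℝ)) (v : J → ℝ) :
    ∑ j, proj V v j ^ 2 ≤ ∑ j, v j ^ 2 := by
  have h := Submodule.norm_starProjection_apply_le
    (V.map (WithLp.linearEquiv 2 ℝ (J → ℝ)).symm.toLinearMap) (WithLp.toLp 2 v : EuclideanSpace ℝ J)
  rw [← proj_eq] at h
  have h2 := pow_le_pow_left₀ (norm_nonneg _) h 2
  simpa [EuclideanSpace.norm_eq, Real.sq_sqrt, sum_nonneg, sq_nonneg] using h2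

end proj

end Run7.h35.NEG
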