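import Pool.Agent.Run7.h35.NEG.Core2

set_option autoImplicit false

namespace Run7.h35.NEG

open Finset Module

/-! ## monotonicity of the standing assumptions -/

theorem RMProp.mono {H H' ε ε' C₀ : ℝ} {a n q ρ : ℕ} {G : Fin n → Fin (2 ^ a) → ℝ}
    (h : RMProp H' ε' C₀ a n q ρ G) (hH0 : 0 ≤ H) (hH : H ≤ H') (hε : ε' ≤ ε) :
    RMProp H ε C₀ a n q ρ G where
  diag := fun ν => (h.diag ν).trans hε
  off := h.off
  leak := by
    intro r R hr h1 h2 u d hu hd hdis A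
    refine le_trans ?_ (h.leak r R hr h1 h2 u d (fun t => (hu t).mono le_rfl hH0 hH)
      (fun t => (hd t).mono le_rfl hH0 hH) hdis A)
    have h3 : 0 ≤ ∑ t, ∑ ν, u t ν ^ 2 := by positivity
    have h4 : (0:ℝ) ≤ r := Nat.cast_nonneg _
    nlinarith
  rigid := by
    intro r hr h1 u v hu hv lam hlam h2 n' hn' p p' hp
    exact h.rigid r hr h1 u v (fun t => (hu t).mono le_rfl hH0 hH)
      (fun t => (hv t).mono le_rfl hH0 hH) lam (hε.trans hlam) h2 n' hn' p p' hp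

theorem Tower.OK.mono {T : Tower} {H H' ε ε' C₀ : ℝ} {g g' Γ Γ' : ℕ} (h : T.OK H' ε' C₀ g' Γ')
    (hH0 : 0 ≤ H) (hH : H ≤ H') (hε : ε' ≤ ε) (hg : g ≤ g') (hΓ : Γ ≤ Γ') :
    T.OK H ε C₀ g Γ where
  base := hΓ.trans h.base
  one_le_a := h.one_le_a
  k_ge := h.k_ge
  n_eq := h.n_eq
  gap := by
    intro s hs
    refine le_trans (Nat.pow_le_pow_right ?_ hg) (h.gap s hs)
    rw [h.n_eq s hs]
    exact Nat.one_le_pow _ _ (h.k_pos s)
  k_top := le_trans (Nat.pow_le_pow_right (h.k_pos _) hg) h.k_top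
  rm := fun s hs => (h.rm s hs).mono hH0 hH hε
  topG := h.topG

/-! ## windows: elementary facts -/

theorem sum_union_le {ι : Type} [DecidableEq ι] (f : ι → ℝ) (hf : ∀ i, 0 ≤ f i)
    (A B : Finset ι) : ∑ i ∈ A ∪ B, f i ≤ ∑ i ∈ A, f i + ∑ i ∈ B, f i := by
  have h := sum_union_inter (s₁ := A) (s₂ := B) (f := f)
  have h1 : 0 ≤ ∑ i ∈ A ∩ B, f i := sum_nonneg fun i _ => hf i
  linarith

theorem hs_rres {N J : ℕ} (R : Finset (Fin N)) (M : Fin N → Fin J → ℝ) :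
    hs (rres R M) = ∑ ν ∈ R, ∑ j, M ν j ^ 2 := by
  classical
  unfold hs rres
  rw [← sum_filter_add_sum_filter_not univ (fun ν => ν ∈ R)]
  have h1 : ∑ ν ∈ univ.filter (fun ν => ν ∉ R), ∑ j, (if ν ∈ R then M ν j else 0) ^ 2 = 0 := by
    refine sum_eq_zero fun ν hν => ?_
    simp only [mem_filter, mem_univ, true_and] at hν
    simp [hν]
  rw [h1, add_zero]
  have h2 : univ.filter (fun ν => ν ∈ R) = R := by ext ν; simp
  rw [h2]
  refine sum_congr rfl fun ν hν => ?_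
  simp [hν]

section win

variable {T : Tower} {H ε C₀ : ℝ} {g Γ J : ℕ} {c : ℕ → Fin (2 ^ T.a) → Fin J → ℝ} {δ : ℝ}
  {Lo r Hi : ℕ → ℕ}

theorem Win.lo_le_hi (hW : Win T c δ Lo r Hi) {s : ℕ} (hs : s < T.top) : Lo s ≤ Hi s :=
  (Nat.le_self_pow (by norm_num) _).trans
    ((hW.mid s hs).trans ((Nat.le_self_pow (by norm_num) _).trans (hW.hi s hs)))

theorem Win.r_le_k (hW : Win T c δ Lo r Hi) {s : ℕ} (hs : s < T.top) :
    r s ^ 10 ≤ T.k (s + 1) :=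
  (hW.hi s hs).trans ((Nat.le_self_pow (by norm_num) _).trans (hW.up s hs))

/-- the rows that are not in `S_i` split in three parts -/
theorem usq_split (hT : T.OK H ε C₀ g Γ) (hK : 1 ≤ T.K) (hJ : 1 ≤ J)
    (hW : Win T c δ Lo r Hi) {i : ℕ} (hi : i < T.top) :
    usq T c Lo i ≤ hs (Ub T c Lo Hi i) / J + ((i : ℝ) + 1) * (T.K : ℝ) ^ (2 * i) * δ +
      2 / (T.K : ℝ) ^ 2 * (usq T c Lo (i + 1) + hs (c (i + 1)) / J) := by
  classical
  have hJ0 : (0:ℝ) < J := by exact_mod_cast hJ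
  have hKr : (1:ℝ) ≤ T.K := by exact_mod_cast hK
  set f : Fin (2 ^ T.a) → ℝ := fun ν => ∑ j, T.accJ c i ν j ^ 2 with hf
  have hf0 : ∀ ν, 0 ≤ f ν := fun ν => by rw [hf]; positivity
  set Bu := univ.filter (fun ν => J ≤ Hi i * occ c i ν ∧ Lo i * occ c i ν < J) with hBu
  have h1 : ∑ ν ∈ (Sf T c Lo i)ᶜ, f ν ≤
      ∑ ν ∈ (Sf T c Lo (i + 1) \ Sp T c Hi i), f ν + ∑ ν ∈ Bu, f ν +
        ∑ ν ∈ (Sf T c Lo (i + 1))ᶜ, f ν := by
    have hsub : (Sf T c Lo i)ᶜ ⊆ (Sf T c Lo (i + 1) \ Sp T c Hi i) ∪ Bu ∪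
        (Sf T c Lo (i + 1))ᶜ := by
      intro ν hν
      rw [mem_compl] at hν
      have h2 : Lo i * occ c i ν < J := by
        by_contra hcon
        push Not at hcon
        apply hν
        unfold Sf
        rw [if_pos hi]
        simp [hcon]
      rw [mem_union, mem_union]
      by_cases h3 : ν ∈ Sf T c Lo (i + 1)
      · left
        by_cases h4 : ν ∈ Sp T c Hi i
        · right
          rw [hBu, mem_filter]
          refine ⟨mem_univ _, ?_, h2⟩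
          simpa [Sp] using h4
        · left
          rw [mem_sdiff]
          exact ⟨h3, h4⟩
      · right
        rw [mem_compl]
        exact h3
    refine (sum_le_sum_of_subset_of_nonneg hsub fun ν _ _ => hf0 ν).trans ?_
    refine (sum_union_le f hf0 _ _).trans ?_
    have := sum_union_le f hf0 (Sf T c Lo (i + 1) \ Sp T c Hi i) Bu
    linarith
  have h2 : ∑ ν ∈ (Sf T c Lo (i + 1) \ Sp T c Hi i), f ν = hs (Ub T c Lo Hi i) := by
    unfold Ub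
    rw [hs_rres]
  have h3 : ∑ ν ∈ Bu, f ν ≤ ((i : ℝ) + 1) * (T.K : ℝ) ^ (2 * i) * (δ * J) := by
    have h4 : ∀ ν ∈ Bu, f ν ≤ ((i : ℝ) + 1) * (T.K : ℝ) ^ (2 * i) *
        ∑ s' ∈ range (i + 1), ∑ j, c s' ν j ^ 2 := by
      intro ν _
      rw [hf]
      simp only
      rw [sum_comm (s := range (i + 1)), mul_sum]
      exact sum_le_sum fun j _ => T.acc_sq_le hK (fun s ν => c s ν j) i ν
    refine (sum_le_sum h4).trans ?_
    rw [← mul_sum]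
    exact mul_le_mul_of_nonneg_left (hW.mass i hi) (by positivity)
  have h5 : ∑ ν ∈ (Sf T c Lo (i + 1))ᶜ, f ν ≤ 2 / (T.K : ℝ) ^ 2 *
      (∑ ν ∈ (Sf T c Lo (i + 1))ᶜ, ∑ j, T.accJ c (i + 1) ν j ^ 2 + hs (c (i + 1))) := by
    have h6 : ∀ ν ∈ (Sf T c Lo (i + 1))ᶜ, f ν ≤ 2 / (T.K : ℝ) ^ 2 *
        (∑ j, T.accJ c (i + 1) ν j ^ 2 + ∑ j, c (i + 1) ν j ^ 2) := by
      intro ν _
      rw [hf]
      simp only
      rw [← sum_add_distrib, mul_sum]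
      refine sum_le_sum fun j _ => ?_
      have h7 : T.accJ c (i + 1) ν j = c (i + 1) ν j + T.K * T.accJ c i ν j :=
        T.acc_succ (fun s ν => c s ν j) i ν
      rw [div_mul_eq_mul_div, le_div_iff₀ (by positivity)]
      have h8 : T.accJ c i ν j ^ 2 * (T.K : ℝ) ^ 2 =
          (T.accJ c (i + 1) ν j - c (i + 1) ν j) ^ 2 := by rw [h7]; ring
      rw [h8]
      nlinarith [sq_nonneg (T.accJ c (i + 1) ν j + c (i + 1) ν j)]
    refine (sum_le_sum h6).trans ?_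
    rw [← mul_sum, sum_add_distrib]
    refine mul_le_mul_of_nonneg_left ?_ (by positivity)
    have h9 : ∑ ν ∈ (Sf T c Lo (i + 1))ᶜ, ∑ j, c (i + 1) ν j ^ 2 ≤ hs (c (i + 1)) :=
      sum_le_sum_of_subset_of_nonneg (subset_univ _) fun _ _ _ => by positivity
    linarith
  unfold usq
  rw [div_le_iff₀ hJ0]
  have h10 : (hs (Ub T c Lo Hi i) / J + ((i : ℝ) + 1) * (T.K : ℝ) ^ (2 * i) * δ +
      2 / (T.K : ℝ) ^ 2 * ((∑ ν ∈ (Sf T c Lo (i + 1))ᶜ, ∑ j, T.accJ c (i + 1) ν j ^ 2) / J +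
        hs (c (i + 1)) / J)) * J = hs (Ub T c Lo Hi i) +
      ((i : ℝ) + 1) * (T.K : ℝ) ^ (2 * i) * (δ * J) + 2 / (T.K : ℝ) ^ 2 *
      (∑ ν ∈ (Sf T c Lo (i + 1))ᶜ, ∑ j, T.accJ c (i + 1) ν j ^ 2 + hs (c (i + 1))) := by
    field_simp
  rw [h10]
  have h11 : ∑ ν ∈ (Sf T c Lo i)ᶜ, ∑ j, T.accJ c i ν j ^ 2 = ∑ ν ∈ (Sf T c Lo i)ᶜ, f ν := rfl
  rw [h11]
  linarith

end win

end Run7.h35.NEG
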