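import Pool.Agent.Run7.h35.NEG.Boot1
import Pool.Agent.Run7.h882.NEG.LeakB

set_option autoImplicit false

namespace Run7.h35.NEG

open Finset Module

/-- one step of the bootstrap: the mass of `ū_i` is controlled by the cost of `Z_i` -/
theorem boot_step (hSAMPLE : S_SAMPLE) {T : Tower} {H₂ ε C₀ : ℝ} {g Γ J : ℕ}
    (hT : T.OK H₂ ε C₀ g Γ) (hg : 10 ≤ g) (hK : 1 ≤ T.K) (hJ : 1 ≤ J)
    {c : ℕ → Fin (2 ^ T.a) → Fin J → ℝ} {y : (s : ℕ) → Fin (T.n s) → Fin J → ℝ} {δ B H Θ δP : ℝ}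
    {Lo r Hi : ℕ → ℕ} (hW : Win T c δ Lo r Hi) (hSp : T.Sparse c B) (hta : T.top + 4 ≤ T.a)
    (hH : ((T.top : ℝ) + 1) * (T.K : ℝ) ^ T.top * |B| ≤ H) (hΘ : 0 ≤ Θ) (hδP : 0 ≤ δP)
    {E : Type} [NormedAddCommGroup E] [NormedSpace ℝ E] (X : TowerSpace T E)
    (F : Submodule ℝ E) {i : ℕ} (hi : i < T.top) (z : Fin J → E) (hz : ∀ j, z j ∈ F)
    (hrep : X.Rep z (yZ T y c Lo Hi i) (cZ T c Lo Hi i))
    (hprop : ∀ r : ℕ, T.n i ^ 4 ≤ r → r ^ 4 ≤ T.k (i + 1) →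
      ∀ (z : Fin r → E) (y : (s : ℕ) → Fin (T.n s) → Fin r → ℝ)
        (c : ℕ → Fin (2 ^ T.a) → Fin r → ℝ),
        (∀ t, z t ∈ F) → X.Rep z y c → (∀ s < i, c s = 0) →
        (∀ t, SG T.a (T.k i ^ 3) H (fun ν => c i ν t)) →
        (∀ t t', t ≠ t' → ∀ ν, c i ν t = 0 ∨ c i ν t' = 0) →
        ∀ κ : ℝ, ∑ t, ‖z t‖ ^ 2 + T.mc y (T.above i c) ≤ κ * r →
          ∑ t, ∑ ν, c i ν t ^ 2 ≤ Θ * (κ + δP) * r) :
    hs (Ub T c Lo Hi i) / J ≤
      Θ * ((∑ j, ‖z j‖ ^ 2) / J + T.mc (yZ T y c Lo Hi i) (T.above i (cZ T c Lo Hi i)) / J) +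
        Θ * δP + H ^ 2 / T.a := by
  classical
  obtain ⟨hs1, hs2⟩ := hSAMPLE
  set R := Sf T c Lo (i + 1) \ Sp T c Hi i with hR
  have hJ0 : (0:ℝ) < J := by exact_mod_cast hJ
  have hKr : (1:ℝ) ≤ T.K := by exact_mod_cast hK
  -- numbers
  have hka := hT.k_ge i
  have hk1 := hT.k_pos i
  have hnk : T.n i = T.k i ^ 30 := hT.n_eq i hi
  have hlo := hW.lo i hi
  have hmid := hW.mid i hi
  have hhi := hW.hi i hi
  have hup := hW.up i hi
  have hn1 : 1 ≤ T.n i := by rw [hnk]; exact Nat.one_le_pow _ _ hk1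
  have hnr : T.n i ^ 100 ≤ r i := by
    calc T.n i ^ 100 = (T.n i ^ 10) ^ 10 := by rw [← pow_mul]
      _ ≤ Lo i ^ 10 := Nat.pow_le_pow_left hlo 10
      _ ≤ r i := hmid
  have hn4 : T.n i ^ 4 ≤ r i := (Nat.pow_le_pow_right hn1 (by norm_num)).trans hnr
  have hr1 : 1 ≤ r i := (Nat.one_le_pow _ _ hn1).trans hnr
  have hr4 : r i ^ 4 ≤ T.k (i + 1) :=
    (Nat.pow_le_pow_right hr1 (by norm_num)).trans (hW.r_le_k hi)
  have hkr : T.k i ≤ r i := by
    refine le_trans ?_ hn4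
    rw [hnk, ← pow_mul]
    exact Nat.le_self_pow (by norm_num) _
  have hHi1 : 1 ≤ Hi i := (Nat.one_le_pow _ _ hr1).trans hhi
  -- columns of ū
  have hUsg : ∀ j, SG T.a (T.k i ^ 3) H (fun ν => Ub T c Lo Hi i ν j) := by
    intro j
    have h1 := hT.acc_SG (by omega) hK (fun s ν => c s ν j) (fun s => hSp s j) (le_refl i)
      hi.le (by omega)
    have h2 : SG T.a (T.k i ^ 3) H (T.acc (fun s ν => c s ν j) i) := by
      refine h1.mono le_rfl (by positivity) (le_trans ?_ hH)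
      have h2 : ((i : ℝ) + 1) ≤ (T.top : ℝ) + 1 := by
        have : (i : ℝ) ≤ T.top := by exact_mod_cast hi.le
        linarith
      exact mul_le_mul_of_nonneg_right (mul_le_mul h2 (pow_le_pow_right₀ hKr hi.le)
        (by positivity) (by positivity)) (abs_nonneg _)
    exact h2.restrict R
  have hq : ∀ s ≤ i, ∀ j, (univ.filter (fun ν => c s ν j ≠ 0)).card ≤ T.k i ^ 2 := by
    intro s hs' j
    exact (hSp s j).2.1.trans (Nat.pow_le_pow_left (hT.k_mono (by omega) hs' hi.le) 2)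
  have hpairs := Run7.h882.NEG.pairs_le c i (T.k i ^ 2) (Hi i) hq R
    (by
      intro ν hν
      rw [hR, mem_sdiff] at hν
      have := hν.2
      unfold Sp at this
      simp only [mem_filter, mem_univ, true_and] at this
      omega) (Ub T c Lo Hi i)
    (by
      intro ν j h
      unfold Ub rres at h
      by_cases hν : ν ∈ Sf T c Lo (i + 1) \ Sp T c Hi i
      · rw [if_pos hν] at h
        exact ⟨hν, Run7.h882.NEG.acc_supp le_rfl h⟩
      · rw [if_neg hν] at h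
        exact absurd rfl h)
  set f : Fin J → ℝ := fun j => ∑ ν, Ub T c Lo Hi i ν j ^ 2 with hf
  set mcZ := T.mc (yZ T y c Lo Hi i) (T.above i (cZ T c Lo Hi i)) with hmcZ
  set Φ : (Fin (r i) → Fin J) → ℝ := fun τ => Θ * T.mc (fun s b l => yZ T y c Lo Hi i s b (τ l))
    (fun s ν l => T.above i (cZ T c Lo Hi i) s ν (τ l)) with hΦ
  have hkey := hs1 J (r i) f (fun j => Θ * ‖z j‖ ^ 2) Φ (H ^ 2)
    ((T.k i : ℝ) ^ 3 / Hi i) (Θ * δP) (Θ * (r i / J * mcZ))
    (fun j j' => ∃ ν, Ub T c Lo Hi i ν j ≠ 0 ∧ Ub T c Lo Hi i ν j' ≠ 0) hJ hr1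
    (fun j => by positivity) (fun j => (hUsg j).2.2) (fun j => by positivity)
    (fun τ => mul_nonneg hΘ (mc_nonneg _ _)) (sq_nonneg _) (mul_nonneg hΘ hδP)
    (by
      have h1 : (Hi i : ℝ) * ((univ : Finset (Fin J × Fin J)).filter
          (fun p => ∃ ν, Ub T c Lo Hi i ν p.1 ≠ 0 ∧ Ub T c Lo Hi i ν p.2 ≠ 0)).card ≤
          J * (J * ((i + 1) * (T.k i : ℝ) ^ 2)) := by exact_mod_cast hpairs
      have h2 : ((i : ℝ) + 1) * (T.k i : ℝ) ^ 2 ≤ (T.k i : ℝ) ^ 3 := by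
        have : ((i : ℝ) + 1) ≤ T.k i := by exact_mod_cast (by omega : i + 1 ≤ T.k i)
        calc ((i : ℝ) + 1) * (T.k i : ℝ) ^ 2 ≤ T.k i * (T.k i : ℝ) ^ 2 :=
              mul_le_mul_of_nonneg_right this (by positivity)
          _ = _ := by ring
      have hHi0 : (0:ℝ) < Hi i := by exact_mod_cast hHi1
      rw [div_mul_eq_mul_div, le_div_iff₀ hHi0]
      refine le_trans (le_of_eq ?_) (h1.trans ?_)
      · rw [mul_comm]
        congr!
      · calc (J : ℝ) * (J * ((i + 1) * (T.k i : ℝ) ^ 2)) ≤ J * (J * (T.k i : ℝ) ^ 3) :=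
              mul_le_mul_of_nonneg_left (mul_le_mul_of_nonneg_left h2 hJ0.le) hJ0.le
          _ = _ := by ring)
    (by
      have h1 := hs2 T J (r i) (yZ T y c Lo Hi i) (T.above i (cZ T c Lo Hi i)) hJ
      rw [hΦ]
      simp only
      rw [← mul_sum, mul_assoc]
      exact mul_le_mul_of_nonneg_left h1 hΘ)
    (by
      intro τ hτ
      have hmcτ : T.mc (fun s b l => yZ T y c Lo Hi i s b (τ l))
          (T.above i (fun s ν l => cZ T c Lo Hi i s ν (τ l))) =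
          T.mc (fun s b l => yZ T y c Lo Hi i s b (τ l))
            (fun s ν l => T.above i (cZ T c Lo Hi i) s ν (τ l)) := rfl
      have hri : (0:ℝ) < r i := by exact_mod_cast hr1
      have h1 := hprop (r i) hn4 hr4 (fun l => z (τ l)) (fun s b l => yZ T y c Lo Hi i s b (τ l))
        (fun s ν l => cZ T c Lo Hi i s ν (τ l)) (fun l => hz _)
        (fun s hs' b l => hrep s hs' b (τ l))
        (by
          intro s hs'
          ext ν l
          simp [cZ, hs'])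
        (by
          intro l
          have : (fun ν => cZ T c Lo Hi i i ν (τ l)) = fun ν => Ub T c Lo Hi i ν (τ l) := by
            ext ν
            simp [cZ]
          rw [this]
          exact hUsg _)
        (by
          intro l l' hne ν
          have h2 := hτ l l' hne
          push Not at h2
          have h3 : ∀ l, cZ T c Lo Hi i i ν (τ l) = Ub T c Lo Hi i ν (τ l) := by
            intro l
            simp [cZ]
          rw [h3, h3]
          by_cases h4 : Ub T c Lo Hi i ν (τ l) = 0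
          · left; exact h4
          · right; exact h2 ν h4)
        ((∑ l, ‖z (τ l)‖ ^ 2 + T.mc (fun s b l => yZ T y c Lo Hi i s b (τ l))
            (fun s ν l => T.above i (cZ T c Lo Hi i) s ν (τ l))) / r i)
        (by rw [hmcτ, div_mul_cancel₀ _ hri.ne'])
      have h2 : ∑ l, f (τ l) = ∑ t, ∑ ν, cZ T c Lo Hi i i ν (τ t) ^ 2 := by
        rw [hf]
        refine sum_congr rfl fun l _ => sum_congr rfl fun ν _ => ?_
        simp [cZ]
      rw [h2]
      refine h1.trans (le_of_eq ?_)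
      rw [hΦ]
      simp only
      rw [← mul_sum]
      field_simp)
  have h1 : (∑ j, f j) = hs (Ub T c Lo Hi i) := by
    rw [hf]; unfold hs; rw [sum_comm]
  rw [h1] at hkey
  refine hkey.trans ?_
  have hri : (0:ℝ) < r i := by exact_mod_cast hr1
  have h2 : Θ * (r i / J * mcZ) / r i = Θ * (mcZ / J) := by field_simp
  have h3 : (∑ j, Θ * ‖z j‖ ^ 2) / J = Θ * ((∑ j, ‖z j‖ ^ 2) / J) := by
    rw [← mul_sum, mul_div_assoc]
  rw [h2, h3]
  have h4 : H ^ 2 * (r i : ℝ) ^ 2 * ((T.k i : ℝ) ^ 3 / Hi i) ≤ H ^ 2 / T.a := by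
    have hHi0 : (0:ℝ) < Hi i := by exact_mod_cast hHi1
    have ha0 : (0:ℝ) < T.a := by exact_mod_cast hT.one_le_a
    have h5 : r i ^ 2 * T.k i ^ 3 * T.a ≤ Hi i := by
      calc r i ^ 2 * T.k i ^ 3 * T.a ≤ r i ^ 2 * r i ^ 3 * r i :=
            Nat.mul_le_mul (Nat.mul_le_mul_left _ (Nat.pow_le_pow_left hkr 3)) (hka.trans hkr)
        _ = r i ^ 6 := by ring
        _ ≤ r i ^ 10 := Nat.pow_le_pow_right hr1 (by norm_num)
        _ ≤ Hi i := hhi
    have h6 : (r i : ℝ) ^ 2 * (T.k i : ℝ) ^ 3 * T.a ≤ Hi i := by exact_mod_cast h5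
    have h7 : (r i : ℝ) ^ 2 * ((T.k i : ℝ) ^ 3 / Hi i) ≤ 1 / T.a := by
      rw [← mul_div_assoc, div_le_div_iff₀ hHi0 ha0, one_mul]
      exact h6
    calc H ^ 2 * (r i : ℝ) ^ 2 * ((T.k i : ℝ) ^ 3 / Hi i) =
          H ^ 2 * ((r i : ℝ) ^ 2 * ((T.k i : ℝ) ^ 3 / Hi i)) := by ring
      _ ≤ H ^ 2 * (1 / T.a) := mul_le_mul_of_nonneg_left h7 (sq_nonneg _)
      _ = _ := by ring
  linarith

end Run7.h35.NEG
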