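import Pool.Agent.Run7.h35.NEG.Lib2

set_option autoImplicit false

namespace Run7.h35.NEG

open Finset Module

/-! ## bounds for accumulated contents -/

variable {T : Tower}

theorem Tower.pow_le_pow_K (hK : 1 ≤ T.K) {s s' t : ℕ} (h : s ≤ t) :
    (T.K : ℝ) ^ (s - s') ≤ (T.K : ℝ) ^ t :=
  pow_le_pow_right₀ (by exact_mod_cast hK) (by omega)

/-- `|b_s|_1 ≤ K^s ∑_{s' ≤ s} |c_{s'}|_1` -/
theorem Tower.acc_l1_le (hK : 1 ≤ T.K) (c : ℕ → Fin (2 ^ T.a) → ℝ) (s : ℕ) :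
    ∑ ν, |T.acc c s ν| ≤ (T.K : ℝ) ^ s * ∑ s' ∈ range (s + 1), ∑ ν, |c s' ν| := by
  unfold Tower.acc
  calc ∑ ν, |∑ s' ∈ range (s + 1), (T.K : ℝ) ^ (s - s') * c s' ν|
      ≤ ∑ ν, ∑ s' ∈ range (s + 1), (T.K : ℝ) ^ s * |c s' ν| := by
        refine sum_le_sum fun ν _ => (abs_sum_le_sum_abs _ _).trans (sum_le_sum fun s' _ => ?_)
        rw [abs_mul, abs_of_nonneg (by positivity : (0:ℝ) ≤ (T.K : ℝ) ^ (s - s'))]
        exact mul_le_mul_of_nonneg_right (Tower.pow_le_pow_K hK le_rfl) (abs_nonneg _)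
    _ = _ := by
        rw [sum_comm, mul_sum]
        exact sum_congr rfl fun s' _ => by rw [mul_sum]

/-- `|b_s|² ≤ (s+1) K^{2s} ∑_{s' ≤ s} |c_{s'}|²`, pointwise -/
theorem Tower.acc_sq_le (hK : 1 ≤ T.K) (c : ℕ → Fin (2 ^ T.a) → ℝ) (s : ℕ) (ν : Fin (2 ^ T.a)) :
    T.acc c s ν ^ 2 ≤ (s + 1) * (T.K : ℝ) ^ (2 * s) * ∑ s' ∈ range (s + 1), c s' ν ^ 2 := by
  unfold Tower.acc
  have h1 := sq_sum_le_card_mul_sum_sq (s := range (s + 1))
    (f := fun s' => (T.K : ℝ) ^ (s - s') * c s' ν)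
  rw [card_range] at h1
  push_cast at h1
  refine h1.trans ?_
  rw [mul_assoc]
  refine mul_le_mul_of_nonneg_left ?_ (by positivity : (0:ℝ) ≤ (s:ℝ) + 1)
  rw [mul_sum]
  refine sum_le_sum fun s' _ => ?_
  rw [mul_pow]
  refine mul_le_mul_of_nonneg_right ?_ (sq_nonneg _)
  rw [mul_comm 2 s, pow_mul]
  exact pow_le_pow_left₀ (by positivity : (0:ℝ) ≤ (T.K : ℝ) ^ (s - s'))
    (Tower.pow_le_pow_K hK le_rfl) 2

theorem Tower.acc_l2_le (hK : 1 ≤ T.K) (c : ℕ → Fin (2 ^ T.a) → ℝ) (s : ℕ) :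
    ∑ ν, T.acc c s ν ^ 2 ≤
      (s + 1) * (T.K : ℝ) ^ (2 * s) * ∑ s' ∈ range (s + 1), ∑ ν, c s' ν ^ 2 := by
  refine (sum_le_sum fun ν _ => Tower.acc_sq_le hK c s ν).trans (le_of_eq ?_)
  rw [← mul_sum, sum_comm]

/-- contents of a representation of cost `A`: Euclidean and `ℓ₁` bounds -/
theorem Tower.cost_nonneg (y : (s : ℕ) → Fin (T.n s) → ℝ) (c : ℕ → Fin (2 ^ T.a) → ℝ) :
    0 ≤ T.cost y c := by
  unfold Tower.cost; positivity

theorem Tower.le_cost (y : (s : ℕ) → Fin (T.n s) → ℝ) (c : ℕ → Fin (2 ^ T.a) → ℝ) {s : ℕ}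
    (hs : s ≤ T.top) :
    ∑ b, y s b ^ 2 + ∑ ν, c s ν ^ 2 + (∑ ν, |c s ν|) ^ 2 / (T.k s : ℝ) ≤ T.cost y c := by
  unfold Tower.cost
  exact single_le_sum (f := fun s => ∑ b, y s b ^ 2 + ∑ ν, c s ν ^ 2 +
    (∑ ν, |c s ν|) ^ 2 / (T.k s : ℝ)) (fun s _ => by positivity) (mem_range.mpr (by omega))

theorem Tower.sum_c_sq_le_cost (y : (s : ℕ) → Fin (T.n s) → ℝ) (c : ℕ → Fin (2 ^ T.a) → ℝ) {s : ℕ}
    (hs : s ≤ T.top) : ∑ s' ∈ range (s + 1), ∑ ν, c s' ν ^ 2 ≤ T.cost y c := by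
  unfold Tower.cost
  calc ∑ s' ∈ range (s + 1), ∑ ν, c s' ν ^ 2 ≤ ∑ s' ∈ range (T.top + 1), ∑ ν, c s' ν ^ 2 :=
        sum_le_sum_of_subset_of_nonneg (range_subset_range.mpr (by omega))
          fun _ _ _ => by positivity
    _ ≤ _ := by
        refine sum_le_sum fun s' _ => ?_
        have h1 : 0 ≤ ∑ b, y s' b ^ 2 := by positivity
        have h2 : 0 ≤ (∑ ν, |c s' ν|) ^ 2 / (T.k s' : ℝ) := by positivity
        linarith

/-- `|b_s|² ≤ (s+1) K^{2s} cost` -/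
theorem Tower.acc_l2_le_cost (hK : 1 ≤ T.K) (y : (s : ℕ) → Fin (T.n s) → ℝ)
    (c : ℕ → Fin (2 ^ T.a) → ℝ) {s : ℕ} (hs : s ≤ T.top) :
    ∑ ν, T.acc c s ν ^ 2 ≤ (s + 1) * (T.K : ℝ) ^ (2 * s) * T.cost y c :=
  (Tower.acc_l2_le hK c s).trans
    (mul_le_mul_of_nonneg_left (Tower.sum_c_sq_le_cost y c hs) (by positivity))

/-- `|b_s|_1² ≤ (s+1)² K^{2s} k_s cost` -/
theorem Tower.OK.acc_l1_sq_le_cost {H ε C₀ : ℝ} {g Γ : ℕ} (hT : T.OK H ε C₀ g Γ) (hg : 1 ≤ g)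
    (hK : 1 ≤ T.K) (y : (s : ℕ) → Fin (T.n s) → ℝ)
    (c : ℕ → Fin (2 ^ T.a) → ℝ) {s : ℕ} (hs : s ≤ T.top) :
    (∑ ν, |T.acc c s ν|) ^ 2 ≤ (s + 1) ^ 2 * (T.K : ℝ) ^ (2 * s) * T.k s * T.cost y c := by
  have h1 := pow_le_pow_left₀ (by positivity) (Tower.acc_l1_le hK c s) 2
  refine h1.trans ?_
  rw [mul_pow, ← pow_mul, mul_comm s 2]
  have h2 := sq_sum_le_card_mul_sum_sq (s := range (s + 1)) (f := fun s' => ∑ ν, |c s' ν|)
  rw [card_range] at h2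
  push_cast at h2
  have h3 : ∑ s' ∈ range (s + 1), (∑ ν, |c s' ν|) ^ 2 ≤ (s + 1) * (T.k s * T.cost y c) := by
    have : ∀ s' ∈ range (s + 1), (∑ ν, |c s' ν|) ^ 2 ≤ T.k s * T.cost y c := by
      intro s' hs'
      rw [mem_range] at hs'
      have h4 := T.le_cost y c (s := s') (by omega)
      have hk' : (0:ℝ) < T.k s' := by exact_mod_cast hT.k_pos s'
      have h5 : (∑ ν, |c s' ν|) ^ 2 / (T.k s' : ℝ) ≤ T.cost y c := by
        have h6 : 0 ≤ ∑ b, y s' b ^ 2 := by positivity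
        have h7 : 0 ≤ ∑ ν, c s' ν ^ 2 := by positivity
        linarith
      rw [div_le_iff₀ hk'] at h5
      refine h5.trans ?_
      rw [mul_comm]
      refine mul_le_mul_of_nonneg_right ?_ (T.cost_nonneg y c)
      exact_mod_cast hT.k_mono hg (by omega : s' ≤ s) hs
    refine (sum_le_sum this).trans (le_of_eq ?_)
    rw [sum_const, card_range, nsmul_eq_mul]
    push_cast
    ring
  calc (T.K : ℝ) ^ (2 * s) * (∑ s' ∈ range (s + 1), ∑ ν, |c s' ν|) ^ 2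
      ≤ (T.K : ℝ) ^ (2 * s) * ((s + 1) * ((s + 1) * (T.k s * T.cost y c))) := by
        refine mul_le_mul_of_nonneg_left (h2.trans ?_) (by positivity)
        exact mul_le_mul_of_nonneg_left h3 (by positivity)
    _ = _ := by ring

/-- level bound: `|lev s x|² ≤ Lc ‖x‖²` with `Lc = 24 (s+1)² K^{2s}` -/
theorem Tower.OK.lev_le {H ε C₀ : ℝ} {g Γ : ℕ} (hT : T.OK H ε C₀ g Γ) (hg : 1 ≤ g)
    (hK : 1 ≤ T.K) (hε : 0 ≤ ε) (hε1 : ε ≤ 1) {E : Type} [NormedAddCommGroup E] [NormedSpace ℝ E]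
    (X : TowerSpace T E) (x : E) {s : ℕ} (hs : s ≤ T.top) :
    ∑ b, X.lev s x b ^ 2 ≤ 24 * ((s : ℝ) + 1) ^ 2 * (T.K : ℝ) ^ (2 * s) * ‖x‖ ^ 2 := by
  have key : ∀ δ : ℝ, 0 < δ → ∑ b, X.lev s x b ^ 2 ≤
      24 * ((s : ℝ) + 1) ^ 2 * (T.K : ℝ) ^ (2 * s) * (‖x‖ ^ 2 + δ) := by
    intro δ hδ
    obtain ⟨y, c, hr, hc⟩ := X.rep x δ hδ
    have hcost := T.cost_nonneg y c
    have h1 : ∑ b, X.lev s x b ^ 2 ≤ 2 * ∑ b, y s b ^ 2 +
        2 * ∑ b, (∑ ν, T.G s b ν * T.acc c s ν) ^ 2 := by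
      rw [mul_sum, mul_sum, ← sum_add_distrib]
      refine sum_le_sum fun b _ => ?_
      rw [hr s hs b]
      unfold Tower.ev
      nlinarith [sq_nonneg (y s b - ∑ ν, T.G s b ν * T.acc c s ν)]
    have h2 := hT.sq_le hε hs (T.acc c s)
    have h3 := T.acc_l2_le_cost hK y c hs
    have h4 := hT.acc_l1_sq_le_cost hg hK y c hs
    have h5 : ∑ b, y s b ^ 2 ≤ T.cost y c := by
      have := T.le_cost y c hs
      have h6 : 0 ≤ ∑ ν, c s ν ^ 2 := by positivity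
      have h7 : 0 ≤ (∑ ν, |c s ν|) ^ 2 / (T.k s : ℝ) := by positivity
      linarith
    have hk1 : (1:ℝ) ≤ T.k s := by exact_mod_cast hT.k_pos s
    have heta : T.eta s * T.k s ≤ 8 := by
      have := hT.eta_mul_le s 1 (by norm_num)
      rw [pow_one] at this
      refine this.trans ?_
      rw [div_le_iff₀ (by linarith)]
      linarith
    have hK1 : (1:ℝ) ≤ (T.K : ℝ) ^ (2 * s) := one_le_pow₀ (by exact_mod_cast hK)
    have hs1 : (1:ℝ) ≤ (s : ℝ) + 1 := by have : (0:ℝ) ≤ s := Nat.cast_nonneg _; linarith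
    set Q := (T.K : ℝ) ^ (2 * s) with hQ
    have h8 : T.eta s * (∑ ν, |T.acc c s ν|) ^ 2 ≤ 8 * ((s + 1) ^ 2 * Q * T.cost y c) := by
      calc T.eta s * (∑ ν, |T.acc c s ν|) ^ 2
          ≤ T.eta s * ((s + 1) ^ 2 * Q * T.k s * T.cost y c) :=
            mul_le_mul_of_nonneg_left h4 (T.eta_nonneg s)
        _ = (T.eta s * T.k s) * ((s + 1) ^ 2 * Q * T.cost y c) := by ring
        _ ≤ _ := mul_le_mul_of_nonneg_right heta (by positivity)
    have h9 : (1 + ε) * ∑ ν, T.acc c s ν ^ 2 ≤ 2 * ((s + 1) ^ 2 * Q * T.cost y c) := by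
      have h10 : ∑ ν, T.acc c s ν ^ 2 ≤ (s + 1) ^ 2 * Q * T.cost y c := by
        refine h3.trans ?_
        refine mul_le_mul_of_nonneg_right (mul_le_mul_of_nonneg_right ?_ (by positivity)) hcost
        nlinarith
      have h11 : 0 ≤ ∑ ν, T.acc c s ν ^ 2 := by positivity
      nlinarith
    have h12 : T.cost y c ≤ (s + 1) ^ 2 * Q * T.cost y c := by
      have : (1:ℝ) ≤ (s + 1) ^ 2 * Q := by
        have : (1:ℝ) ≤ ((s : ℝ) + 1) ^ 2 := one_le_pow₀ hs1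
        nlinarith
      nlinarith
    have h13 : ∑ b, X.lev s x b ^ 2 ≤ 24 * ((s + 1) ^ 2 * Q * T.cost y c) := by linarith
    refine h13.trans ?_
    have h14 : ((s : ℝ) + 1) ^ 2 * Q * T.cost y c ≤ (s + 1) ^ 2 * Q * (‖x‖ ^ 2 + δ) :=
      mul_le_mul_of_nonneg_left hc (by positivity)
    linarith
  refine le_of_forall_pos_le_add fun δ hδ => ?_
  set A := 24 * ((s : ℝ) + 1) ^ 2 * (T.K : ℝ) ^ (2 * s) with hA
  have hA0 : 0 ≤ A := by positivity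
  have h := key (δ / (A + 1)) (by positivity)
  refine h.trans ?_
  have : A * (δ / (A + 1)) ≤ δ := by
    rw [← mul_div_assoc, div_le_iff₀ (by positivity)]
    nlinarith
  linarith

/-! ## sparse vectors -/

/-- `|v|_1² ≤ q |v|²` -/
theorem SG.l1_sq_le {a q : ℕ} {H : ℝ} {N : ℕ} {v : Fin N → ℝ} (h : SG a q H v) :
    (∑ ν, |v ν|) ^ 2 ≤ q * ∑ ν, v ν ^ 2 := by
  have h1 : ∑ ν, |v ν| = ∑ ν ∈ univ.filter (fun ν => v ν ≠ 0), |v ν| := by
    refine (sum_subset (filter_subset _ _) fun ν _ hν => ?_).symm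
    simp only [mem_filter, mem_univ, true_and, not_not] at hν
    simp [hν]
  have h2 : ∑ ν ∈ univ.filter (fun ν => v ν ≠ 0), |v ν| ^ 2 ≤ ∑ ν, v ν ^ 2 := by
    simp only [sq_abs]
    exact sum_le_sum_of_subset_of_nonneg (filter_subset _ _) fun _ _ _ => sq_nonneg _
  rw [h1]
  refine (sq_sum_le_card_mul_sum_sq (s := univ.filter (fun ν => v ν ≠ 0))
    (f := fun ν => |v ν|)).trans ?_
  have h3 : ((univ.filter (fun ν => v ν ≠ 0)).card : ℝ) ≤ q := by exact_mod_cast h.2.1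
  have h4 : 0 ≤ ∑ ν, v ν ^ 2 := by positivity
  calc ((univ.filter (fun ν => v ν ≠ 0)).card : ℝ) * ∑ ν ∈ univ.filter (fun ν => v ν ≠ 0), |v ν| ^ 2
      ≤ ((univ.filter (fun ν => v ν ≠ 0)).card : ℝ) * ∑ ν, v ν ^ 2 :=
        mul_le_mul_of_nonneg_left h2 (Nat.cast_nonneg _)
    _ ≤ _ := mul_le_mul_of_nonneg_right h3 h4

theorem SG.mono {a q q' : ℕ} {H H' : ℝ} {N : ℕ} {v : Fin N → ℝ} (h : SG a q H v) (hq : q ≤ q')
    (hH : 0 ≤ H) (hH' : H ≤ H') : SG a q' H' v :=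
  ⟨h.1, h.2.1.trans hq, h.2.2.trans (pow_le_pow_left₀ hH hH' 2)⟩

/-- restriction to a set of rows -/
theorem SG.restrict {a q : ℕ} {H : ℝ} {N : ℕ} {v : Fin N → ℝ} (h : SG a q H v)
    (R : Finset (Fin N)) : SG a q H (fun ν => if ν ∈ R then v ν else 0) := by
  refine ⟨fun ν => ?_, le_trans (card_le_card ?_) h.2.1, le_trans (sum_le_sum fun ν _ => ?_) h.2.2⟩
  · by_cases hν : ν ∈ R
    · simpa [hν] using h.1 ν
    · exact ⟨0, by simp [hν]⟩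
  · intro ν
    simp only [mem_filter, mem_univ, true_and]
    by_cases hν : ν ∈ R <;> simp [hν]
  · by_cases hν : ν ∈ R
    · simp [hν]
    · simp only [hν, if_false]
      nlinarith [sq_nonneg (v ν)]

/-- accumulated sparse contents are sparse -/
theorem Tower.OK.acc_SG {H ε C₀ : ℝ} {g Γ : ℕ} (hT : T.OK H ε C₀ g Γ) (hg : 1 ≤ g)
    (hK : 1 ≤ T.K) {B : ℝ} (c : ℕ → Fin (2 ^ T.a) → ℝ)
    (hc : ∀ s, SG T.a (T.k s ^ 2) B (c s)) {s i : ℕ} (hs : s ≤ i) (hi : i ≤ T.top)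
    (hΓ : T.top + 1 ≤ T.a) :
    SG T.a (T.k i ^ 3) (((s : ℝ) + 1) * (T.K : ℝ) ^ s * |B|) (T.acc c s) := by
  have hK1 : (1:ℝ) ≤ T.K := by exact_mod_cast hK
  refine ⟨fun ν => ?_, ?_, ?_⟩
  · unfold Tower.acc
    choose z hz using fun s' => (hc s').1 ν
    refine ⟨∑ s' ∈ range (s + 1), (T.K : ℤ) ^ (s - s') * z s', ?_⟩
    rw [sum_mul]
    push_cast
    exact sum_congr rfl fun s' _ => by rw [mul_assoc, hz s']
  · have h1 : univ.filter (fun ν => T.acc c s ν ≠ 0) ⊆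
        (range (s + 1)).biUnion fun s' => univ.filter (fun ν => c s' ν ≠ 0) := by
      intro ν
      simp only [mem_filter, mem_univ, true_and, mem_biUnion]
      intro h
      by_contra hcon
      push Not at hcon
      apply h
      unfold Tower.acc
      exact sum_eq_zero fun s' hs' => by rw [hcon s' hs', mul_zero]
    refine (card_le_card h1).trans (card_biUnion_le.trans ?_)
    have h2 : ∀ s' ∈ range (s + 1), (univ.filter (fun ν => c s' ν ≠ 0)).card ≤ T.k i ^ 2 := by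
      intro s' hs'
      rw [mem_range] at hs'
      refine (hc s').2.1.trans (Nat.pow_le_pow_left (hT.k_mono hg (by omega) hi) 2)
    refine (sum_le_sum h2).trans ?_
    rw [sum_const, card_range, smul_eq_mul, pow_succ (T.k i) 2, mul_comm]
    refine Nat.mul_le_mul_left _ ?_
    have := hT.k_ge i
    omega
  · have h1 := T.acc_l2_le hK c s
    have h2 : ∑ s' ∈ range (s + 1), ∑ ν, c s' ν ^ 2 ≤ (s + 1) * B ^ 2 := by
      refine (sum_le_sum fun s' _ => (hc s').2.2).trans (le_of_eq ?_)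
      rw [sum_const, card_range, nsmul_eq_mul]
      push_cast
      ring
    refine h1.trans ?_
    rw [mul_pow, mul_pow, sq_abs, ← pow_mul, mul_comm s 2]
    calc ((s : ℝ) + 1) * (T.K : ℝ) ^ (2 * s) * ∑ s' ∈ range (s + 1), ∑ ν, c s' ν ^ 2
        ≤ ((s : ℝ) + 1) * (T.K : ℝ) ^ (2 * s) * ((s + 1) * B ^ 2) :=
          mul_le_mul_of_nonneg_left h2 (by positivity)
      _ = _ := by ring

end Run7.h35.NEG
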