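import Pool.Agent.Run7.h35.NEG.Iface3
import Pool.Agent.Run7.h35.NEG.Lib3

set_option autoImplicit false

namespace Run7.h35.NEG

open Finset Module

/-- sparse representations of tuples -/
theorem sparse_tuple (hS : S_SPARSE) (K top : ℕ) (H δ : ℝ) (hH : 1 ≤ H) (hδ : 0 < δ) :
    ∃ Γ : ℕ, ∀ (H₂ ε C₀ : ℝ) (g : ℕ) (T : Tower), 4 ≤ g → 0 ≤ ε → ε ≤ 1 →
      T.K = K → T.top = top → T.OK H₂ ε C₀ g Γ →
      ∀ (E : Type) [NormedAddCommGroup E] [NormedSpace ℝ E] (X : TowerSpace T E) (r : ℕ)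
        (w : Fin r → E), (∀ t, ‖w t‖ ≤ H) →
        ∃ (y : (s : ℕ) → Fin (T.n s) → Fin r → ℝ) (c : ℕ → Fin (2 ^ T.a) → Fin r → ℝ),
          X.Rep w y c ∧ T.Sparse c (2 * H) ∧
          ∀ t, T.cost (fun s b => y s b t) (fun s ν => c s ν t) ≤ 2 * ‖w t‖ ^ 2 + δ := by
  obtain ⟨Γ, hΓ⟩ := hS K top H δ hH hδ
  refine ⟨Γ, fun H₂ ε C₀ g T hg hε hε1 hK htop hT E _ _ X r w hw => ?_⟩
  have h := fun t => hΓ H₂ ε C₀ g T hg hε hε1 hK htop hT E X (w t) (hw t)
  choose y c h1 h2 h3 using h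
  refine ⟨fun s b t => y t s b, fun s ν t => c t s ν, ?_, ?_, ?_⟩
  · intro s hs b t
    exact h1 t s hs b
  · intro s t
    exact h2 t s
  · intro t
    exact h3 t

/-- column sums of a tuple of representations -/
theorem col_sums {T : Tower} {H ε C₀ : ℝ} {g Γ : ℕ} (hT : T.OK H ε C₀ g Γ) (hg : 1 ≤ g)
    (hK : 1 ≤ T.K) {r : ℕ} (y : (s : ℕ) → Fin (T.n s) → Fin r → ℝ)
    (c : ℕ → Fin (2 ^ T.a) → Fin r → ℝ) {A : ℝ}
    (h : ∑ j, T.cost (fun s b => y s b j) (fun s ν => c s ν j) ≤ A) {s : ℕ} (hst : s ≤ T.top) :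
    hs (y s) + hs (c s) ≤ A ∧ ∑ j, (∑ ν, |c s ν j|) ^ 2 ≤ T.k s * A ∧
      hs (T.accJ c s) ≤ (s + 1) * (T.K : ℝ) ^ (2 * s) * A ∧
      ∑ j, (∑ ν, |T.accJ c s ν j|) ^ 2 ≤ (s + 1) ^ 2 * (T.K : ℝ) ^ (2 * s) * T.k s * A := by
  have hk : (0 : ℝ) < T.k s := by exact_mod_cast hT.k_pos s
  have e1 : hs (y s) = ∑ j, ∑ b, y s b j ^ 2 := by unfold hs; rw [sum_comm]
  have e2 : hs (c s) = ∑ j, ∑ ν, c s ν j ^ 2 := by unfold hs; rw [sum_comm]
  have e3 : hs (T.accJ c s) = ∑ j, ∑ ν, T.accJ c s ν j ^ 2 := by unfold hs; rw [sum_comm]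
  refine ⟨?_, ?_, ?_, ?_⟩
  · rw [e1, e2, ← sum_add_distrib]
    refine (sum_le_sum fun j _ => ?_).trans h
    have h1 := T.le_cost (fun s b => y s b j) (fun s ν => c s ν j) hst
    have h2 : 0 ≤ (∑ ν, |c s ν j|) ^ 2 / (T.k s : ℝ) := by positivity
    linarith
  · have h1 : ∑ j, (∑ ν, |c s ν j|) ^ 2 ≤
        ∑ j, T.k s * T.cost (fun s b => y s b j) (fun s ν => c s ν j) := by
      refine sum_le_sum fun j _ => ?_
      have h1 := T.le_cost (fun s b => y s b j) (fun s ν => c s ν j) hst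
      have h2 : 0 ≤ ∑ b, y s b j ^ 2 := by positivity
      have h3 : 0 ≤ ∑ ν, c s ν j ^ 2 := by positivity
      have h4 : (∑ ν, |c s ν j|) ^ 2 / (T.k s : ℝ) ≤
          T.cost (fun s b => y s b j) (fun s ν => c s ν j) := by linarith
      rw [div_le_iff₀ hk] at h4
      linarith
    refine h1.trans ?_
    rw [← mul_sum]
    exact mul_le_mul_of_nonneg_left h hk.le
  · rw [e3]
    have h1 : ∑ j, ∑ ν, T.accJ c s ν j ^ 2 ≤
        ∑ j, (s + 1) * (T.K : ℝ) ^ (2 * s) * T.cost (fun s b => y s b j) (fun s ν => c s ν j) :=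
      sum_le_sum fun j _ => T.acc_l2_le_cost hK _ _ hst
    refine h1.trans ?_
    rw [← mul_sum]
    exact mul_le_mul_of_nonneg_left h (by positivity)
  · have h1 : ∑ j, (∑ ν, |T.accJ c s ν j|) ^ 2 ≤
        ∑ j, (s + 1) ^ 2 * (T.K : ℝ) ^ (2 * s) * T.k s *
          T.cost (fun s b => y s b j) (fun s ν => c s ν j) :=
      sum_le_sum fun j _ => hT.acc_l1_sq_le_cost hg hK _ _ hst
    refine h1.trans ?_
    rw [← mul_sum]
    exact mul_le_mul_of_nonneg_left h (by positivity)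

/-- discrete intermediate value -/
theorem middle (f : ℕ → ℝ) (n : ℕ) (h0 : f 0 ≤ 1 / 8) (hn : 7 / 8 ≤ f n)
    (hstep : ∀ j < n, |f (j + 1) - f j| ≤ 1 / 8) : ∃ j ≤ n, 1 / 4 ≤ f j ∧ f j ≤ 1 / 2 := by
  have hex : ∃ j, 1 / 4 ≤ f j := ⟨n, by linarith⟩
  classical
  set j := Nat.find hex with hj
  have h1 : 1 / 4 ≤ f j := Nat.find_spec hex
  have hjn : j ≤ n := Nat.find_min' hex (by linarith)
  have hj0 : j ≠ 0 := by
    intro h
    rw [h] at h1
    linarith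
  obtain ⟨j', hj'⟩ := Nat.exists_eq_succ_of_ne_zero hj0
  have h2 : f j' < 1 / 4 := by
    have := Nat.find_min hex (m := j') (by omega)
    linarith [not_le.mp this]
  have h3 := hstep j' (by omega)
  rw [hj'] at h1
  have h4 := (abs_le.mp h3).2
  refine ⟨j' + 1, by omega, h1, ?_⟩
  linarith

/-- the algebra of the Gram matrix -/
theorem gram_alg {a q b lam α β E t : ℝ} (hαβ : α ^ 2 + β ^ 2 = 1) (ha : 0 ≤ a)
    (hG : 0 ≤ b - 2 * lam * q + lam ^ 2 * a)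
    (hF : α ^ 2 * a + 2 * α * β * q + β ^ 2 * b ≤ E) (hlam : |lam| ≤ 1 / 2)
    (hd : |q - lam * a| ≤ t) (hbig : 25 * (E + 3 * t) < a) :
    b - 2 * lam * q + lam ^ 2 * a ≤ 3 * (E + 3 * t) := by
  set G := b - 2 * lam * q + lam ^ 2 * a with hGdef
  set γ := α + β * lam with hγ
  set d := q - lam * a with hddef
  have hlam' := abs_le.mp hlam
  have hα1 : |α| ≤ 1 := by rw [← sq_le_one_iff_abs_le_one]; nlinarith [sq_nonneg β]
  have hβ1 : |β| ≤ 1 := by rw [← sq_le_one_iff_abs_le_one]; nlinarith [sq_nonneg α]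
  have hγ1 : |γ| ≤ 3 / 2 := by
    have h1 : |β * lam| ≤ 1 * (1 / 2) := by
      rw [abs_mul]
      exact mul_le_mul hβ1 hlam (abs_nonneg _) zero_le_one
    have := abs_add_le α (β * lam)
    linarith
  have hF2 : γ ^ 2 * a + 2 * γ * β * d + β ^ 2 * G ≤ E := by
    have : γ ^ 2 * a + 2 * γ * β * d + β ^ 2 * G = α ^ 2 * a + 2 * α * β * q + β ^ 2 * b := by
      rw [hGdef, hγ, hddef]; ring
    linarith
  have ht : 0 ≤ t := (abs_nonneg _).trans hd
  have h1 : |2 * γ * β * d| ≤ 3 * t := by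
    rw [abs_mul, abs_mul, abs_mul, abs_two]
    have h2 : |γ| * |β| ≤ 3 / 2 * 1 := mul_le_mul hγ1 hβ1 (abs_nonneg _) (by norm_num)
    have h3 : |γ| * |β| * |d| ≤ 3 / 2 * 1 * t := mul_le_mul h2 hd (abs_nonneg _) (by norm_num)
    nlinarith
  have h1' := (abs_le.mp h1).1
  have hβG : 0 ≤ β ^ 2 * G := by positivity
  have hγa : 0 ≤ γ ^ 2 * a := by positivity
  have h4 : γ ^ 2 * a ≤ E + 3 * t := by linarith
  have h5 : β ^ 2 * G ≤ E + 3 * t := by linarith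
  have ha' : 0 < a := lt_of_le_of_lt (by nlinarith) hbig
  have h6 : γ ^ 2 < 1 / 25 := by
    by_contra hcon
    push Not at hcon
    nlinarith
  have h7 : |γ| < 1 / 5 := by
    rw [← sq_lt_sq₀ (abs_nonneg _) (by norm_num), sq_abs]
    nlinarith
  -- |β| ≥ 3/5
  have h8 : 9 / 25 ≤ β ^ 2 := by
    by_contra hcon
    push Not at hcon
    have h9 : |β| < 3 / 5 := by
      rw [← sq_lt_sq₀ (abs_nonneg _) (by norm_num), sq_abs]
      nlinarith
    have h10 : |α| ≤ |γ| + |β * lam| := by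
      have : α = γ - β * lam := by rw [hγ]; ring
      rw [this]
      exact abs_sub _ _
    have h11 : |β * lam| ≤ 3 / 5 * (1 / 2) := by
      rw [abs_mul]
      exact mul_le_mul h9.le hlam (abs_nonneg _) (by norm_num)
    have h12 : |α| ≤ 1 / 2 := by linarith
    have h13 : α ^ 2 ≤ 1 / 4 := by
      rw [← sq_abs]
      nlinarith [abs_nonneg α]
    linarith
  nlinarith

/-- sums with at most one nonzero term -/
theorem disj_sum_sq {J : Type} [Fintype J] (f : J → ℝ) (h : ∀ j j', j ≠ j' → f j = 0 ∨ f j' = 0) :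
    (∑ j, f j) ^ 2 = ∑ j, f j ^ 2 := by
  classical
  by_cases hf : ∃ j, f j ≠ 0
  · obtain ⟨j, hj⟩ := hf
    have h1 : ∀ j' ∈ (univ : Finset J), j' ≠ j → f j' = 0 := by
      intro j' _ hne
      rcases h j' j hne with h2 | h2
      · exact h2
      · exact absurd h2 hj
    rw [sum_eq_single j h1 (by simp), sum_eq_single j (fun j' hj' hne => by
      rw [h1 j' hj' hne]; ring) (by simp)]
  · push Not at hf
    simp [hf]

/-- the rank-one estimate -/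
theorem step_bound {T : Tower} {H₂ ε C₀ : ℝ} {g Γ : ℕ} (hT : T.OK H₂ ε C₀ g Γ) (hg : 4 ≤ g)
    (hε : 0 ≤ ε) (hε1 : ε ≤ 1) {i : ℕ} (hi : i < T.top) {r : ℕ} (hr : r ^ 4 ≤ T.k (i + 1))
    {H : ℝ} (hH : 0 ≤ H) (u : Fin (2 ^ T.a) → Fin r → ℝ)
    (hu : ∀ t, SG T.a (T.k i ^ 3) H (fun ν => u ν t))
    (hdis : ∀ t t', t ≠ t' → ∀ ν, u ν t = 0 ∨ u ν t' = 0)
    (e : Fin (T.n (i + 1)) → ℝ) (φ : Fin r → ℝ) :
    |∑ j, ∑ b, φ j * e b * T.GM (i + 1) u b j| ≤
      Real.sqrt (∑ j, ∑ b, (φ j * e b) ^ 2) * (4 * H) := by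
  set w : Fin (2 ^ T.a) → ℝ := fun ν => ∑ j, φ j * u ν j with hw
  have h1 : ∑ j, ∑ b, φ j * e b * T.GM (i + 1) u b j = ∑ b, e b * ∑ ν, T.G (i + 1) b ν * w ν := by
    rw [sum_comm]
    refine sum_congr rfl fun b _ => ?_
    rw [hw]
    simp only [Tower.GM, mul_sum]
    rw [sum_comm]
    exact sum_congr rfl fun ν _ => sum_congr rfl fun j _ => by ring
  have h2 : |∑ b, e b * ∑ ν, T.G (i + 1) b ν * w ν| ≤
      Real.sqrt (∑ b, e b ^ 2) * Real.sqrt (∑ b, (∑ ν, T.G (i + 1) b ν * w ν) ^ 2) := by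
    have h := Real.sum_mul_le_sqrt_mul_sqrt univ (fun b => |e b|)
      (fun b => |∑ ν, T.G (i + 1) b ν * w ν|)
    refine (abs_sum_le_sum_abs _ _).trans ?_
    simp only [abs_mul]
    simpa [sq_abs] using h
  have h3 : ∑ ν, w ν ^ 2 ≤ H ^ 2 * ∑ j, φ j ^ 2 := by
    have : ∀ ν, w ν ^ 2 = ∑ j, φ j ^ 2 * u ν j ^ 2 := by
      intro ν
      rw [hw]
      simp only
      rw [disj_sum_sq]
      · exact sum_congr rfl fun j _ => by ring
      · intro j j' hne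
        rcases hdis j j' hne ν with h | h
        · left; rw [h, mul_zero]
        · right; rw [h, mul_zero]
    simp only [this]
    rw [sum_comm, mul_sum]
    refine sum_le_sum fun j _ => ?_
    rw [← mul_sum, mul_comm]
    exact mul_le_mul_of_nonneg_right (hu j).2.2 (sq_nonneg _)
  have h4 : (∑ ν, |w ν|) ^ 2 ≤ (r * T.k i ^ 3 * H ^ 2) * ∑ j, φ j ^ 2 := by
    have h5 : ∑ ν, |w ν| ≤ ∑ j, |φ j| * ∑ ν, |u ν j| := by
      calc ∑ ν, |w ν| ≤ ∑ ν, ∑ j, |φ j| * |u ν j| := by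
            refine sum_le_sum fun ν _ => (abs_sum_le_sum_abs _ _).trans ?_
            exact sum_le_sum fun j _ => by rw [abs_mul]
        _ = _ := by
            rw [sum_comm]
            exact sum_congr rfl fun j _ => by rw [mul_sum]
    have h6 := pow_le_pow_left₀ (by positivity) h5 2
    refine h6.trans ((sum_mul_sq_le_sq_mul_sq univ (fun j => |φ j|)
      (fun j => ∑ ν, |u ν j|)).trans ?_)
    simp only [sq_abs]
    rw [mul_comm]
    refine mul_le_mul_of_nonneg_right ?_ (by positivity)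
    have h7 : ∀ j ∈ (univ : Finset (Fin r)), (∑ ν, |u ν j|) ^ 2 ≤ T.k i ^ 3 * H ^ 2 := by
      intro j _
      refine (hu j).l1_sq_le.trans ?_
      push_cast
      exact mul_le_mul_of_nonneg_left (hu j).2.2 (by positivity)
    refine (sum_le_sum h7).trans (le_of_eq ?_)
    rw [sum_const, card_univ, Fintype.card_fin, nsmul_eq_mul]
    ring
  have hk1 : (1:ℝ) ≤ T.k (i + 1) := by exact_mod_cast hT.k_pos (i + 1)
  have hrk : (r : ℝ) ≤ T.k (i + 1) := by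
    have : r ≤ T.k (i + 1) := (Nat.le_self_pow (by norm_num) r).trans hr
    exact_mod_cast this
  have hkk : (T.k i : ℝ) ^ 3 ≤ T.k (i + 1) := by
    have h1 : T.k i ^ 3 ≤ T.n i := by
      rw [hT.n_eq i hi]
      exact Nat.pow_le_pow_right (hT.k_pos i) (by norm_num)
    exact_mod_cast h1.trans (hT.n_le_k_succ (by omega) hi)
  have h8 : T.eta (i + 1) * (r * T.k i ^ 3) ≤ 8 := by
    have h9 := hT.eta_mul_le (i + 1) 2 (by norm_num)
    have h10 : (r : ℝ) * T.k i ^ 3 ≤ (T.k (i + 1) : ℝ) ^ 2 := by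
      rw [pow_two]
      exact mul_le_mul hrk hkk (by positivity) (by linarith)
    calc T.eta (i + 1) * (r * T.k i ^ 3) ≤ T.eta (i + 1) * (T.k (i + 1) : ℝ) ^ 2 :=
          mul_le_mul_of_nonneg_left h10 (T.eta_nonneg _)
      _ ≤ 8 / T.k (i + 1) := h9
      _ ≤ 8 := div_le_self (by norm_num) hk1
  have hφ : 0 ≤ ∑ j, φ j ^ 2 := by positivity
  have h11 : ∑ b, (∑ ν, T.G (i + 1) b ν * w ν) ^ 2 ≤ (4 * H) ^ 2 * ∑ j, φ j ^ 2 := by
    have h12 := hT.sq_le hε (by omega : i + 1 ≤ T.top) w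
    have h13 : T.eta (i + 1) * (∑ ν, |w ν|) ^ 2 ≤ 8 * H ^ 2 * ∑ j, φ j ^ 2 := by
      calc T.eta (i + 1) * (∑ ν, |w ν|) ^ 2
          ≤ T.eta (i + 1) * ((r * T.k i ^ 3 * H ^ 2) * ∑ j, φ j ^ 2) :=
            mul_le_mul_of_nonneg_left h4 (T.eta_nonneg _)
        _ = (T.eta (i + 1) * (r * T.k i ^ 3)) * (H ^ 2 * ∑ j, φ j ^ 2) := by ring
        _ ≤ 8 * (H ^ 2 * ∑ j, φ j ^ 2) := mul_le_mul_of_nonneg_right h8 (by positivity)
        _ = _ := by ring
    have h14 : (1 + ε) * ∑ ν, w ν ^ 2 ≤ 2 * (H ^ 2 * ∑ j, φ j ^ 2) := by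
      have h15 : 0 ≤ ∑ ν, w ν ^ 2 := by positivity
      nlinarith
    nlinarith
  rw [h1]
  refine h2.trans ?_
  have h16 : Real.sqrt (∑ b, (∑ ν, T.G (i + 1) b ν * w ν) ^ 2) ≤
      4 * H * Real.sqrt (∑ j, φ j ^ 2) := by
    refine Real.sqrt_le_iff.mpr ⟨by positivity, ?_⟩
    rw [mul_pow, Real.sq_sqrt hφ]
    exact h11
  have h17 : Real.sqrt (∑ j, ∑ b, (φ j * e b) ^ 2) =
      Real.sqrt (∑ j, φ j ^ 2) * Real.sqrt (∑ b, e b ^ 2) := by
    rw [← Real.sqrt_mul hφ]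
    congr 1
    rw [sum_mul_sum]
    exact sum_congr rfl fun j _ => sum_congr rfl fun b _ => by ring
  rw [h17]
  calc Real.sqrt (∑ b, e b ^ 2) * Real.sqrt (∑ b, (∑ ν, T.G (i + 1) b ν * w ν) ^ 2)
      ≤ Real.sqrt (∑ b, e b ^ 2) * (4 * H * Real.sqrt (∑ j, φ j ^ 2)) :=
        mul_le_mul_of_nonneg_left h16 (Real.sqrt_nonneg _)
    _ = _ := by ring

/-- dimension of a common kernel -/
theorem finrank_ker_ge {r : ℕ} {κ : Type} [Fintype κ] (ℓ : κ → (Fin r → ℝ) →ₗ[ℝ] ℝ) :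
    (r : ℝ) - finrank ℝ (LinearMap.ker (LinearMap.pi ℓ)) ≤ Fintype.card κ := by
  have h1 := (LinearMap.pi ℓ).finrank_range_add_finrank_ker
  have h2 : finrank ℝ (LinearMap.range (LinearMap.pi ℓ)) ≤ Fintype.card κ := by
    have := Submodule.finrank_le (LinearMap.range (LinearMap.pi ℓ))
    simpa using this
  rw [finrank_fintype_fun_eq_card, Fintype.card_fin] at h1
  have h3 : r ≤ Fintype.card κ + finrank ℝ (LinearMap.ker (LinearMap.pi ℓ)) := by omega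
  have h4 : (r : ℝ) ≤ Fintype.card κ + finrank ℝ (LinearMap.ker (LinearMap.pi ℓ)) := by
    exact_mod_cast h3
  linarith

/-- the lower levels are negligible -/
theorem sum_n_le {T : Tower} {H₂ ε C₀ : ℝ} {g Γ : ℕ} (hT : T.OK H₂ ε C₀ g Γ) (hg : 1 ≤ g)
    (hΓ : 4 ≤ T.a) (hΓ' : T.top ≤ T.a) {i : ℕ} (hi : i < T.top) :
    2 * ∑ s ∈ range i, T.n s + 2 * T.k i ≤ T.n i := by
  have h1 : ∑ s ∈ range i, T.n s ≤ i * T.k i := by
    calc ∑ s ∈ range i, T.n s ≤ ∑ s ∈ range i, T.k i := by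
          refine sum_le_sum fun s hs => ?_
          rw [mem_range] at hs
          exact (hT.n_le_k_succ hg (by omega)).trans (hT.k_mono hg (by omega) (by omega))
      _ = _ := by rw [sum_const, card_range, smul_eq_mul]
  have hka := hT.k_ge i
  have h2 : i ≤ T.k i := by omega
  rw [hT.n_eq i hi]
  have h3 : i * T.k i ≤ T.k i * T.k i := Nat.mul_le_mul_right _ h2
  have h4 : T.k i ^ 4 ≤ T.k i ^ 30 := Nat.pow_le_pow_right (hT.k_pos i) (by norm_num)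
  have h5 : 4 * (T.k i * T.k i) ≤ T.k i ^ 4 := by
    have : T.k i ^ 4 = T.k i * T.k i * (T.k i * T.k i) := by ring
    rw [this]
    refine Nat.mul_le_mul_right _ ?_
    nlinarith
  have h6 : T.k i ≤ T.k i * T.k i := Nat.le_mul_self _
  omega

/-- few rows are frequent -/
theorem card_freq_le {N r q ρ a : ℕ} {H H' : ℝ} (u v : Fin N → Fin r → ℝ)
    (hu : ∀ t, SG a q H (fun ν => u ν t)) (hv : ∀ t, SG a q H' (fun ν => v ν t)) :
    (univ.filter (fun ν => ¬ occ2 u v ν ≤ ρ)).card * ρ ≤ 2 * q * r := by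
  classical
  have h1 : (univ.filter (fun ν => ¬ occ2 u v ν ≤ ρ)).card * ρ ≤
      ∑ ν ∈ univ.filter (fun ν => ¬ occ2 u v ν ≤ ρ), occ2 u v ν := by
    rw [← smul_eq_mul]
    refine card_nsmul_le_sum _ _ _ fun ν hν => ?_
    simp only [mem_filter, mem_univ, true_and] at hν
    omega
  have h2 : ∑ ν ∈ univ.filter (fun ν => ¬ occ2 u v ν ≤ ρ), occ2 u v ν ≤ ∑ ν, occ2 u v ν :=
    sum_le_sum_of_subset (filter_subset _ _)
  have h3 : ∑ ν, occ2 u v ν ≤ ∑ t, ((univ.filter (fun ν => u ν t ≠ 0)).card +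
      (univ.filter (fun ν => v ν t ≠ 0)).card) := by
    have h4 : ∀ ν, occ2 u v ν ≤ ∑ t, ((if u ν t ≠ 0 then 1 else 0) + if v ν t ≠ 0 then 1 else 0) := by
      intro ν
      unfold occ2
      rw [card_filter]
      refine sum_le_sum fun t _ => ?_
      by_cases h5 : u ν t ≠ 0 <;> by_cases h6 : v ν t ≠ 0 <;> simp [h5, h6]
    refine (sum_le_sum fun ν _ => h4 ν).trans (le_of_eq ?_)
    rw [sum_comm]
    refine sum_congr rfl fun t _ => ?_
    rw [sum_add_distrib, card_filter, card_filter]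
  have h5 : ∑ t, ((univ.filter (fun ν => u ν t ≠ 0)).card +
      (univ.filter (fun ν => v ν t ≠ 0)).card) ≤ ∑ t : Fin r, (q + q) :=
    sum_le_sum fun t _ => add_le_add (hu t).2.1 (hv t).2.1
  rw [sum_const, card_univ, Fintype.card_fin, smul_eq_mul] at h5
  have h6 : r * (q + q) = 2 * q * r := by ring
  omega

end Run7.h35.NEG
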