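import Pool.Agent.Run7.h35.NEG.Boot2
import Pool.Agent.Run7.h35.NEG.Core1

set_option autoImplicit false

namespace Run7.h35.NEG

open Finset Module

theorem usq_nonneg (T : Tower) {J : ℕ} (c : ℕ → Fin (2 ^ T.a) → Fin J → ℝ) (Lo : ℕ → ℕ) (i : ℕ) :
    0 ≤ usq T c Lo i := by
  unfold usq; positivity

theorem usq_top (T : Tower) {J : ℕ} (c : ℕ → Fin (2 ^ T.a) → Fin J → ℝ) (Lo : ℕ → ℕ) :
    usq T c Lo T.top = 0 := by
  unfold usq Sf
  simp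

/-- the bootstrap inequality, abstractly -/
theorem boot_alg {Θ K US cU : ℝ} (hΘ : 1 ≤ Θ) (hK : 2 * (800 * Θ + 2) ≤ K ^ 2)
    (hUS : 0 ≤ US) (h1 : US ≤ cU + 1 + 2 / K ^ 2 * (US + 3))
    (h2 : cU ≤ Θ * (4 * (200 * K ^ 2 + 200 / K ^ 2 * US)) + 2) :
    US ≤ 1600 * Θ * K ^ 2 + 18 := by
  have hK2 : 0 < K ^ 2 := by nlinarith
  have h3 : US ≤ 800 * Θ * K ^ 2 + 3 + (800 * Θ + 2) / K ^ 2 * US + 6 / K ^ 2 := by
    have e1 : Θ * (4 * (200 * K ^ 2 + 200 / K ^ 2 * US)) =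
        800 * Θ * K ^ 2 + 800 * Θ / K ^ 2 * US := by field_simp; ring
    have e2 : (800 * Θ + 2) / K ^ 2 * US = 800 * Θ / K ^ 2 * US + 2 / K ^ 2 * US := by
      field_simp
    have e3 : 2 / K ^ 2 * (US + 3) = 2 / K ^ 2 * US + 6 / K ^ 2 := by field_simp; ring
    rw [e1] at h2
    rw [e3] at h1
    rw [e2]
    linarith
  have h4 : (800 * Θ + 2) / K ^ 2 ≤ 1 / 2 := by
    rw [div_le_iff₀ hK2]
    linarith
  have h5 : (800 * Θ + 2) / K ^ 2 * US ≤ 1 / 2 * US := mul_le_mul_of_nonneg_right h4 hUS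
  have h6 : 6 / K ^ 2 ≤ 6 := by
    apply div_le_self (by norm_num)
    linarith
  linarith

theorem window (hPROPR : S_PROPR) (hSAMPLE : S_SAMPLE) (hLEAK : S_LEAK) (hPIG : S_PIG)
    (hSPARSE : S_SPARSE) (hMIXU : S_MIXU) (hZR : S_ZR) (hZB : S_ZB) (hZC : S_ZC) : S_WINDOW := by
  classical
  intro C hC
  obtain ⟨Θ, hΘ, K₀, hP⟩ := hPROPR C hC
  obtain ⟨K, hKdef⟩ : ∃ K : ℕ, K = K₀ + 2 + Nat.ceil (2 * (800 * Θ + 2)) := ⟨_, rfl⟩
  have hK2 : 2 ≤ K := by omega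
  have hK0 : K₀ ≤ K := by omega
  have hKr : (2:ℝ) ≤ K := by exact_mod_cast hK2
  have hKbig : 2 * (800 * Θ + 2) ≤ (K : ℝ) ^ 2 := by
    have h1 : (2 * (800 * Θ + 2) : ℝ) ≤ K := by
      refine (Nat.le_ceil _).trans ?_
      exact_mod_cast (by omega : Nat.ceil (2 * (800 * Θ + 2)) ≤ K)
    nlinarith
  obtain ⟨Q, hQ⟩ : ∃ Q : ℝ, Q = 1600 * Θ * (K : ℝ) ^ 2 + 18 := ⟨_, rfl⟩
  have hQ0 : 0 ≤ Q := by rw [hQ]; positivity
  obtain ⟨D, hD⟩ : ∃ D : ℝ, D = 100 * ((K : ℝ) ^ 2 + (K : ℝ) ^ 4 * Q) := ⟨_, rfl⟩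
  have hD1 : 1 ≤ D := by
    have : 0 ≤ (K : ℝ) ^ 4 * Q := by positivity
    rw [hD]; nlinarith
  refine ⟨D, hD1, K, hK2, fun top => ?_⟩
  obtain ⟨HB, hHB⟩ : ∃ HB : ℝ, HB = ((top : ℝ) + 1) * (K : ℝ) ^ top * |(2:ℝ)| := ⟨_, rfl⟩
  have htop1 : (1:ℝ) ≤ (top : ℝ) + 1 := by
    have : (0:ℝ) ≤ top := Nat.cast_nonneg _
    linarith
  have hKtop : (1:ℝ) ≤ (K : ℝ) ^ top := one_le_pow₀ (by linarith)
  have hHB1 : 1 ≤ HB := by
    rw [hHB, abs_two]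
    nlinarith
  obtain ⟨δP, hδP⟩ : ∃ δP : ℝ, δP = 1 / (Θ * ((top : ℝ) + 1)) := ⟨_, rfl⟩
  have hδP0 : 0 < δP := by rw [hδP]; positivity
  obtain ⟨H₁, ε₁, hH₁, hε₁, hε₁1, hP1⟩ := hP K hK0 top HB δP hHB1 hδP0
  obtain ⟨δZ, εZ, hδZ, hεZ, ΓZ, hZB'⟩ := hZB K top 2 (by omega) (by norm_num)
  obtain ⟨δ, hδ⟩ : ∃ δ : ℝ, δ = min δZ (1 / (((top : ℝ) + 1) ^ 2 * (K : ℝ) ^ (2 * top))) :=
    ⟨_, rfl⟩
  have hδ0 : 0 < δ := by rw [hδ]; exact lt_min hδZ (by positivity)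
  have hδZ' : δ ≤ δZ := by rw [hδ]; exact min_le_left _ _
  have hδK : δ ≤ 1 / (((top : ℝ) + 1) ^ 2 * (K : ℝ) ^ (2 * top)) := by
    rw [hδ]; exact min_le_right _ _
  obtain ⟨H₃, ε₃, hH₃, hε₃, hL1⟩ := hLEAK K top 2 δ (by norm_num) hδ0
  obtain ⟨εC, hεC, ΓC, hZC'⟩ := hZC K top 2 (by omega) (by norm_num)
  obtain ⟨ΓM, hM'⟩ := hMIXU K top 2 (by omega) (by norm_num)
  obtain ⟨g₀, hg₀, hG⟩ := hPIG top 2 δ (by norm_num) hδ0
  obtain ⟨ΓS, hS'⟩ := sparse_tuple hSPARSE K top 1 1 le_rfl one_pos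
  obtain ⟨H₂, hH₂⟩ : ∃ H₂ : ℝ, H₂ = max H₁ H₃ := ⟨_, rfl⟩
  have hH12 : H₁ ≤ H₂ := by rw [hH₂]; exact le_max_left _ _
  have hH32 : H₃ ≤ H₂ := by rw [hH₂]; exact le_max_right _ _
  obtain ⟨ε, hεd⟩ : ∃ ε : ℝ, ε = min (min ε₁ ε₃) (min εZ εC) := ⟨_, rfl⟩
  have hε0 : 0 < ε := by rw [hεd]; exact lt_min (lt_min hε₁ hε₃) (lt_min hεZ hεC)
  have hεa : ε ≤ ε₁ := by rw [hεd]; exact (min_le_left _ _).trans (min_le_left _ _)
  have hεb : ε ≤ ε₃ := by rw [hεd]; exact (min_le_left _ _).trans (min_le_right _ _)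
  have hεc : ε ≤ εZ := by rw [hεd]; exact (min_le_right _ _).trans (min_le_left _ _)
  have hεe : ε ≤ εC := by rw [hεd]; exact (min_le_right _ _).trans (min_le_right _ _)
  have hε1 : ε < 1 := lt_of_le_of_lt hεa hε₁1
  refine ⟨H₂, ε, g₀, by omega, by linarith, hε0, hε1, fun C₀ hC₀ => ?_⟩
  obtain ⟨ΓP, hP2⟩ := hP1 C₀ hC₀
  obtain ⟨ΓL, hL2⟩ := hL1 C₀ hC₀
  refine ⟨ΓP + ΓL + ΓZ + ΓC + ΓM + ΓS + (top + 4) + Nat.ceil (HB ^ 2 * ((top : ℝ) + 1)), ?_⟩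
  intro T hTK hTtop hT E _ _ _ X F hF J I x A hx hA
  rcases Nat.eq_zero_or_pos J with hJ0 | hJ
  · subst hJ0
    simp
  have hbase := hT.base
  have mk : ∀ Γ' : ℕ, Γ' ≤ ΓP + ΓL + ΓZ + ΓC + ΓM + ΓS + (top + 4) +
      Nat.ceil (HB ^ 2 * ((top : ℝ) + 1)) → T.OK H₂ ε C₀ g₀ Γ' :=
    fun Γ' h => { hT with base := h.trans hbase }
  have hJr : (0:ℝ) < J := by exact_mod_cast hJ
  obtain ⟨y, c, hrep, hSp, hcost⟩ := hS' H₂ ε C₀ g₀ T (by omega) hε0.le hε1.le hTK hTtop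
    (mk ΓS (by omega)) E X J (fun j => (x j : E)) (fun j => hx j)
  have hSp' : T.Sparse c 2 := by
    have : (2 * 1 : ℝ) = 2 := by norm_num
    rw [this] at hSp; exact hSp
  have hcost3 : ∀ j, T.cost (fun s b => y s b j) (fun s ν => c s ν j) ≤ 3 := by
    intro j
    refine (hcost j).trans ?_
    have h1 : ‖(x j : E)‖ ≤ 1 := hx j
    have h2 : ‖(x j : E)‖ ^ 2 ≤ 1 := by
      have := pow_le_pow_left₀ (norm_nonneg _) h1 2
      simpa using this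
    linarith
  obtain ⟨Lo, r, Hi, hW⟩ := hG H₂ ε C₀ g₀ _ T le_rfl hTtop hT J c hJ hSp'
  have hLeaks : Leaks T c Lo Hi δ := by
    intro i hi s' hs' R hR
    exact hL2 H₂ ε g₀ T (by omega) hH32 hε0 hεb hε1 hTK hTtop (mk ΓL (by omega)) J c Lo r Hi δ hJ
      hSp' hW i (by omega) s' hs' R hR
  have hZB'' := hZB' H₂ ε C₀ δ g₀ T (by omega) hε0 hεc hε1 hδ0 hδZ' hTK hTtop (mk ΓZ (by omega))
    J y c Lo r Hi hJ hSp' hW hLeaks hcost3
  have hZC'' := hZC' H₂ ε C₀ δ g₀ T (by omega) hε0 hεe hε1 hTK hTtop (mk ΓC (by omega)) E X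
    J (fun j => (x j : E)) y c Lo r Hi hJ hrep hSp' hW hcost3
  obtain ⟨y'', c'', hev, hmc''⟩ := hM' H₂ ε C₀ g₀ T (by omega) hε0 hε1 hTK hTtop (mk ΓM (by omega))
    J y c Lo r Hi δ hJ hSp' hW hcost3
  have hK1 : 1 ≤ T.K := by omega
  -- boot steps
  have hstep : ∀ i < top, hs (Ub T c Lo Hi i) / J ≤
      Θ * ((∑ j, ‖mixE (matOf (Qf T c Lo i)) (fun j => (x j : E)) j‖ ^ 2) / J +
        T.mc (yZ T y c Lo Hi i) (T.above i (cZ T c Lo Hi i)) / J) + Θ * δP + HB ^ 2 / T.a := by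
    intro i hi
    refine boot_step hSAMPLE hT (by omega) hK1 hJ (B := 2) (H := HB) (Θ := Θ) (δP := δP) hW hSp'
      (by omega) (by rw [hHB, hTtop, hTK]) (by linarith) hδP0.le X F (by omega)
      (mixE (matOf (Qf T c Lo i)) (fun j => (x j : E))) ?_
      (hZR T E X J (fun j => (x j : E)) y c Lo Hi i hrep) ?_
    · intro j
      unfold mixE
      exact F.sum_mem fun j' _ => F.smul_mem _ (x j').2
    · intro r' hr1 hr2 z' y' c' h1 h2 h3 h4 h5 κ' h6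
      exact hP2 g₀ T hg₀ hTK hTtop ((mk ΓP (by omega)).mono (by linarith) hH12 hεa le_rfl le_rfl)
        E X F hF i hi r' hr1 hr2 z' y' c' h1 h2 h3 h4 h5 κ' h6
  -- sums
  obtain ⟨US, hUS⟩ : ∃ US : ℝ, US = ∑ i ∈ range top, usq T c Lo i := ⟨_, rfl⟩
  have hUS0 : 0 ≤ US := by rw [hUS]; exact sum_nonneg fun i _ => usq_nonneg T c Lo i
  have htopz : usq T c Lo top = 0 := by rw [← hTtop]; exact usq_top T c Lo
  have hUS' : ∑ i ∈ range (top + 1), usq T c Lo i = US := by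
    rw [sum_range_succ, htopz, add_zero, hUS]
  rw [hUS'] at hZB'' hZC''
  rw [← hUS] at hmc''
  obtain ⟨mcS, hmcS⟩ : ∃ m : ℝ, m = ∑ i ∈ range top,
    T.mc (yZ T y c Lo Hi i) (T.above i (cZ T c Lo Hi i)) := ⟨_, rfl⟩
  obtain ⟨coS, hcoS⟩ : ∃ m : ℝ, m = ∑ i ∈ range top,
    ∑ j, ‖mixE (matOf (Qf T c Lo i)) (fun j => (x j : E)) j‖ ^ 2 := ⟨_, rfl⟩
  obtain ⟨W, hWd⟩ : ∃ W : ℝ, W = 200 * (K : ℝ) ^ 2 + 200 / (K : ℝ) ^ 2 * US := ⟨_, rfl⟩
  rw [← hmcS, ← hWd] at hZB''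
  rw [← hcoS, ← hmcS, ← hWd] at hZC''
  obtain ⟨cU, hcU⟩ : ∃ cU : ℝ, cU = ∑ i ∈ range top, hs (Ub T c Lo Hi i) / J := ⟨_, rfl⟩
  have hcU1 : cU ≤ Θ * (4 * W) + 2 := by
    have h1 : cU ≤ ∑ i ∈ range top, (Θ * ((∑ j, ‖mixE (matOf (Qf T c Lo i))
        (fun j => (x j : E)) j‖ ^ 2) / J +
        T.mc (yZ T y c Lo Hi i) (T.above i (cZ T c Lo Hi i)) / J) + (Θ * δP + HB ^ 2 / T.a)) := by
      rw [hcU]
      refine sum_le_sum fun i hi => ?_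
      rw [mem_range] at hi
      have := hstep i hi
      linarith
    rw [sum_add_distrib, ← mul_sum, sum_add_distrib, ← sum_div, ← sum_div, ← hmcS, ← hcoS,
      sum_const, card_range, nsmul_eq_mul] at h1
    have h2 : coS / J + mcS / J ≤ 4 * W := by
      rw [← add_div, div_le_iff₀ hJr]
      linarith
    have h3 : Θ * (coS / J + mcS / J) ≤ Θ * (4 * W) := mul_le_mul_of_nonneg_left h2 (by linarith)
    have h4 : (top : ℝ) * (Θ * δP + HB ^ 2 / T.a) ≤ 2 := by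
      have ha0 : (0:ℝ) < T.a := by exact_mod_cast hT.one_le_a
      have h5 : Θ * δP = 1 / ((top : ℝ) + 1) := by rw [hδP]; field_simp
      have h6 : HB ^ 2 / T.a ≤ 1 / ((top : ℝ) + 1) := by
        rw [div_le_div_iff₀ ha0 (by linarith), one_mul]
        refine (Nat.le_ceil _).trans ?_
        exact_mod_cast (by omega : Nat.ceil (HB ^ 2 * ((top : ℝ) + 1)) ≤ T.a)
      have h7 : (top : ℝ) * (Θ * δP + HB ^ 2 / T.a) ≤
          (top : ℝ) * (1 / ((top : ℝ) + 1) + 1 / ((top : ℝ) + 1)) :=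
        mul_le_mul_of_nonneg_left (by linarith) (Nat.cast_nonneg _)
      refine h7.trans ?_
      rw [← add_div, ← mul_div_assoc, div_le_iff₀ (by linarith)]
      linarith
    linarith
  have hUS1 : US ≤ cU + 1 + 2 / (K : ℝ) ^ 2 * (US + 3) := by
    have h1 : ∀ i ∈ range top, usq T c Lo i ≤ hs (Ub T c Lo Hi i) / J +
        ((top : ℝ) + 1) * (K : ℝ) ^ (2 * top) * δ +
        2 / (K : ℝ) ^ 2 * (usq T c Lo (i + 1) + hs (c (i + 1)) / J) := by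
      intro i hi
      rw [mem_range] at hi
      have h2 := usq_split hT hK1 hJ hW (by omega : i < T.top)
      rw [hTK] at h2
      have h3 : ((i : ℝ) + 1) * (K : ℝ) ^ (2 * i) * δ ≤
          ((top : ℝ) + 1) * (K : ℝ) ^ (2 * top) * δ := by
        refine mul_le_mul_of_nonneg_right (mul_le_mul ?_ ?_ (by positivity) (by positivity)) hδ0.le
        · have : (i : ℝ) ≤ top := by exact_mod_cast hi.le
          linarith
        · exact pow_le_pow_right₀ (by linarith) (by omega)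
      linarith
    have h2 := sum_le_sum h1
    rw [← hUS, sum_add_distrib, sum_add_distrib, ← hcU, sum_const, card_range, nsmul_eq_mul,
      ← mul_sum, sum_add_distrib, ← sum_div] at h2
    have h3 : (top : ℝ) * (((top : ℝ) + 1) * (K : ℝ) ^ (2 * top) * δ) ≤ 1 := by
      have h4 : ((top : ℝ) + 1) ^ 2 * (K : ℝ) ^ (2 * top) * δ ≤ 1 := by
        rw [le_div_iff₀ (by positivity)] at hδK
        linarith
      have h5 : (top : ℝ) * (((top : ℝ) + 1) * (K : ℝ) ^ (2 * top) * δ) ≤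
          ((top : ℝ) + 1) * (((top : ℝ) + 1) * (K : ℝ) ^ (2 * top) * δ) :=
        mul_le_mul_of_nonneg_right (by linarith) (by positivity)
      have h6 : ((top : ℝ) + 1) * (((top : ℝ) + 1) * (K : ℝ) ^ (2 * top) * δ) =
          ((top : ℝ) + 1) ^ 2 * (K : ℝ) ^ (2 * top) * δ := by ring
      linarith
    have h4 : ∑ i ∈ range top, usq T c Lo (i + 1) ≤ US := by
      rw [← hUS', sum_range_succ']
      have := usq_nonneg T c Lo 0
      linarith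
    have h5 : (∑ i ∈ range top, hs (c (i + 1))) / J ≤ 3 := by
      rw [div_le_iff₀ hJr]
      have h6 : ∑ i ∈ range top, hs (c (i + 1)) ≤ ∑ i ∈ range (top + 1), hs (c i) := by
        rw [sum_range_succ']
        have := hs_nonneg (c 0)
        linarith
      have h7 : ∑ i ∈ range (top + 1), hs (c i) ≤
          ∑ j, T.cost (fun s b => y s b j) (fun s ν => c s ν j) := by
        have e : ∀ i, hs (c i) = ∑ j, ∑ ν, c i ν j ^ 2 := by
          intro i; unfold hs; rw [sum_comm]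
        simp only [e]
        rw [sum_comm]
        refine sum_le_sum fun j _ => ?_
        have := T.sum_c_sq_le_cost (fun s b => y s b j) (fun s ν => c s ν j) (s := top) (by omega)
        exact this
      have h8 : ∑ j, T.cost (fun s b => y s b j) (fun s ν => c s ν j) ≤ ∑ j : Fin J, (3:ℝ) :=
        sum_le_sum fun j _ => hcost3 j
      rw [sum_const, card_univ, Fintype.card_fin, nsmul_eq_mul] at h8
      linarith
    have h6 : 2 / (K : ℝ) ^ 2 * (∑ i ∈ range top, usq T c Lo (i + 1) +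
        (∑ i ∈ range top, hs (c (i + 1))) / J) ≤ 2 / (K : ℝ) ^ 2 * (US + 3) :=
      mul_le_mul_of_nonneg_left (by linarith) (by positivity)
    linarith
  rw [hWd] at hcU1
  have hUSQ : US ≤ Q := by
    rw [hQ]
    exact boot_alg hΘ hKbig hUS0 hUS1 hcU1
  -- conclusion
  have hrep'' : X.Rep (fun j => (x j : E)) y'' c'' := by
    intro s hs' b j
    rw [hrep s hs' b j]
    exact hev s (by omega) b j
  have hfin := sum_mix_norm_sq_le X hrep'' (A := A) hA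
  have hnorm : ∀ i, ‖∑ j, A i j • x j‖ = ‖mixE A (fun j => (x j : E)) i‖ := by
    intro i
    have : ((∑ j, A i j • x j : F) : E) = mixE A (fun j => (x j : E)) i := by
      simp [mixE]
    rw [← this]
    rfl
  simp only [hnorm]
  refine hfin.trans (hmc''.trans ?_)
  refine mul_le_mul_of_nonneg_right ?_ (Nat.cast_nonneg _)
  have h1 : 100 * ((K : ℝ) ^ 2 + (K : ℝ) ^ 4 * US) ≤ D := by
    rw [hD]
    have : (K : ℝ) ^ 4 * US ≤ (K : ℝ) ^ 4 * Q := mul_le_mul_of_nonneg_left hUSQ (by positivity)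
    linarith
  nlinarith

end Run7.h35.NEG
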