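import Pool.Agent.Run7.h35.NEG.Core1

set_option autoImplicit false

namespace Run7.h35.NEG

open Finset Module

/-- the partial sum projections of a basis -/
theorem exists_projections {F : Type} [NormedAddCommGroup F] [NormedSpace ℝ F] {C : ℝ}
    (hF : BasisLe F C) : ∃ P : ℕ → (F →ₗ[ℝ] F), P 0 = 0 ∧ P (finrank ℝ F) = LinearMap.id ∧
      (∀ k x, ‖P k x‖ ≤ C * ‖x‖) ∧ (∀ k x, P k (P k x) = P k x) ∧
      ∀ k < finrank ℝ F, ∃ (e : F) (φ : F →ₗ[ℝ] ℝ), ∀ x, P (k + 1) x = P k x + φ x • e := by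
  obtain ⟨b, hb⟩ := hF
  set P : ℕ → (F →ₗ[ℝ] F) := fun k =>
    ∑ i ∈ univ.filter (fun i : Fin (finrank ℝ F) => (i : ℕ) < k), (b.coord i).smulRight (b i)
    with hP
  have hPx : ∀ k x, P k x =
      ∑ i ∈ univ.filter (fun i : Fin (finrank ℝ F) => (i : ℕ) < k), b.repr x i • b i := by
    intro k x
    rw [hP]
    simp [LinearMap.sum_apply, LinearMap.smulRight_apply, Basis.coord_apply]
  have hrep : ∀ k x j, b.repr (P k x) j = if (j : ℕ) < k then b.repr x j else 0 := by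
    intro k x j
    rw [hPx, map_sum, Finsupp.finsetSum_apply]
    simp only [map_smul, Basis.repr_self, Finsupp.smul_apply, smul_eq_mul, Finsupp.single_apply,
      mul_ite, mul_one, mul_zero]
    rw [sum_ite_eq']
    simp
  refine ⟨P, ?_, ?_, ?_, ?_, ?_⟩
  · ext x
    rw [hPx]
    simp
  · ext x
    rw [hPx, filter_true_of_mem (fun i _ => i.2)]
    simp [b.sum_repr x]
  · intro k x
    rw [hPx]
    exact hb k x
  · intro k x
    apply b.repr.injective
    ext j
    rw [hrep, hrep]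
    split_ifs <;> rfl
  · intro k hk
    refine ⟨b ⟨k, hk⟩, b.coord ⟨k, hk⟩, fun x => ?_⟩
    rw [hPx, hPx]
    have h1 : univ.filter (fun i : Fin (finrank ℝ F) => (i : ℕ) < k + 1) =
        insert ⟨k, hk⟩ (univ.filter (fun i : Fin (finrank ℝ F) => (i : ℕ) < k)) := by
      ext i
      simp only [mem_filter, mem_univ, true_and, mem_insert, Fin.ext_iff]
      omega
    rw [h1, sum_insert (by simp), add_comm]
    rfl

/-- accumulated content when the lower contents vanish -/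
theorem acc_low {T : Tower} {r : ℕ} (c : ℕ → Fin (2 ^ T.a) → Fin r → ℝ) {i : ℕ}
    (h : ∀ s < i, c s = 0) : T.accJ c i = c i := by
  ext ν j
  unfold Tower.accJ Tower.acc
  rw [sum_range_succ]
  have : ∑ s' ∈ range i, (T.K : ℝ) ^ (i - s') * c s' ν j = 0 :=
    sum_eq_zero fun s' hs' => by rw [h s' (mem_range.mp hs')]; simp
  rw [this, zero_add, Nat.sub_self, pow_zero, one_mul]

theorem hs_le_mc {T : Tower} {J : Type} [Fintype J] (y : (s : ℕ) → Fin (T.n s) → J → ℝ)
    (c : ℕ → Fin (2 ^ T.a) → J → ℝ) {s : ℕ} (hs' : s ≤ T.top) :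
    hs (y s) + hs (c s) + rho (c s) ^ 2 / (T.k s : ℝ) ≤ T.mc y c := by
  rw [mc_eq]
  exact single_le_sum (f := fun s => hs (y s) + hs (c s) + rho (c s) ^ 2 / (T.k s : ℝ))
    (fun s _ => by
      have := hs_nonneg (y s)
      have := hs_nonneg (c s)
      positivity) (mem_range.mpr (by omega))

theorem lev_sum {T : Tower} {E : Type} [NormedAddCommGroup E] [NormedSpace ℝ E]
    (X : TowerSpace T E) {r : ℕ} (z : Fin r → E) (v : Fin r → ℝ) (s : ℕ) (b : Fin (T.n s)) :
    X.lev s (∑ j, v j • z j) b = ∑ j, X.lev s (z j) b * v j := by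
  rw [map_sum, Finset.sum_apply]
  exact sum_congr rfl fun j _ => by rw [map_smul, Pi.smul_apply, smul_eq_mul, mul_comm]

/-- `A r ≤ U/100` gives `√(A r) √U ≤ U/10` -/
theorem sqrt_small {x U : ℝ} (hU : 0 ≤ U) (h : x ≤ U / 100) :
    Real.sqrt x * Real.sqrt U ≤ U / 10 := by
  have h1 : Real.sqrt x ≤ Real.sqrt U / 10 := by
    refine Real.sqrt_le_iff.mpr ⟨by positivity, ?_⟩
    rw [div_pow, Real.sq_sqrt hU]
    linarith
  calc Real.sqrt x * Real.sqrt U ≤ Real.sqrt U / 10 * Real.sqrt U :=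
        mul_le_mul_of_nonneg_right h1 (Real.sqrt_nonneg _)
    _ = (Real.sqrt U * Real.sqrt U) / 10 := by ring
    _ = U / 10 := by rw [Real.mul_self_sqrt hU]

/-- levels of mixtures killed by the clean condition: row bound -/
theorem proj_row_le {T : Tower} {E : Type} [NormedAddCommGroup E] [NormedSpace ℝ E]
    (X : TowerSpace T E) {r : ℕ} (w : Fin r → E) (V : Submodule ℝ (Fin r → ℝ)) {σ : ℝ} {s : ℕ}
    (hσ : 0 ≤ σ) (h : ∀ v ∈ V, ∑ b, (X.lev s (∑ j, v j • w j) b) ^ 2 ≤ σ * ∑ j, v j ^ 2) (b : Fin (T.n s)) :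
    ∑ j, proj V (fun j => X.lev s (w j) b) j ^ 2 ≤ σ := by
  set x := proj V (fun j => X.lev s (w j) b) with hx
  have hxV : x ∈ V := proj_mem V _
  have h1 : ∑ j, x j ^ 2 = X.lev s (∑ j, x j • w j) b := by
    rw [lev_sum]
    have h2 : ∑ j, x j * x j = ∑ j, X.lev s (w j) b * x j := by
      conv_lhs => rw [hx]
      rw [proj_symm, proj_idem]
    rw [← h2]
    exact sum_congr rfl fun _ _ => by ring
  have h3 : (∑ j, x j ^ 2) ^ 2 ≤ σ * ∑ j, x j ^ 2 := by
    refine le_trans ?_ (h x hxV)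
    rw [h1]
    exact single_le_sum (f := fun b => (X.lev s (∑ j, x j • w j) b) ^ 2)
      (fun _ _ => sq_nonneg _) (mem_univ b)
  have h4 : 0 ≤ ∑ j, x j ^ 2 := by positivity
  rcases h4.eq_or_lt with h5 | h5
  · rw [← h5]; exact hσ
  · nlinarith

end Run7.h35.NEG
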