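import Pool.Agent.Run7.h35.NEG.Core2

set_option autoImplicit false

namespace Run7.h35.NEG

open Finset Module

/-- Step 1: the middle projection.  All the numerical hypotheses are explicit. -/
theorem core_middle (hPAIR : S_PAIR) (K top : ℕ) (hK4 : 4 ≤ K) (H B δ : ℝ) (hH : 1 ≤ H)
    (hB : 1 ≤ B) (hδ : 0 < δ) :
    ∃ ε₀ : ℝ, 0 < ε₀ ∧ ∃ Γ : ℕ,
    ∀ (H₂ ε C₀ : ℝ) (g : ℕ) (T : Tower), 4 ≤ g → 0 < ε → ε ≤ ε₀ → ε < 1 →
    T.K = K → T.top = top → T.OK H₂ ε C₀ g Γ →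
    ∀ (E : Type) [NormedAddCommGroup E] [NormedSpace ℝ E] (X : TowerSpace T E),
    ∀ i < top, ∀ r : ℕ, 1 ≤ r → T.n i ^ 3 ≤ r → r ^ 4 ≤ T.k (i + 1) →
    ∀ (n : ℕ) (w : ℕ → Fin r → E) (y : (s : ℕ) → Fin (T.n s) → Fin r → ℝ)
      (c : ℕ → Fin (2 ^ T.a) → Fin r → ℝ) (Y : ℕ → (s : ℕ) → Fin (T.n s) → Fin r → ℝ)
      (Cc : ℕ → ℕ → Fin (2 ^ T.a) → Fin r → ℝ) (A κ : ℝ),
      X.Rep (w n) y c → (∀ s < i, c s = 0) → (∀ t, SG T.a (T.k i ^ 3) H (fun ν => c i ν t)) →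
      (∀ t t', t ≠ t' → ∀ ν, c i ν t = 0 ∨ c i ν t' = 0) →
      T.mc y (T.above i c) ≤ κ * r → κ ≤ B → 0 ≤ κ → H ^ 2 ≤ B →
      (∀ j, X.Rep (w j) (Y j) (Cc j)) →
      (∀ j, ∑ t, T.cost (fun s b => Y j s b t) (fun s ν => Cc j s ν t) ≤ A * r) → 0 ≤ A →
      ((top : ℝ) + 1) ^ 2 * (K : ℝ) ^ (2 * top) * A ≤ B →
      (∀ t, w 0 t = 0) →
      (∀ j < n, ∃ (e : E) (φ : Fin r → ℝ), ∀ t, w (j + 1) t = w j t + φ t • e) →
      (∀ j, ∑ t, ‖w (j + 1) t - w j t‖ ^ 2 ≤ B * r) →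
      A * r ≤ hs (c i) / 100 → κ * r ≤ hs (c i) / 100 → δ * r ≤ hs (c i) / 1000 →
      ∃ j ≤ n, hs (c i) / 4 ≤ ∑ ν, ∑ t, T.accJ (Cc j) i ν t * c i ν t ∧
        ∑ ν, ∑ t, T.accJ (Cc j) i ν t * c i ν t ≤ hs (c i) / 2 := by
  obtain ⟨ε₀, hε₀, Γ₁, hΓ₁⟩ := hPAIR K top H B δ hH hB hδ
  set Lc : ℝ := 24 * ((top : ℝ) + 1) ^ 2 * (K : ℝ) ^ (2 * top) with hLc
  refine ⟨ε₀, hε₀, max Γ₁ (Nat.ceil (Lc * B * (4 * H) ^ 2 / δ ^ 2) + 1), ?_⟩
  intro H₂ ε C₀ g T hg hε hεle hε1 hTK hTtop hT E _ _ X i hi r hr1 hr hr4 n w y c Y Cc A κ hrep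
    hlow hsg hdis hmc hκB hκ0 hHB hRep hcost hA0 hAB hw0 hwstep hwdiff hA hκ hδr
  have hT1 : T.OK H₂ ε C₀ g Γ₁ := { hT with base := (le_max_left _ _).trans hT.base }
  have hK1 : 1 ≤ T.K := by omega
  have hKr : (1 : ℝ) ≤ K := by exact_mod_cast (by omega : 1 ≤ K)
  have hi' : i < T.top := by omega
  set U := hs (c i) with hU
  have hU0 : 0 ≤ U := hs_nonneg _
  have hr0 : (1 : ℝ) ≤ r := by exact_mod_cast hr1
  have hUpos : 0 < U := by
    have : 0 < δ * r := by positivity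
    linarith
  set Λ : ℕ → ℝ := fun j => ∑ ν, ∑ t, T.accJ (Cc j) i ν t * c i ν t with hΛ
  have hΛ' : ∀ j, ∑ t, ∑ ν, T.accJ (Cc j) i ν t * c i ν t = Λ j := by
    intro j; rw [hΛ, sum_comm]
  set L : ℕ → ℝ := fun j => ∑ t, ∑ b, X.lev (i + 1) (w j t) b * T.GM (i + 1) (c i) b t with hL
  -- PAIR for every `j`
  have hle1 : (1:ℝ) ≤ ((i : ℝ) + 1) := by have : (0:ℝ) ≤ i := Nat.cast_nonneg _; linarith
  have hit : ((i : ℝ) + 1) ≤ (top : ℝ) + 1 := by
    have : (i : ℝ) ≤ top := by exact_mod_cast hi.le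
    linarith
  have hKK : (T.K : ℝ) ^ (2 * i) ≤ (K : ℝ) ^ (2 * top) := by
    rw [hTK]
    exact pow_le_pow_right₀ hKr (by omega)
  have hAle : A ≤ B := by
    refine le_trans ?_ hAB
    have h1 : (1:ℝ) ≤ ((top : ℝ) + 1) ^ 2 * (K : ℝ) ^ (2 * top) := by
      have h2 : (1:ℝ) ≤ ((top : ℝ) + 1) ^ 2 := one_le_pow₀ (by linarith)
      have h3 : (1:ℝ) ≤ (K : ℝ) ^ (2 * top) := one_le_pow₀ hKr
      nlinarith
    nlinarith
  have hpair : ∀ j, |L j - K * Λ j| ≤ 2 * Real.sqrt (A * r) * Real.sqrt U + δ * r := by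
    intro j
    have hcs := col_sums hT (by omega) hK1 (Y j) (Cc j) (hcost j) (by omega : i + 1 ≤ T.top)
    have hcs' := col_sums hT (by omega) hK1 (Y j) (Cc j) (hcost j) (by omega : i ≤ T.top)
    have hb1 : ((i : ℝ) + 1) * (T.K : ℝ) ^ (2 * i) * (A * r) ≤ B * r := by
      have : ((i : ℝ) + 1) * (T.K : ℝ) ^ (2 * i) ≤ ((top : ℝ) + 1) ^ 2 * (K : ℝ) ^ (2 * top) := by
        refine mul_le_mul ?_ hKK (by positivity) (by positivity)
        nlinarith
      calc ((i : ℝ) + 1) * (T.K : ℝ) ^ (2 * i) * (A * r)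
          ≤ ((top : ℝ) + 1) ^ 2 * (K : ℝ) ^ (2 * top) * (A * r) :=
            mul_le_mul_of_nonneg_right this (by positivity)
        _ = (((top : ℝ) + 1) ^ 2 * (K : ℝ) ^ (2 * top) * A) * r := by ring
        _ ≤ B * r := mul_le_mul_of_nonneg_right hAB (by positivity)
    have hb2 : ((i : ℝ) + 1) ^ 2 * (T.K : ℝ) ^ (2 * i) * T.k i * (A * r) ≤
        (T.k i : ℝ) ^ 4 * (B * r) := by
      have h1 : ((i : ℝ) + 1) ^ 2 * (T.K : ℝ) ^ (2 * i) ≤
          ((top : ℝ) + 1) ^ 2 * (K : ℝ) ^ (2 * top) :=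
        mul_le_mul (pow_le_pow_left₀ (by positivity) hit 2) hKK (by positivity) (by positivity)
      have hk1 : (1:ℝ) ≤ T.k i := by exact_mod_cast hT.k_pos i
      have h2 : (T.k i : ℝ) ≤ (T.k i : ℝ) ^ 4 := by
        calc (T.k i : ℝ) = (T.k i : ℝ) ^ 1 := (pow_one _).symm
          _ ≤ (T.k i : ℝ) ^ 4 := pow_le_pow_right₀ hk1 (by norm_num)
      calc ((i : ℝ) + 1) ^ 2 * (T.K : ℝ) ^ (2 * i) * T.k i * (A * r)
          = (T.k i : ℝ) * ((((i : ℝ) + 1) ^ 2 * (T.K : ℝ) ^ (2 * i)) * (A * r)) := by ring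
        _ ≤ (T.k i : ℝ) ^ 4 * ((((top : ℝ) + 1) ^ 2 * (K : ℝ) ^ (2 * top)) * (A * r)) := by
            refine mul_le_mul h2 (mul_le_mul_of_nonneg_right h1 (by positivity))
              (by positivity) (by positivity)
        _ = (T.k i : ℝ) ^ 4 * ((((top : ℝ) + 1) ^ 2 * (K : ℝ) ^ (2 * top) * A) * r) := by ring
        _ ≤ _ := by
            refine mul_le_mul_of_nonneg_left ?_ (by positivity)
            exact mul_le_mul_of_nonneg_right hAB (by positivity)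
    have h := hΓ₁ H₂ ε C₀ g T hg hε hεle hε1 hTK hTtop hT1 i hi r hr4 (c i) (Y j) (Cc j) A hsg
      hcs.1 hAle
      (hcs.2.1.trans (mul_le_mul_of_nonneg_left
        (mul_le_mul_of_nonneg_right hAle (by positivity)) (by positivity)))
      (hcs'.2.2.1.trans hb1) (hcs'.2.2.2.trans hb2)
    rw [hΛ'] at h
    have hev : ∑ t, ∑ b, T.ev (fun s b => Y j s b t) (fun s ν => Cc j s ν t) (i + 1) b *
        T.GM (i + 1) (c i) b t = L j := by
      rw [hL]
      refine sum_congr rfl fun t _ => sum_congr rfl fun b _ => ?_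
      rw [hRep j (i + 1) (by omega) b t]
    rw [hev] at h
    exact h
  -- PAIR for `z = w n`
  have hz : |L n - K * U| ≤ 2 * Real.sqrt (κ * r) * Real.sqrt U + δ * r := by
    have hacc : T.accJ c i = c i := acc_low c hlow
    have hm := hs_le_mc y (T.above i c) (by omega : i + 1 ≤ T.top)
    have hab : T.above i c (i + 1) = c (i + 1) := by
      ext ν t
      simp [Tower.above]
    rw [hab] at hm
    have hk : (0:ℝ) < T.k (i + 1) := by exact_mod_cast hT.k_pos (i + 1)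
    have h1 : hs (y (i + 1)) + hs (c (i + 1)) ≤ κ * r := by
      have : 0 ≤ rho (c (i + 1)) ^ 2 / (T.k (i + 1) : ℝ) := by positivity
      linarith
    have h2 : ∑ j, (∑ ν, |c (i + 1) ν j|) ^ 2 ≤ T.k (i + 1) * (B * r) := by
      refine (sum_l1_sq_le (c (i + 1))).trans ?_
      have h3 : rho (c (i + 1)) ^ 2 / (T.k (i + 1) : ℝ) ≤ κ * r := by
        have := hs_nonneg (y (i + 1))
        have := hs_nonneg (c (i + 1))
        linarith
      rw [div_le_iff₀ hk] at h3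
      have h4 : κ * r * T.k (i + 1) ≤ B * r * T.k (i + 1) :=
        mul_le_mul_of_nonneg_right (mul_le_mul_of_nonneg_right hκB (by positivity)) hk.le
      linarith
    have h5 : hs (T.accJ c i) ≤ B * r := by
      rw [hacc]
      have : hs (c i) = ∑ t, ∑ ν, c i ν t ^ 2 := by unfold hs; rw [sum_comm]
      rw [this]
      refine (sum_le_sum fun t _ => (hsg t).2.2).trans ?_
      rw [sum_const, card_univ, Fintype.card_fin, nsmul_eq_mul, mul_comm]
      exact mul_le_mul_of_nonneg_right hHB (by positivity)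
    have h6 : ∑ j, (∑ ν, |T.accJ c i ν j|) ^ 2 ≤ (T.k i : ℝ) ^ 4 * (B * r) := by
      rw [hacc]
      have h7 : ∀ t ∈ (univ : Finset (Fin r)), (∑ ν, |c i ν t|) ^ 2 ≤ (T.k i : ℝ) ^ 4 * B := by
        intro t _
        refine (hsg t).l1_sq_le.trans ?_
        push_cast
        have hk1 : (1:ℝ) ≤ T.k i := by exact_mod_cast hT.k_pos i
        refine mul_le_mul (pow_le_pow_right₀ hk1 (by norm_num)) ((hsg t).2.2.trans hHB)
          (by positivity) (by positivity)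
      refine (sum_le_sum h7).trans (le_of_eq ?_)
      rw [sum_const, card_univ, Fintype.card_fin, nsmul_eq_mul]
      ring
    have h := hΓ₁ H₂ ε C₀ g T hg hε hεle hε1 hTK hTtop hT1 i hi r hr4 (c i) y c κ hsg
      h1 hκB h2 h5 h6
    rw [hacc] at h
    have e1 : ∑ t, ∑ ν, c i ν t * c i ν t = U := by
      rw [hU]; unfold hs; rw [sum_comm]
      exact sum_congr rfl fun ν _ => sum_congr rfl fun t _ => by ring
    rw [e1] at h
    have hev : ∑ t, ∑ b, T.ev (fun s b => y s b t) (fun s ν => c s ν t) (i + 1) b *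
        T.GM (i + 1) (c i) b t = L n := by
      rw [hL]
      refine sum_congr rfl fun t _ => sum_congr rfl fun b _ => ?_
      rw [hrep (i + 1) (by omega) b t]
    rw [hev] at h
    exact h
  have hsA := sqrt_small hU0 hA
  have hsκ := sqrt_small hU0 hκ
  have hp2 : ∀ j, |L j - K * Λ j| ≤ 21 / 100 * U := by
    intro j
    have := hpair j
    linarith
  have hz2 : |L n - K * U| ≤ 21 / 100 * U := by linarith
  have hL0 : L 0 = 0 := by
    rw [hL]
    simp [hw0]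
  -- steps of `L`
  have hstepL : ∀ j < n, |L (j + 1) - L j| ≤ δ * r := by
    intro j hj
    obtain ⟨e, φ, hφ⟩ := hwstep j hj
    have h1 : L (j + 1) - L j =
        ∑ t, ∑ b, φ t * X.lev (i + 1) e b * T.GM (i + 1) (c i) b t := by
      rw [hL]
      simp only
      rw [← sum_sub_distrib]
      refine sum_congr rfl fun t _ => ?_
      rw [← sum_sub_distrib]
      refine sum_congr rfl fun b _ => ?_
      rw [hφ t, map_add, map_smul, Pi.add_apply, Pi.smul_apply, smul_eq_mul]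
      ring
    rw [h1]
    have h2 := step_bound hT (by omega) hε.le hε1.le hi' hr4 (by linarith : (0:ℝ) ≤ H) (c i) hsg
      hdis (X.lev (i + 1) e) φ
    refine h2.trans ?_
    have h3 : ∑ t, ∑ b, (φ t * X.lev (i + 1) e b) ^ 2 ≤ Lc * (B * r) := by
      have h4 : ∀ t ∈ (univ : Finset (Fin r)), ∑ b, (φ t * X.lev (i + 1) e b) ^ 2 ≤
          Lc * ‖w (j + 1) t - w j t‖ ^ 2 := by
        intro t _
        have h5 : w (j + 1) t - w j t = φ t • e := by rw [hφ t]; abel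
        have h6 := hT.lev_le (by omega) hK1 hε.le hε1.le X (φ t • e) (by omega : i + 1 ≤ T.top)
        rw [h5]
        have h7 : ∑ b, (φ t * X.lev (i + 1) e b) ^ 2 = ∑ b, X.lev (i + 1) (φ t • e) b ^ 2 := by
          refine sum_congr rfl fun b _ => ?_
          rw [map_smul, Pi.smul_apply, smul_eq_mul]
        rw [h7]
        refine h6.trans (mul_le_mul_of_nonneg_right ?_ (sq_nonneg _))
        rw [hLc, hTK]
        have h8 : (((i + 1 : ℕ) : ℝ) + 1) ≤ (top : ℝ) + 1 := by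
          have : ((i + 1 : ℕ) : ℝ) ≤ top := by exact_mod_cast hi
          linarith
        refine mul_le_mul (mul_le_mul_of_nonneg_left (pow_le_pow_left₀ (by positivity) h8 2)
          (by norm_num)) (pow_le_pow_right₀ hKr (by omega)) (by positivity) (by positivity)
      refine (sum_le_sum h4).trans ?_
      rw [← mul_sum]
      exact mul_le_mul_of_nonneg_left (hwdiff j) (by positivity)
    have hΓr : Lc * B * (4 * H) ^ 2 / δ ^ 2 ≤ r := by
      have h5 : T.a ≤ r := by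
        have h6 : T.a ≤ T.n i := by
          rw [hT.n_eq i hi']
          exact (hT.k_ge i).trans (Nat.le_self_pow (by norm_num) _)
        exact h6.trans ((Nat.le_self_pow (by norm_num) _).trans hr)
      have h7 : Nat.ceil (Lc * B * (4 * H) ^ 2 / δ ^ 2) ≤ r := by
        have := hT.base
        have := le_max_right Γ₁ (Nat.ceil (Lc * B * (4 * H) ^ 2 / δ ^ 2) + 1)
        omega
      exact (Nat.le_ceil _).trans (by exact_mod_cast h7)
    rw [div_le_iff₀ (by positivity)] at hΓr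
    have h9 : Real.sqrt (∑ t, ∑ b, (φ t * X.lev (i + 1) e b) ^ 2) * (4 * H) ≤ δ * r := by
      have h10 : Real.sqrt (∑ t, ∑ b, (φ t * X.lev (i + 1) e b) ^ 2) * (4 * H) =
          Real.sqrt ((∑ t, ∑ b, (φ t * X.lev (i + 1) e b) ^ 2) * (4 * H) ^ 2) := by
        rw [Real.sqrt_mul (by positivity), Real.sqrt_sq (by positivity)]
      rw [h10]
      refine Real.sqrt_le_iff.mpr ⟨by positivity, ?_⟩
      calc (∑ t, ∑ b, (φ t * X.lev (i + 1) e b) ^ 2) * (4 * H) ^ 2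
          ≤ Lc * (B * r) * (4 * H) ^ 2 := mul_le_mul_of_nonneg_right h3 (by positivity)
        _ = (Lc * B * (4 * H) ^ 2) * r := by ring
        _ ≤ (r * δ ^ 2) * r := mul_le_mul_of_nonneg_right hΓr (by positivity)
        _ = (δ * r) ^ 2 := by ring
    exact h9
  -- the function `f j = Λ j / U`
  have hK4r : (4:ℝ) ≤ K := by exact_mod_cast hK4
  have hf0 : Λ 0 / U ≤ 1 / 8 := by
    have h1 := hp2 0
    rw [hL0, zero_sub, abs_neg] at h1
    have h2 := (abs_le.mp h1).2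
    rw [div_le_iff₀ hUpos]
    by_contra hcon
    push Not at hcon
    nlinarith
  have hfn : 7 / 8 ≤ Λ n / U := by
    have h1 := (abs_le.mp (hp2 n)).2
    have h2 := (abs_le.mp hz2).1
    rw [le_div_iff₀ hUpos]
    by_contra hcon
    push Not at hcon
    nlinarith
  have hfs : ∀ j < n, |Λ (j + 1) / U - Λ j / U| ≤ 1 / 8 := by
    intro j hj
    have h1 := abs_le.mp (hp2 j)
    have h2 := abs_le.mp (hp2 (j + 1))
    have h3 := abs_le.mp (hstepL j hj)
    rw [← sub_div, abs_div, abs_of_pos hUpos, div_le_iff₀ hUpos, abs_le]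
    constructor
    · by_contra hcon
      push Not at hcon
      nlinarith
    · by_contra hcon
      push Not at hcon
      nlinarith
  obtain ⟨j, hjn, h1, h2⟩ := middle (fun j => Λ j / U) n hf0 hfn hfs
  refine ⟨j, hjn, ?_, ?_⟩
  · rw [le_div_iff₀ hUpos] at h1
    linarith
  · rw [div_le_iff₀ hUpos] at h2
    linarith

end Run7.h35.NEG
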