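import Pool.Agent.Run7.h35.NEG.Core3

set_option autoImplicit false

namespace Run7.h35.NEG

open Finset Module

/-- mass of disjointly supported columns on few rows -/
theorem hs_few_rows {N r a q : ℕ} {H : ℝ} (u : Fin N → Fin r → ℝ)
    (hu : ∀ t, SG a q H (fun ν => u ν t)) (hdis : ∀ t t', t ≠ t' → ∀ ν, u ν t = 0 ∨ u ν t' = 0)
    (S : Finset (Fin N)) : ∑ ν ∈ S, ∑ t, u ν t ^ 2 ≤ S.card * H ^ 2 := by
  have h1 : ∀ ν ∈ S, ∑ t, u ν t ^ 2 ≤ H ^ 2 := by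
    intro ν _
    rw [← disj_sum_sq (fun t => u ν t) (fun t t' hne => hdis t t' hne ν)]
    by_cases h : ∃ t, u ν t ≠ 0
    · obtain ⟨t, ht⟩ := h
      have h2 : ∀ t' ∈ (univ : Finset (Fin r)), t' ≠ t → u ν t' = 0 := by
        intro t' _ hne
        rcases hdis t' t hne ν with h3 | h3
        · exact h3
        · exact absurd h3 ht
      rw [sum_eq_single t h2 (by simp)]
      refine le_trans ?_ (hu t).2.2
      exact single_le_sum (f := fun ν => u ν t ^ 2) (fun _ _ => sq_nonneg _) (mem_univ ν)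
    · push Not at h
      simp only [h, sum_const_zero]
      nlinarith [sq_nonneg H]
  refine (sum_le_sum h1).trans (le_of_eq ?_)
  rw [sum_const, nsmul_eq_mul]

/-- Step 2: from the vectors `α, β` of RIG to the closeness of `v` and `lam u` -/
theorem gram_step {N r a q ρ : ℕ} {H B δ E lam α β : ℝ} (u v : Fin N → Fin r → ℝ)
    (hu : ∀ t, SG a q H (fun ν => u ν t)) (hv : ∀ t, SG a q B (fun ν => v ν t))
    (hdis : ∀ t t', t ≠ t' → ∀ ν, u ν t = 0 ∨ u ν t' = 0)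
    (hαβ : α ^ 2 + β ^ 2 = 1)
    (hE : ∑ ν ∈ univ.filter (fun ν => occ2 u v ν ≤ ρ), ∑ t, (α * u ν t + β * v ν t) ^ 2 ≤ E * r)
    (hlam : |lam| ≤ 1 / 2) (hΛ : ∑ ν, ∑ t, v ν t * u ν t = lam * hs u)
    (hδ : 0 < δ) (hB : 0 ≤ B) (hδ1 : δ ≤ 1) (hρ : 0 < ρ)
    (hsmall : 8 * q * (B + 1) ^ 2 * H ^ 2 ≤ ρ * δ ^ 2)
    (hbig : (25 * (E + 3 * δ) + δ) * r < hs u) :
    ∑ ν ∈ univ.filter (fun ν => occ2 u v ν ≤ ρ), ∑ t, (v ν t - lam * u ν t) ^ 2 ≤
      3 * (E + 3 * δ) * r ∧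
    ∑ ν ∈ univ.filter (fun ν => ¬ occ2 u v ν ≤ ρ), ∑ t, u ν t ^ 2 ≤ δ * r := by
  classical
  set R := univ.filter (fun ν => occ2 u v ν ≤ ρ) with hR
  set S := univ.filter (fun ν => ¬ occ2 u v ν ≤ ρ) with hS
  have hcard := card_freq_le (ρ := ρ) u v hu hv
  have hρr : (0:ℝ) < ρ := by exact_mod_cast hρ
  have hSc : (S.card : ℝ) * ρ ≤ 2 * q * r := by exact_mod_cast hcard
  have hq0 : (0:ℝ) ≤ q := Nat.cast_nonneg _
  have hr0 : (0:ℝ) ≤ r := Nat.cast_nonneg _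
  have hsplit : ∀ f : Fin N → ℝ, ∑ ν, f ν = ∑ ν ∈ R, f ν + ∑ ν ∈ S, f ν := by
    intro f
    rw [hR, hS, sum_filter_add_sum_filter_not]
  -- mass of u on S
  have huS : ∑ ν ∈ S, ∑ t, u ν t ^ 2 ≤ (δ / (2 * (B + 1))) ^ 2 * r := by
    refine (hs_few_rows u hu hdis S).trans ?_
    have h2 : (δ / (2 * (B + 1))) ^ 2 * r = (δ ^ 2 * r) / (4 * (B + 1) ^ 2) := by
      field_simp
      ring
    rw [h2, le_div_iff₀ (by positivity)]
    have h3 : ρ * (S.card * H ^ 2 * (4 * (B + 1) ^ 2)) ≤ ρ * (δ ^ 2 * r) := by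
      calc ρ * (S.card * H ^ 2 * (4 * (B + 1) ^ 2)) =
            (S.card * ρ) * (H ^ 2 * (4 * (B + 1) ^ 2)) := by ring
        _ ≤ (2 * q * r) * (H ^ 2 * (4 * (B + 1) ^ 2)) :=
            mul_le_mul_of_nonneg_right hSc (by positivity)
        _ = (8 * q * (B + 1) ^ 2 * H ^ 2) * r := by ring
        _ ≤ (ρ * δ ^ 2) * r := mul_le_mul_of_nonneg_right hsmall hr0
        _ = _ := by ring
    exact le_of_mul_le_mul_left h3 hρr
  have hfrac : δ / (2 * (B + 1)) ≤ δ / 2 := by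
    apply div_le_div_of_nonneg_left hδ.le (by norm_num)
    linarith
  have hfrac0 : 0 ≤ δ / (2 * (B + 1)) := by positivity
  have huS2 : ∑ ν ∈ S, ∑ t, u ν t ^ 2 ≤ δ / 4 * r := by
    refine huS.trans (mul_le_mul_of_nonneg_right ?_ hr0)
    have h1 : (δ / (2 * (B + 1))) ^ 2 ≤ (δ / 2) ^ 2 := pow_le_pow_left₀ hfrac0 hfrac 2
    nlinarith
  have hvS : ∑ ν ∈ S, ∑ t, v ν t ^ 2 ≤ B ^ 2 * r := by
    have h1 : ∑ ν ∈ S, ∑ t, v ν t ^ 2 ≤ ∑ ν, ∑ t, v ν t ^ 2 :=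
      sum_le_sum_of_subset_of_nonneg (subset_univ _) fun _ _ _ => by positivity
    refine h1.trans ?_
    rw [sum_comm]
    refine (sum_le_sum fun t _ => (hv t).2.2).trans (le_of_eq ?_)
    rw [sum_const, card_univ, Fintype.card_fin, nsmul_eq_mul]
    ring
  have hvuS : |∑ ν ∈ S, ∑ t, v ν t * u ν t| ≤ δ / 2 * r := by
    have h1 : (∑ ν ∈ S, ∑ t, v ν t * u ν t) ^ 2 ≤
        (∑ ν ∈ S, ∑ t, v ν t ^ 2) * ∑ ν ∈ S, ∑ t, u ν t ^ 2 := by
      have h2 := sum_mul_sq_le_sq_mul_sq (S ×ˢ (univ : Finset (Fin r)))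
        (fun p => v p.1 p.2) (fun p => u p.1 p.2)
      simpa [sum_product] using h2
    have h3 : (∑ ν ∈ S, ∑ t, v ν t * u ν t) ^ 2 ≤ (δ / 2 * r) ^ 2 := by
      refine h1.trans ?_
      calc (∑ ν ∈ S, ∑ t, v ν t ^ 2) * ∑ ν ∈ S, ∑ t, u ν t ^ 2
          ≤ (B ^ 2 * r) * ((δ / (2 * (B + 1))) ^ 2 * r) :=
            mul_le_mul hvS huS (by positivity) (by positivity)
        _ = (B / (B + 1)) ^ 2 * (δ / 2 * r) ^ 2 := by
            field_simp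
        _ ≤ 1 * (δ / 2 * r) ^ 2 := by
            refine mul_le_mul_of_nonneg_right ?_ (sq_nonneg _)
            refine pow_le_one₀ (by positivity) ?_
            rw [div_le_one (by positivity)]
            linarith
        _ = _ := one_mul _
    exact abs_le_of_sq_le_sq h3 (by positivity)
  set aR := ∑ ν ∈ R, ∑ t, u ν t ^ 2 with haR
  set qR := ∑ ν ∈ R, ∑ t, v ν t * u ν t with hqR
  set bR := ∑ ν ∈ R, ∑ t, v ν t ^ 2 with hbR
  have hUeq : hs u = aR + ∑ ν ∈ S, ∑ t, u ν t ^ 2 := hsplit _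
  have hΛeq : lam * hs u = qR + ∑ ν ∈ S, ∑ t, v ν t * u ν t := by rw [← hΛ]; exact hsplit _
  have huS0 : 0 ≤ ∑ ν ∈ S, ∑ t, u ν t ^ 2 := by positivity
  have hd : |qR - lam * aR| ≤ δ * r := by
    have h1 : qR - lam * aR = lam * ∑ ν ∈ S, ∑ t, u ν t ^ 2 - ∑ ν ∈ S, ∑ t, v ν t * u ν t := by
      have : qR = lam * hs u - ∑ ν ∈ S, ∑ t, v ν t * u ν t := by linarith
      rw [this, hUeq]
      ring
    rw [h1]
    refine (abs_sub _ _).trans ?_
    rw [abs_mul, abs_of_nonneg huS0]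
    have h2 : |lam| * ∑ ν ∈ S, ∑ t, u ν t ^ 2 ≤ 1 / 2 * (δ / 4 * r) :=
      mul_le_mul hlam huS2 huS0 (by norm_num)
    have h3 : 0 ≤ δ * r := by positivity
    nlinarith
  have hexp1 : ∑ ν ∈ R, ∑ t, (α * u ν t + β * v ν t) ^ 2 =
      α ^ 2 * aR + 2 * α * β * qR + β ^ 2 * bR := by
    rw [haR, hqR, hbR]
    simp only [mul_sum, ← sum_add_distrib]
    exact sum_congr rfl fun ν _ => sum_congr rfl fun t _ => by ring
  have hexp2 : ∑ ν ∈ R, ∑ t, (v ν t - lam * u ν t) ^ 2 =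
      bR - 2 * lam * qR + lam ^ 2 * aR := by
    rw [haR, hqR, hbR]
    simp only [mul_sum, ← sum_add_distrib, ← sum_sub_distrib]
    exact sum_congr rfl fun ν _ => sum_congr rfl fun t _ => by ring
  have haR0 : 0 ≤ aR := by positivity
  have hG : 0 ≤ bR - 2 * lam * qR + lam ^ 2 * aR := by rw [← hexp2]; positivity
  rw [hexp1] at hE
  have hbig' : 25 * (E * r + 3 * (δ * r)) < aR := by
    have h1 : δ / 4 * r ≤ δ * r := by nlinarith
    nlinarith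
  have h := gram_alg hαβ haR0 hG hE hlam hd hbig'
  refine ⟨?_, huS2.trans (mul_le_mul_of_nonneg_right (by linarith) hr0)⟩
  rw [hexp2]
  refine h.trans (le_of_eq ?_)
  ring

end Run7.h35.NEG
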