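import Pool.Agent.Run7.h35.NEG.Core4

set_option autoImplicit false

namespace Run7.h35.NEG

open Finset Module

/-- Step 3: the annihilating family and RIG -/
theorem core_rig (hANN : S_ANN) (hRIG : S_RIG) {T : Tower} {H₂ ε C₀ : ℝ} {g Γ : ℕ}
    (hT : T.OK H₂ ε C₀ g Γ) (hg : 4 ≤ g) (hε : 0 < ε) (ha : 4 ≤ T.a)
    (hta : T.top ≤ T.a) {i : ℕ} (hi : i < T.top) {r : ℕ} (hr1 : 1 ≤ r) (hr2 : r ≤ 2 ^ T.a)
    (hrC : C₀ * T.a * T.n i ^ 2 ≤ r) {E : Type} [NormedAddCommGroup E] [NormedSpace ℝ E]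
    (X : TowerSpace T E) (z w : Fin r → E) (y Y : (s : ℕ) → Fin (T.n s) → Fin r → ℝ)
    (c c' : ℕ → Fin (2 ^ T.a) → Fin r → ℝ) {κ κ' δ' : ℝ}
    (hrep : X.Rep z y c) (hlow : ∀ s < i, c s = 0)
    (hsg : ∀ t, SG T.a (T.k i ^ 3) H₂ (fun ν => c i ν t))
    (hsg' : ∀ t, SG T.a (T.k i ^ 3) H₂ (fun ν => T.accJ c' i ν t))
    (hrep' : X.Rep w Y c') (hy : hs (y i) ≤ κ * r) (hY : hs (Y i) ≤ κ' * r) (hδ' : 0 ≤ δ')
    (hclean : ∀ v : Fin r → ℝ, (∀ s ≤ i, X.lev s (∑ j, v j • z j) = 0) →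
      ∑ b, (X.lev i (∑ j, v j • w j) b) ^ 2 ≤ δ' * r / T.n i * ∑ j, v j ^ 2) :
    ∃ α β : ℝ, α ^ 2 + β ^ 2 = 1 ∧
      ∑ ν ∈ univ.filter (fun ν => occ2 (c i) (T.accJ c' i) ν ≤ T.k i ^ 10), ∑ t,
        (α * c i ν t + β * T.accJ c' i ν t) ^ 2 ≤ (8 * (δ' + κ + κ') + 2 * ε) * r := by
  have hn1 : 1 ≤ T.n i := by
    rw [hT.n_eq i hi]; exact Nat.one_le_pow _ _ (hT.k_pos i)
  have hnr : (0:ℝ) < T.n i := by exact_mod_cast hn1
  have hsum := sum_n_le hT (by omega) ha hta hi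
  set m := ∑ s ∈ range i, T.n s with hm
  have hA := hANN (T.n i) m r (fun b j => X.lev i (z j) b) ((s : Fin i) × Fin (T.n s))
    (fun p j => X.lev p.1 (z j) p.2) (fun b j => X.lev i (w j) b) (δ' * r / T.n i)
    (by
      rw [Fintype.card_sigma, hm, ← Fin.sum_univ_eq_sum_range]
      simp) (by omega) (by positivity)
    (by
      intro v h1 h2
      have h3 := hclean v (by
        intro s hs'
        ext b
        rw [lev_sum]
        rcases hs'.lt_or_eq with h4 | h4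
        · exact h2 ⟨⟨s, h4⟩, b⟩
        · subst h4
          exact h1 b)
      refine le_trans (le_of_eq ?_) h3
      exact sum_congr rfl fun b _ => by rw [lev_sum])
  obtain ⟨p, p', hp, hpp⟩ := hA
  refine hRIG T H₂ ε C₀ g Γ hε hT i hi r hr1 hr2 hrC (c i) (T.accJ c' i) (y i) (Y i)
    (fun b j => X.lev i (z j) b) (fun b j => X.lev i (w j) b) κ κ' δ' hsg hsg' ?_ ?_ hy hY hδ'
    (T.n i - m) (by omega) p p' hp ?_
  · intro b j
    show X.lev i (z j) b = _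
    rw [hrep i hi.le b j, ← acc_low c hlow]
    rfl
  · intro b j
    show X.lev i (w j) b = _
    rw [hrep' i hi.le b j]
    rfl
  · refine hpp.trans (le_of_eq ?_)
    field_simp

/-- Step 4: the final contradiction at the middle projection -/
theorem core_final (hLOWB : S_LOWB) (hUPB : S_UPB) (K top : ℕ) (hK4 : 4 ≤ K) (H B δ : ℝ)
    (hH : 1 ≤ H) (hB : 1 ≤ B) (hδ : 0 < δ) :
    ∃ ε₀ : ℝ, 0 < ε₀ ∧ ∃ Γ : ℕ,
    ∀ (H₂ ε C₀ : ℝ) (g : ℕ) (T : Tower), 4 ≤ g → 0 < ε → ε ≤ ε₀ → ε < 1 →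
    T.K = K → T.top = top → T.OK H₂ ε C₀ g Γ →
    ∀ (E : Type) [NormedAddCommGroup E] [NormedSpace ℝ E] (X : TowerSpace T E),
    ∀ i < top, ∀ r : ℕ, 1 ≤ r → T.n i ^ 3 ≤ r → r ^ 4 ≤ T.k (i + 1) →
    ∀ (z w : Fin r → E) (y : (s : ℕ) → Fin (T.n s) → Fin r → ℝ)
      (c : ℕ → Fin (2 ^ T.a) → Fin r → ℝ) (Y : (s : ℕ) → Fin (T.n s) → Fin r → ℝ)
      (Cc : ℕ → Fin (2 ^ T.a) → Fin r → ℝ) (A κ lam C H' D : ℝ) (S : Finset (Fin (2 ^ T.a))),
      X.Rep z y c → (∀ s < i, c s = 0) → (∀ t, SG T.a (T.k i ^ 3) H (fun ν => c i ν t)) →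
      (∀ t t', t ≠ t' → ∀ ν, c i ν t = 0 ∨ c i ν t' = 0) →
      T.mc y (T.above i c) ≤ κ * r → 0 ≤ κ →
      X.Rep w Y Cc → T.Sparse Cc H' →
      ∑ t, T.cost (fun s b => Y s b t) (fun s ν => Cc s ν t) ≤ A * r → 0 ≤ A →
      ((top : ℝ) + 1) ^ 2 * (K : ℝ) ^ (2 * top) * A ≤ B → ∑ j, ‖w j‖ ^ 2 ≤ B * r →
      S.card * T.k i ^ 7 ≤ 2 * r →
      |lam| ≤ 1 / 2 → hs (c i) / 4 ≤ ∑ ν, ∑ t, T.accJ Cc i ν t * c i ν t →
      (∑ ν ∈ Sᶜ, ∑ t, (T.accJ Cc i ν t - lam * c i ν t) ^ 2 + ∑ ν ∈ S, ∑ t, c i ν t ^ 2 + A * r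
        ≤ D * r) → κ ≤ D → δ ≤ D → 0 ≤ C →
      (∀ s ≤ i, ∀ v : Fin r → ℝ, (∀ s ≤ i, X.lev s (∑ j, v j • z j) = 0) →
        ∑ b, (X.lev s (∑ j, v j • w j) b) ^ 2 ≤ (δ / 2) * r / T.n i * ∑ j, v j ^ 2) →
      (∀ α : Fin r → ℝ, (1 / 2) * ‖∑ j, α j • w j‖ ≤ C * ‖∑ j, α j • (w j - lam • z j)‖) →
      A * r ≤ hs (c i) / 100 → δ * r ≤ hs (c i) / 1000 → 0 ≤ H' →
      hs (c i) ≤ 36 * 9 * 4 * 61 * C ^ 2 * D * r := by
  classical
  obtain ⟨ε₀, hε₀, Γ₁, hΓ₁⟩ := hLOWB K top H B δ (by omega) hH hB hδ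
  obtain ⟨Γ₂, hΓ₂⟩ := hUPB K top (by omega)
  refine ⟨ε₀, hε₀, max (max Γ₁ Γ₂) (top + 4), ?_⟩
  intro H₂ ε C₀ g T hg hε hεle hε1 hTK hTtop hT E _ _ X i hi r hr1 hr hr4 z w y c Y Cc A κ lam C
    H' D S hrep hlow hsg hdis hmc hκ0 hRep hSp hcost hA0 hAB hwB hScard hlam hΛ hD hκD hδD hC hcl
    hproj hA hδr hH'
  have hT1 : T.OK H₂ ε C₀ g Γ₁ :=
    { hT with base := ((le_max_left _ _).trans (le_max_left _ _)).trans hT.base }
  have hT2 : T.OK H₂ ε C₀ g Γ₂ :=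
    { hT with base := ((le_max_right _ _).trans (le_max_left _ _)).trans hT.base }
  have hbase : top + 4 ≤ T.a := (le_max_right _ _).trans hT.base
  have hK1 : 1 ≤ T.K := by omega
  have hKr : (4 : ℝ) ≤ K := by exact_mod_cast hK4
  have hi' : i < T.top := by omega
  have hr0 : (1 : ℝ) ≤ r := by exact_mod_cast hr1
  have hn1 : 1 ≤ T.n i := by
    rw [hT.n_eq i hi']; exact Nat.one_le_pow _ _ (hT.k_pos i)
  have hnr : (0:ℝ) < T.n i := by exact_mod_cast hn1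
  have hk4 : 4 ≤ T.k i := by have := hT.k_ge i; omega
  have hsum := sum_n_le hT (by omega) (by omega) (by omega) hi'
  have hsum' : ∑ s ∈ range (i + 1), T.n s ≤ 2 * T.n i := by
    rw [sum_range_succ]; omega
  set U := hs (c i) with hU
  have hU0 : 0 ≤ U := hs_nonneg _
  -- the subspace V
  set ℓ : ((s : Fin (i + 1)) × Fin (T.n s)) ⊕ {x // x ∈ S} → ((Fin r → ℝ) →ₗ[ℝ] ℝ) :=
    Sum.elim (fun p => ∑ j, (X.lev p.1 (z j) p.2) • (LinearMap.proj j : (Fin r → ℝ) →ₗ[ℝ] ℝ))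
      (fun ν => ∑ j, (T.accJ Cc i ν.1 j) • (LinearMap.proj j : (Fin r → ℝ) →ₗ[ℝ] ℝ)) with hℓ
  set V := LinearMap.ker (LinearMap.pi ℓ) with hV
  have hV1 : ∀ v ∈ V, ∀ s ≤ i, X.lev s (∑ j, v j • z j) = 0 := by
    intro v hv s hs'
    ext b
    rw [lev_sum]
    have h1 := congrFun (LinearMap.mem_ker.mp hv) (Sum.inl ⟨⟨s, by omega⟩, b⟩)
    simpa [hℓ, LinearMap.sum_apply] using h1
  have hV2 : ∀ v ∈ V, ∀ ν ∈ S, ∑ j, T.accJ Cc i ν j * v j = 0 := by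
    intro v hv ν hν
    have h1 := congrFun (LinearMap.mem_ker.mp hv) (Sum.inr ⟨ν, hν⟩)
    simpa [hℓ, LinearMap.sum_apply] using h1
  have hVdim : (r : ℝ) - finrank ℝ V ≤ (∑ s ∈ range (i + 1), T.n s) + S.card := by
    have h1 := finrank_ker_ge ℓ
    rw [← hV] at h1
    refine h1.trans (le_of_eq ?_)
    rw [Fintype.card_sum, Fintype.card_sigma, Fintype.card_coe]
    push_cast
    congr 1
    simp only [Fintype.card_fin]
    rw [← Fin.sum_univ_eq_sum_range (fun s => (T.n s : ℝ))]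
  have hcodim : ((r : ℝ) - finrank ℝ V) * (T.k i : ℝ) ^ 5 ≤ r := by
    have hk0 : (0:ℝ) ≤ (T.k i : ℝ) ^ 5 := by positivity
    refine (mul_le_mul_of_nonneg_right hVdim hk0).trans ?_
    have h1 : (∑ s ∈ range (i + 1), T.n s + S.card) * T.k i ^ 5 ≤ r := by
      have h2 : 8 * (T.n i * T.k i ^ 5) ≤ T.n i ^ 3 := by
        have h3 : 8 * T.k i ^ 5 ≤ T.n i ^ 2 := by
          rw [hT.n_eq i hi', ← pow_mul]
          have h4 : T.k i ^ 7 ≤ T.k i ^ (30 * 2) := Nat.pow_le_pow_right (by omega) (by norm_num)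
          have h5 : 8 * T.k i ^ 5 ≤ T.k i ^ 7 := by
            have : T.k i ^ 7 = (T.k i * T.k i) * T.k i ^ 5 := by ring
            rw [this]
            exact Nat.mul_le_mul_right _ (by nlinarith)
          omega
        calc 8 * (T.n i * T.k i ^ 5) = T.n i * (8 * T.k i ^ 5) := by ring
          _ ≤ T.n i * T.n i ^ 2 := Nat.mul_le_mul_left _ h3
          _ = T.n i ^ 3 := by ring
      have h6 : 8 * (S.card * T.k i ^ 5) ≤ r := by
        have h7 : 16 * (S.card * T.k i ^ 5) ≤ S.card * T.k i ^ 7 := by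
          have : S.card * T.k i ^ 7 = (T.k i * T.k i) * (S.card * T.k i ^ 5) := by ring
          rw [this]
          exact Nat.mul_le_mul_right _ (by nlinarith)
        omega
      calc (∑ s ∈ range (i + 1), T.n s + S.card) * T.k i ^ 5
          ≤ (2 * T.n i + S.card) * T.k i ^ 5 := Nat.mul_le_mul_right _ (by omega)
        _ = 2 * (T.n i * T.k i ^ 5) + S.card * T.k i ^ 5 := by ring
        _ ≤ r := by omega
    have h2 : (((∑ s ∈ range (i + 1), T.n s + S.card) * T.k i ^ 5 : ℕ) : ℝ) ≤ (r : ℝ) := by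
      exact_mod_cast h1
    exact_mod_cast h2
  -- UPB
  have hlevV : ∀ s ≤ i, ∀ v ∈ V, ∑ b, (X.lev s (∑ j, v j • w j) b) ^ 2 ≤
      (δ / 2) * r / T.n i * ∑ j, v j ^ 2 := fun s hs' v hv => hcl s hs' v (hV1 v hv)
  have hupb := hΓ₂ H₂ ε C₀ g T hg hε hε1 hTK hTtop hT2 E X i hi r hr hr4 z w y Y c Cc (max H H') κ A
    δ lam V S hrep hlow (fun t => (hsg t).mono le_rfl (by linarith) (le_max_left _ _)) hmc hRep
    (fun s j => (hSp s j).mono le_rfl hH' (le_max_right _ _)) hcost (by linarith) hV1 hV2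
    (by
      have h1 : ∀ s ∈ range (i + 1), ∑ b : Fin (T.n s), ∑ j, proj V (fun j => X.lev s (w j) b) j ^ 2
          ≤ T.n s * ((δ / 2) * r / T.n i) := by
        intro s hs'
        rw [mem_range] at hs'
        have h2 : ∀ b ∈ (univ : Finset (Fin (T.n s))),
            ∑ j, proj V (fun j => X.lev s (w j) b) j ^ 2 ≤ (δ / 2) * r / T.n i :=
          fun b _ => proj_row_le X w V (by positivity) (hlevV s (by omega)) b
        refine (sum_le_sum h2).trans (le_of_eq ?_)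
        rw [sum_const, card_univ, Fintype.card_fin, nsmul_eq_mul]
      refine (sum_le_sum h1).trans ?_
      rw [← sum_mul]
      have h3 : (∑ s ∈ range (i + 1), (T.n s : ℝ)) ≤ 2 * T.n i := by exact_mod_cast hsum'
      calc (∑ s ∈ range (i + 1), (T.n s : ℝ)) * ((δ / 2) * r / T.n i)
          ≤ 2 * T.n i * ((δ / 2) * r / T.n i) := mul_le_mul_of_nonneg_right h3 (by positivity)
        _ = δ * r := by field_simp)
  have hD0 : 0 ≤ D := hκ0.trans hκD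
  have hXW : ∑ e, ‖mixE (signA V) (fun j => w j - lam • z j) e‖ ^ 2 ≤ 61 * (K : ℝ) ^ 2 * D * r := by
    refine hupb.trans ?_
    have h1 : 30 * (K : ℝ) ^ 2 * (∑ ν ∈ Sᶜ, ∑ j, (T.accJ Cc i ν j - lam * c i ν j) ^ 2 +
          ∑ ν ∈ S, ∑ j, c i ν j ^ 2 + A * r) ≤ 30 * (K : ℝ) ^ 2 * (D * r) :=
      mul_le_mul_of_nonneg_left hD (by positivity)
    have h2 : δ * r ≤ D * r := mul_le_mul_of_nonneg_right hδD (by linarith)
    have h3 : κ * r ≤ D * r := mul_le_mul_of_nonneg_right hκD (by linarith)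
    have h4 : (1:ℝ) ≤ (K : ℝ) ^ 2 := one_le_pow₀ (by linarith)
    have h5 : 0 ≤ D * r := by positivity
    nlinarith
  have hXw : ∑ e, ‖mixE (signA V) w e‖ ^ 2 ≤ 4 * C ^ 2 * (61 * (K : ℝ) ^ 2 * D * r) := by
    have h1 : ∀ e ∈ (univ : Finset (Fin r → Bool)), ‖mixE (signA V) w e‖ ^ 2 ≤
        4 * C ^ 2 * ‖mixE (signA V) (fun j => w j - lam • z j) e‖ ^ 2 := by
      intro e _
      have h2 := hproj (signA V e)
      have h3 : ‖mixE (signA V) w e‖ ≤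
          2 * C * ‖mixE (signA V) (fun j => w j - lam • z j) e‖ := by
        unfold mixE
        linarith
      have h4 := pow_le_pow_left₀ (norm_nonneg _) h3 2
      refine h4.trans (le_of_eq ?_)
      ring
    refine (sum_le_sum h1).trans ?_
    rw [← mul_sum]
    exact mul_le_mul_of_nonneg_left hXW (by positivity)
  -- LOWB
  have hle1 : (1:ℝ) ≤ ((i : ℝ) + 1) := by have : (0:ℝ) ≤ i := Nat.cast_nonneg _; linarith
  have hit : ((i : ℝ) + 1) ≤ (top : ℝ) + 1 := by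
    have : (i : ℝ) ≤ top := by exact_mod_cast hi.le
    linarith
  have hKK : (T.K : ℝ) ^ (2 * i) ≤ (K : ℝ) ^ (2 * top) := by
    rw [hTK]
    exact pow_le_pow_right₀ (by linarith) (by omega)
  have hAle : A ≤ B := by
    refine le_trans ?_ hAB
    have h1 : (1:ℝ) ≤ ((top : ℝ) + 1) ^ 2 * (K : ℝ) ^ (2 * top) := by
      have h2 : (1:ℝ) ≤ ((top : ℝ) + 1) ^ 2 := one_le_pow₀ (by linarith)
      have h3 : (1:ℝ) ≤ (K : ℝ) ^ (2 * top) := one_le_pow₀ (by linarith)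
      nlinarith
    nlinarith
  have hcs := col_sums hT (by omega) hK1 Y Cc hcost (by omega : i + 1 ≤ T.top)
  have hcs' := col_sums hT (by omega) hK1 Y Cc hcost (by omega : i ≤ T.top)
  have hb1 : ((i : ℝ) + 1) * (T.K : ℝ) ^ (2 * i) * (A * r) ≤ B * r := by
    have : ((i : ℝ) + 1) * (T.K : ℝ) ^ (2 * i) ≤ ((top : ℝ) + 1) ^ 2 * (K : ℝ) ^ (2 * top) := by
      refine mul_le_mul ?_ hKK (by positivity) (by positivity)
      nlinarith
    calc ((i : ℝ) + 1) * (T.K : ℝ) ^ (2 * i) * (A * r)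
        ≤ ((top : ℝ) + 1) ^ 2 * (K : ℝ) ^ (2 * top) * (A * r) :=
          mul_le_mul_of_nonneg_right this (by positivity)
      _ = (((top : ℝ) + 1) ^ 2 * (K : ℝ) ^ (2 * top) * A) * r := by ring
      _ ≤ B * r := mul_le_mul_of_nonneg_right hAB (by positivity)
  have hb2 : ((i : ℝ) + 1) ^ 2 * (T.K : ℝ) ^ (2 * i) * T.k i * (A * r) ≤
      (T.k i : ℝ) ^ 4 * (B * r) := by
    have h1 : ((i : ℝ) + 1) ^ 2 * (T.K : ℝ) ^ (2 * i) ≤
        ((top : ℝ) + 1) ^ 2 * (K : ℝ) ^ (2 * top) :=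
      mul_le_mul (pow_le_pow_left₀ (by positivity) hit 2) hKK (by positivity) (by positivity)
    have hk1 : (1:ℝ) ≤ T.k i := by exact_mod_cast hT.k_pos i
    have h2 : (T.k i : ℝ) ≤ (T.k i : ℝ) ^ 4 := by
      calc (T.k i : ℝ) = (T.k i : ℝ) ^ 1 := (pow_one _).symm
        _ ≤ (T.k i : ℝ) ^ 4 := pow_le_pow_right₀ hk1 (by norm_num)
    calc ((i : ℝ) + 1) ^ 2 * (T.K : ℝ) ^ (2 * i) * T.k i * (A * r)
        = (T.k i : ℝ) * ((((i : ℝ) + 1) ^ 2 * (T.K : ℝ) ^ (2 * i)) * (A * r)) := by ring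
      _ ≤ (T.k i : ℝ) ^ 4 * ((((top : ℝ) + 1) ^ 2 * (K : ℝ) ^ (2 * top)) * (A * r)) := by
          refine mul_le_mul h2 (mul_le_mul_of_nonneg_right h1 (by positivity))
            (by positivity) (by positivity)
      _ = (T.k i : ℝ) ^ 4 * ((((top : ℝ) + 1) ^ 2 * (K : ℝ) ^ (2 * top) * A) * r) := by ring
      _ ≤ _ := by
          refine mul_le_mul_of_nonneg_left ?_ (by positivity)
          exact mul_le_mul_of_nonneg_right hAB (by positivity)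
  have hlow' := hΓ₁ H₂ ε C₀ g T hg hε hεle hε1 hTK hTtop hT1 E X i hi r hr hr4 (c i) w Y Cc A V
    hsg hdis hRep hcs.1 hAle
    (hcs.2.1.trans (mul_le_mul_of_nonneg_left
      (mul_le_mul_of_nonneg_right hAle (by positivity)) (by positivity)))
    (hcs'.2.2.1.trans hb1) (hcs'.2.2.2.trans hb2) hwB hcodim
  have hΛ' : ∑ j, ∑ ν, T.accJ Cc i ν j * c i ν j = ∑ ν, ∑ t, T.accJ Cc i ν t * c i ν t := sum_comm
  rw [hΛ'] at hlow'
  set Λ := ∑ ν, ∑ t, T.accJ Cc i ν t * c i ν t with hΛd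
  set Xw := ∑ e, ‖mixE (signA V) w e‖ ^ 2 with hXwd
  have hsA := sqrt_small hU0 hA
  have hXw0 : 0 ≤ Xw := by positivity
  have hmain : K * U / 6 ≤ 3 * Real.sqrt U * Real.sqrt Xw := by
    have h1 : K * (U / 4) ≤ K * Λ := mul_le_mul_of_nonneg_left hΛ (by linarith)
    nlinarith
  have hsU := Real.mul_self_sqrt hU0
  have hfin : (K * U / 6) ^ 2 ≤ (3 * Real.sqrt U * Real.sqrt Xw) ^ 2 :=
    pow_le_pow_left₀ (by positivity) hmain 2
  have h2 : (3 * Real.sqrt U * Real.sqrt Xw) ^ 2 = 9 * U * Xw := by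
    rw [mul_pow, mul_pow, Real.sq_sqrt hU0, Real.sq_sqrt hXw0]
    ring
  rw [h2] at hfin
  have hUpos : 0 < U := by
    have : 0 < δ * r := by positivity
    linarith
  have h3 : (K : ℝ) ^ 2 * U ≤ 36 * 9 * Xw := by
    have h4 : U * ((K : ℝ) ^ 2 * U) ≤ U * (36 * 9 * Xw) := by nlinarith
    exact le_of_mul_le_mul_left h4 hUpos
  have h5 : (K : ℝ) ^ 2 * U ≤ (K : ℝ) ^ 2 * (36 * 9 * 4 * 61 * C ^ 2 * D * r) := by
    nlinarith
  exact le_of_mul_le_mul_left h5 (by positivity)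

end Run7.h35.NEG
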