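import Pool.Agent.Run7.h35.NEG.Core5

set_option autoImplicit false

namespace Run7.h35.NEG

open Finset Module

/-- the numerical facts -/
theorem core_nums {C κ δ ε A E₁ U r H : ℝ} (hC : 1 ≤ C) (hκ : 0 ≤ κ) (hδ : 0 < δ) (hεδ : ε ≤ δ)
    (hr : 1 ≤ r) (hA : A = 2 * C ^ 2 * κ + δ) (hE : E₁ = 8 * (δ + κ + A) + 2 * ε)
    (hcon : 10000000 * C ^ 4 * (κ + δ) * r < U) (hUH : U ≤ H ^ 2 * r) :
    A ≤ 2 * C ^ 2 * (κ + δ) ∧ A * r ≤ U / 100 ∧ κ * r ≤ U / 100 ∧ δ * r ≤ U / 1000 ∧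
      (25 * (E₁ + 3 * δ) + δ) * r < U ∧ 3 * (E₁ + 3 * δ) + δ + A ≤ 120 * C ^ 2 * (κ + δ) ∧
      κ ≤ 120 * C ^ 2 * (κ + δ) ∧ δ ≤ 120 * C ^ 2 * (κ + δ) ∧ κ + δ ≤ H ^ 2 := by
  have hC2 : (1:ℝ) ≤ C ^ 2 := one_le_pow₀ hC
  have hC24 : C ^ 2 ≤ C ^ 4 := pow_le_pow_right₀ hC (by norm_num)
  have hκδ : 0 < κ + δ := by linarith
  have hκδr : 0 < (κ + δ) * r := by positivity
  have hbound : ∀ x : ℝ, 0 ≤ x → x ≤ 10000000 → x * C ^ 2 * ((κ + δ) * r) < U := by
    intro x hx0 hx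
    have h1 : x * C ^ 2 ≤ 10000000 * C ^ 4 := mul_le_mul hx hC24 (by positivity) (by norm_num)
    have h2 := mul_le_mul_of_nonneg_right h1 hκδr.le
    linarith
  have hA2 : A ≤ 2 * C ^ 2 * (κ + δ) := by rw [hA]; nlinarith
  have hκC : κ ≤ C ^ 2 * (κ + δ) := by nlinarith
  have hδC : δ ≤ C ^ 2 * (κ + δ) := by nlinarith
  have hE1 : E₁ ≤ 34 * (C ^ 2 * (κ + δ)) := by rw [hE]; nlinarith
  have hr0 : 0 ≤ r := by linarith
  refine ⟨hA2, ?_, ?_, ?_, ?_, ?_, ?_, ?_, ?_⟩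
  · have h1 := hbound 200 (by norm_num) (by norm_num)
    have h2 := mul_le_mul_of_nonneg_right hA2 hr0
    linarith
  · have h1 := hbound 100 (by norm_num) (by norm_num)
    have h2 := mul_le_mul_of_nonneg_right hκC hr0
    linarith
  · have h1 := hbound 1000 (by norm_num) (by norm_num)
    have h2 := mul_le_mul_of_nonneg_right hδC hr0
    linarith
  · have h1 := hbound 1000 (by norm_num) (by norm_num)
    have h3 : 25 * (E₁ + 3 * δ) + δ ≤ 1000 * (C ^ 2 * (κ + δ)) := by linarith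
    have h2 := mul_le_mul_of_nonneg_right h3 hr0
    linarith
  · linarith
  · linarith
  · linarith
  · have h1 := hbound 1 (by norm_num) (by norm_num)
    have h2 : 1 * ((κ + δ) * r) ≤ C ^ 2 * ((κ + δ) * r) := mul_le_mul_of_nonneg_right hC2 hκδr.le
    have h3 : (κ + δ) * r ≤ H ^ 2 * r := by linarith
    exact le_of_mul_le_mul_right h3 (by linarith)

theorem core (hANN : S_ANN) (hPAIR : S_PAIR) (hLOWB : S_LOWB) (hUPB : S_UPB) (hRIG : S_RIG)
    (hSPARSE : S_SPARSE) : S_CORE := by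
  classical
  intro C hC
  refine ⟨10000000 * C ^ 4, ?_, 4, ?_⟩
  · have : (1:ℝ) ≤ C ^ 4 := one_le_pow₀ hC
    linarith
  intro K hK4 top H M δ₀ hH hM hδ₀
  -- reduce to `δ ≤ 1`
  set δ := min δ₀ 1 with hδdef
  have hδ : 0 < δ := lt_min hδ₀ one_pos
  have hδ1 : δ ≤ 1 := min_le_right _ _
  have hδle : δ ≤ δ₀ := min_le_left _ _
  have hKr : (4:ℝ) ≤ K := by exact_mod_cast hK4
  have hC2 : (1:ℝ) ≤ C ^ 2 := one_le_pow₀ hC
  set B : ℝ := ((top : ℝ) + 1) ^ 2 * (K : ℝ) ^ (2 * top) * (2 * C ^ 2 * H ^ 2 + 1) +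
    4 * C ^ 2 * H ^ 2 + 1 with hB
  have hB1 : 1 ≤ B := by
    have : 0 ≤ ((top : ℝ) + 1) ^ 2 * (K : ℝ) ^ (2 * top) *
      (2 * C ^ 2 * H ^ 2 + 1) + 4 * C ^ 2 * H ^ 2 := by positivity
    rw [hB]
    linarith
  set Lc : ℝ := 24 * ((top : ℝ) + 1) ^ 2 * (K : ℝ) ^ (2 * top) with hLc
  have hLc0 : 0 < Lc := by positivity
  obtain ⟨Γs, hΓs⟩ := sparse_tuple hSPARSE K top (C * M) δ
    (one_le_mul_of_one_le_of_one_le hC hM) hδ
  obtain ⟨ε₁, hε₁, Γ₁, hmid⟩ := core_middle hPAIR K top hK4 H B δ hH hB1 hδ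
  obtain ⟨ε₂, hε₂, Γ₂, hfin⟩ := core_final hLOWB hUPB K top hK4 H B δ hH hB1 hδ
  set Bg : ℝ := ((top : ℝ) + 1) * (K : ℝ) ^ top * (2 * (C * M)) with hBg
  have hBg0 : 0 ≤ Bg := by positivity
  set ε := min (min ε₁ ε₂) (min δ (1 / 2)) with hεdef
  have hε : 0 < ε := lt_min (lt_min hε₁ hε₂) (lt_min hδ (by norm_num))
  have hεε₁ : ε ≤ ε₁ := (min_le_left _ _).trans (min_le_left _ _)
  have hεε₂ : ε ≤ ε₂ := (min_le_left _ _).trans (min_le_right _ _)
  have hεδ : ε ≤ δ := (min_le_right _ _).trans (min_le_left _ _)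
  have hε1 : ε < 1 := lt_of_le_of_lt ((min_le_right _ _).trans (min_le_right _ _)) (by norm_num)
  set δ₁ := δ / (2 * Lc * C ^ 2) with hδ₁
  have hδ₁0 : 0 < δ₁ := by positivity
  set H₂ := H + Bg + 1 with hH₂
  refine ⟨δ₁, H₂, ε, hδ₁0, by linarith, hε, hε1, ?_⟩
  intro C₀ hC₀
  set Γ₄ : ℕ := Nat.ceil C₀ with hΓ₄
  set Γ₅ : ℕ := Nat.ceil (8 * (Bg + 1) ^ 2 * H ^ 2 / δ ^ 2) with hΓ₅
  refine ⟨max (max (max Γs Γ₁) (max Γ₂ Γ₄)) (max Γ₅ (top + 4)), ?_⟩
  intro g T hg hTK hTtop hT E _ _ _ X F hF i hi r hr hr4 z y c hzF hrep hlow hsg hdis hzM hclean κ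
    hcost
  have hbase := hT.base
  have hb1 : Γs ≤ T.a := by omega
  have hb2 : Γ₁ ≤ T.a := by omega
  have hb3 : Γ₂ ≤ T.a := by omega
  have hb4 : Γ₄ ≤ T.a := by omega
  have hb5 : Γ₅ ≤ T.a := by omega
  have hb6 : top + 4 ≤ T.a := by omega
  have hTs : T.OK H₂ ε C₀ g Γs := { hT with base := hb1 }
  have hT1 : T.OK H₂ ε C₀ g Γ₁ := { hT with base := hb2 }
  have hT2 : T.OK H₂ ε C₀ g Γ₂ := { hT with base := hb3 }
  have hi' : i < T.top := by omega
  have hK1 : 1 ≤ T.K := by omega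
  have hn1 : 1 ≤ T.n i := by
    rw [hT.n_eq i hi']; exact Nat.one_le_pow _ _ (hT.k_pos i)
  have hnr : (0:ℝ) < T.n i := by exact_mod_cast hn1
  have hr1 : 1 ≤ r := le_trans (Nat.one_le_pow _ _ hn1) hr
  have hr0 : (1:ℝ) ≤ r := by exact_mod_cast hr1
  have hka := hT.k_ge i
  have hmc0 := mc_nonneg y (T.above i c)
  have hz0 : 0 ≤ ∑ t, ‖z t‖ ^ 2 := by positivity
  have hκ0 : 0 ≤ κ := by
    have : 0 ≤ κ * r := by linarith only [hcost, hmc0, hz0]
    exact nonneg_of_mul_nonneg_left this (by linarith only [hr0])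
  have hUe : ∑ t, ∑ ν, c i ν t ^ 2 = hs (c i) := by unfold hs; rw [sum_comm]
  rw [hUe]
  -- contradiction hypothesis
  by_contra hcon
  push Not at hcon
  have hcon' : 10000000 * C ^ 4 * (κ + δ) * r < hs (c i) := by
    refine lt_of_le_of_lt ?_ hcon
    have : 10000000 * C ^ 4 * (κ + δ) ≤ 10000000 * C ^ 4 * (κ + δ₀) :=
      mul_le_mul_of_nonneg_left (by linarith) (by positivity)
    exact mul_le_mul_of_nonneg_right this (by linarith)
  have hUH : hs (c i) ≤ H ^ 2 * r := by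
    rw [← hUe]
    refine (sum_le_sum fun t _ => (hsg t).2.2).trans (le_of_eq ?_)
    rw [sum_const, card_univ, Fintype.card_fin, nsmul_eq_mul, mul_comm]
  obtain ⟨U, hU⟩ : ∃ U, U = hs (c i) := ⟨_, rfl⟩
  rw [← hU] at hcon' hUH
  obtain ⟨A, hA⟩ : ∃ A, A = 2 * C ^ 2 * κ + δ := ⟨_, rfl⟩
  obtain ⟨E₁, hE₁⟩ : ∃ E₁, E₁ = 8 * (δ + κ + A) + 2 * ε := ⟨_, rfl⟩
  obtain ⟨hA2, hAr, hκr, hδr, hbig, hD, hκD, hδD, hκδH⟩ :=
    core_nums hC hκ0 hδ hεδ hr0 hA hE₁ hcon' hUH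
  have hA0 : 0 ≤ A := by rw [hA]; positivity
  have hκH2 : κ ≤ H ^ 2 := by linarith only [hκδH, hδ]
  -- projections
  obtain ⟨P, hP0, hPn, hPb, hPP, hPs⟩ := exists_projections hF
  set n := finrank ℝ F with hn
  set ζ : Fin r → F := fun t => ⟨z t, hzF t⟩ with hζ
  set w : ℕ → Fin r → E := fun k t => (P k (ζ t) : E) with hw
  have hwle : ∀ k t, ‖w k t‖ ≤ C * ‖z t‖ := fun k t => hPb k (ζ t)
  have hwM : ∀ k t, ‖w k t‖ ≤ C * M := fun k t =>
    (hwle k t).trans (mul_le_mul_of_nonneg_left (hzM t) (by linarith))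
  have hrepw := fun k => hΓs H₂ ε C₀ g T (by omega) hε.le hε1.le hTK hTtop hTs E X r (w k) (hwM k)
  choose Y Cc hRep hSp hCost using hrepw
  have hzκ : ∑ t, ‖z t‖ ^ 2 ≤ κ * r := by linarith only [hcost, hmc0]
  have hmcκ : T.mc y (T.above i c) ≤ κ * r := by linarith only [hcost, hz0]
  have hwsum : ∀ k, ∑ t, ‖w k t‖ ^ 2 ≤ C ^ 2 * (κ * r) := by
    intro k
    have h1 : ∀ t ∈ (univ : Finset (Fin r)), ‖w k t‖ ^ 2 ≤ C ^ 2 * ‖z t‖ ^ 2 := by
      intro t _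
      rw [← mul_pow]
      exact pow_le_pow_left₀ (norm_nonneg _) (hwle k t) 2
    refine (sum_le_sum h1).trans ?_
    rw [← mul_sum]
    exact mul_le_mul_of_nonneg_left hzκ (by positivity)
  have hcostA : ∀ k, ∑ t, T.cost (fun s b => Y k s b t) (fun s ν => Cc k s ν t) ≤ A * r := by
    intro k
    refine (sum_le_sum fun t _ => hCost k t).trans ?_
    rw [sum_add_distrib, ← mul_sum, sum_const, card_univ, Fintype.card_fin, nsmul_eq_mul]
    have := hwsum k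
    rw [hA]
    linarith only [this]
  have hAB : ((top : ℝ) + 1) ^ 2 * (K : ℝ) ^ (2 * top) * A ≤ B := by
    have h1 : A ≤ 2 * C ^ 2 * H ^ 2 + 1 := by
      rw [hA]
      have : 2 * C ^ 2 * κ ≤ 2 * C ^ 2 * H ^ 2 := mul_le_mul_of_nonneg_left hκH2 (by positivity)
      linarith
    have h2 := mul_le_mul_of_nonneg_left h1
      (by positivity : (0:ℝ) ≤ ((top : ℝ) + 1) ^ 2 * (K : ℝ) ^ (2 * top))
    have h3 : 0 ≤ 4 * C ^ 2 * H ^ 2 := by positivity
    rw [hB]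
    linarith
  have hHC : H ^ 2 ≤ C ^ 2 * H ^ 2 := le_mul_of_one_le_left (sq_nonneg H) hC2
  have hB4 : 4 * (C ^ 2 * H ^ 2) ≤ B := by
    have hB0 : 0 ≤ ((top : ℝ) + 1) ^ 2 * (K : ℝ) ^ (2 * top) * (2 * C ^ 2 * H ^ 2 + 1) := by
      positivity
    rw [hB]; linarith only [hB0]
  have hHB : H ^ 2 ≤ B := by linarith only [hB4, hHC, sq_nonneg H]
  -- the middle projection
  obtain ⟨j, -, hj1, hj2⟩ := hmid H₂ ε C₀ g T (by omega) hε hεε₁ hε1 hTK hTtop hT1 E X i hi r hr1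
    hr hr4 n w y c Y Cc A κ
    (by
      have : w n = z := by
        ext t
        rw [hw]
        simp only
        rw [hPn]
        rfl
      rw [this]; exact hrep)
    hlow hsg hdis hmcκ (hκH2.trans hHB) hκ0 hHB hRep hcostA hA0 hAB
    (by
      intro t
      rw [hw]
      simp [hP0])
    (by
      intro j hj
      obtain ⟨e, φ, hφ⟩ := hPs j hj
      refine ⟨e, fun t => φ (ζ t), fun t => ?_⟩
      rw [hw]
      simp only
      rw [hφ]
      rfl)
    (by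
      intro j
      have h1 : ∀ t ∈ (univ : Finset (Fin r)), ‖w (j + 1) t - w j t‖ ^ 2 ≤
          2 * ‖w (j + 1) t‖ ^ 2 + 2 * ‖w j t‖ ^ 2 := by
        intro t _
        have h2 := norm_sub_le (w (j + 1) t) (w j t)
        have h3 := pow_le_pow_left₀ (norm_nonneg _) h2 2
        linarith only [h3, sq_nonneg (‖w (j + 1) t‖ - ‖w j t‖)]
      refine (sum_le_sum h1).trans ?_
      rw [sum_add_distrib, ← mul_sum, ← mul_sum]
      have h4 := hwsum (j + 1)
      have h5 := hwsum j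
      have h6 : C ^ 2 * (κ * r) ≤ C ^ 2 * (H ^ 2 * r) :=
        mul_le_mul_of_nonneg_left (mul_le_mul_of_nonneg_right hκH2 (by positivity)) (by positivity)
      have h7 := mul_le_mul_of_nonneg_right hB4 (by positivity : (0:ℝ) ≤ r)
      linarith only [h4, h5, h6, h7])
    (by rw [← hU]; exact hAr) (by rw [← hU]; exact hκr) (by rw [← hU]; exact hδr)
  rw [← hU] at hj1 hj2
  have hUpos : 0 < U := by
    have : 0 < δ * r := by positivity
    linarith only [this, hδr]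
  obtain ⟨Λ, hΛ⟩ : ∃ Λ, Λ = ∑ ν, ∑ t, T.accJ (Cc j) i ν t * c i ν t := ⟨_, rfl⟩
  rw [← hΛ] at hj1 hj2
  obtain ⟨lam, hlam⟩ : ∃ lam, lam = Λ / U := ⟨_, rfl⟩
  have hlam0 : 1 / 4 ≤ lam := by rw [hlam, le_div_iff₀ hUpos]; linarith only [hj1]
  have hlam2 : lam ≤ 1 / 2 := by rw [hlam, div_le_iff₀ hUpos]; linarith only [hj2]
  have hlamabs : |lam| ≤ 1 / 2 := by
    rw [abs_le]; constructor <;> linarith only [hlam0, hlam2]
  -- the clean condition for `w j`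
  have hlevw : ∀ s ≤ i, ∀ v : Fin r → ℝ, (∀ s ≤ i, X.lev s (∑ j, v j • z j) = 0) →
      ∑ b, (X.lev s (∑ t, v t • w j t) b) ^ 2 ≤ (δ / 2) * r / T.n i * ∑ j, v j ^ 2 := by
    intro s hs' v hv
    have h1 := hT.lev_le (by omega) hK1 hε.le hε1.le X (∑ t, v t • w j t) (by omega : s ≤ T.top)
    have h2 : ‖∑ t, v t • w j t‖ ≤ C * ‖∑ t, v t • z t‖ := by
      have h3 := hPb j (∑ t, v t • ζ t)
      have h4 : ((P j (∑ t, v t • ζ t) : F) : E) = ∑ t, v t • w j t := by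
        rw [map_sum]
        simp [hw, Submodule.coe_sum]
      have h5 : ((∑ t, v t • ζ t : F) : E) = ∑ t, v t • z t := by
        simp [hζ, Submodule.coe_sum]
      rw [← h4, ← h5]
      exact h3
    have h3 := hclean v hv
    have h4 : ‖∑ t, v t • w j t‖ ^ 2 ≤ C ^ 2 * (δ₁ * r / T.n i * ∑ j, v j ^ 2) := by
      have h5 := pow_le_pow_left₀ (norm_nonneg _) h2 2
      rw [mul_pow] at h5
      exact h5.trans (mul_le_mul_of_nonneg_left h3 (by positivity))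
    have h5 : 24 * ((s : ℝ) + 1) ^ 2 * (T.K : ℝ) ^ (2 * s) ≤ Lc := by
      rw [hLc, hTK]
      have h8 : ((s : ℝ) + 1) ≤ (top : ℝ) + 1 := by
        have : (s : ℝ) ≤ top := by exact_mod_cast (by omega : s ≤ top)
        linarith
      refine mul_le_mul (mul_le_mul_of_nonneg_left (pow_le_pow_left₀ (by positivity) h8 2)
        (by norm_num)) (pow_le_pow_right₀ (by linarith) (by omega)) (by positivity) (by positivity)
    refine h1.trans ((mul_le_mul h5 h4 (sq_nonneg _) hLc0.le).trans (le_of_eq ?_))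
    rw [hδ₁]
    field_simp
  -- RIG
  have hr2a : r ≤ 2 ^ T.a := by
    have h1 : r ≤ T.k (i + 1) := (Nat.le_self_pow (by norm_num) r).trans hr4
    have h2 : T.k (i + 1) ≤ T.k T.top := hT.k_mono (by omega) (by omega) le_rfl
    exact h1.trans (h2.trans ((Nat.le_self_pow (by omega) _).trans hT.k_top))
  have hrC : C₀ * T.a * T.n i ^ 2 ≤ r := by
    have h1 : C₀ ≤ T.a := (Nat.le_ceil C₀).trans (by exact_mod_cast hb4)
    have h2 : (T.a : ℝ) * T.a ≤ T.n i := by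
      have : T.a * T.a ≤ T.n i := by
        rw [hT.n_eq i hi']
        calc T.a * T.a ≤ T.k i * T.k i := Nat.mul_le_mul hka hka
          _ = T.k i ^ 2 := by ring
          _ ≤ T.k i ^ 30 := Nat.pow_le_pow_right (hT.k_pos i) (by norm_num)
      exact_mod_cast this
    have h3 : C₀ * T.a ≤ T.n i := (mul_le_mul_of_nonneg_right h1 (Nat.cast_nonneg _)).trans h2
    calc C₀ * T.a * T.n i ^ 2 ≤ T.n i * T.n i ^ 2 := mul_le_mul_of_nonneg_right h3 (by positivity)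
      _ = (T.n i : ℝ) ^ 3 := by ring
      _ ≤ r := by exact_mod_cast hr
  have hsgv : ∀ t, SG T.a (T.k i ^ 3) Bg (fun ν => T.accJ (Cc j) i ν t) := by
    intro t
    have h1 := hT.acc_SG (by omega) hK1 (fun s ν => Cc j s ν t) (fun s => hSp j s t) (le_refl i)
      hi'.le (by omega)
    refine h1.mono le_rfl (by positivity) ?_
    rw [abs_of_nonneg (by positivity : (0:ℝ) ≤ 2 * (C * M)), hBg, hTK]
    have h2 : ((i : ℝ) + 1) ≤ (top : ℝ) + 1 := by
      have : (i : ℝ) ≤ top := by exact_mod_cast hi.le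
      linarith
    refine mul_le_mul_of_nonneg_right (mul_le_mul h2 (pow_le_pow_right₀ (by linarith) hi.le)
      (by positivity) (by positivity)) (by positivity)
  have hyκ : hs (y i) ≤ κ * r := by
    have h1 := hs_le_mc y (T.above i c) hi'.le
    have h2 := hs_nonneg (T.above i c i)
    have h3 : 0 ≤ rho (T.above i c i) ^ 2 / (T.k i : ℝ) := by positivity
    linarith
  have hYA : hs (Y j i) ≤ A * r := by
    have h1 := (col_sums hT (by omega) hK1 (Y j) (Cc j) (hcostA j) hi'.le).1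
    have h2 := hs_nonneg (Cc j i)
    linarith
  obtain ⟨α, β, hαβ, hE⟩ := core_rig hANN hRIG hT (by omega) hε (by omega) (by omega) hi' hr1 hr2a
    hrC X z (w j) y (Y j) c (Cc j) (δ' := δ) hrep hlow
    (fun t => (hsg t).mono le_rfl (by linarith) (by linarith))
    (fun t => (hsgv t).mono le_rfl hBg0 (by linarith)) (hRep j) hyκ hYA hδ.le
    (by
      intro v hv
      refine (hlevw i le_rfl v hv).trans ?_
      have h1 : 0 ≤ ∑ j, v j ^ 2 := by positivity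
      refine mul_le_mul_of_nonneg_right ?_ h1
      refine div_le_div_of_nonneg_right ?_ hnr.le
      refine mul_le_mul_of_nonneg_right ?_ (by positivity)
      linarith only [hδ])
  rw [← hE₁] at hE
  have hkpos : 0 < T.k i := hT.k_pos i
  have hkr : (1:ℝ) ≤ T.k i := by exact_mod_cast hkpos
  have hgs := gram_step (r := r) (a := T.a) (q := T.k i ^ 3) (ρ := T.k i ^ 10) (B := Bg) (δ := δ)
    (H := H) (E := E₁) (lam := lam) (c i) (T.accJ (Cc j) i) hsg hsgv hdis hαβ hE hlamabs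
    (by rw [hlam, ← hU, ← hΛ, div_mul_cancel₀ _ hUpos.ne']) hδ hBg0 hδ1 (by positivity)
    (by
      have h1 : 8 * (Bg + 1) ^ 2 * H ^ 2 / δ ^ 2 ≤ T.k i := by
        refine (Nat.le_ceil _).trans ?_
        exact_mod_cast hb5.trans hka
      rw [div_le_iff₀ (by positivity)] at h1
      have h2 : (T.k i : ℝ) ^ 4 ≤ (T.k i : ℝ) ^ 10 := pow_le_pow_right₀ hkr (by norm_num)
      push_cast
      calc 8 * (T.k i : ℝ) ^ 3 * (Bg + 1) ^ 2 * H ^ 2
          = (T.k i : ℝ) ^ 3 * (8 * (Bg + 1) ^ 2 * H ^ 2) := by ring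
        _ ≤ (T.k i : ℝ) ^ 3 * (T.k i * δ ^ 2) := mul_le_mul_of_nonneg_left h1 (by positivity)
        _ = (T.k i : ℝ) ^ 4 * δ ^ 2 := by ring
        _ ≤ _ := mul_le_mul_of_nonneg_right h2 (by positivity))
    (by rw [← hU]; exact hbig)
  -- final contradiction
  have hSc : (univ.filter (fun ν => ¬ occ2 (c i) (T.accJ (Cc j) i) ν ≤ T.k i ^ 10)).card *
      T.k i ^ 7 ≤ 2 * r := by
    have h1 := card_freq_le (ρ := T.k i ^ 10) (c i) (T.accJ (Cc j) i) hsg hsgv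
    have h2 : T.k i ^ 3 * ((univ.filter (fun ν => ¬ occ2 (c i) (T.accJ (Cc j) i) ν ≤
        T.k i ^ 10)).card * T.k i ^ 7) ≤ T.k i ^ 3 * (2 * r) := by
      calc T.k i ^ 3 * ((univ.filter (fun ν => ¬ occ2 (c i) (T.accJ (Cc j) i) ν ≤
          T.k i ^ 10)).card * T.k i ^ 7) = (univ.filter (fun ν => ¬ occ2 (c i)
          (T.accJ (Cc j) i) ν ≤ T.k i ^ 10)).card * T.k i ^ 10 := by ring
        _ ≤ 2 * T.k i ^ 3 * r := h1
        _ = _ := by ring
    exact Nat.le_of_mul_le_mul_left h2 (by positivity)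
  have hcompl : (univ.filter (fun ν => ¬ occ2 (c i) (T.accJ (Cc j) i) ν ≤ T.k i ^ 10))ᶜ =
      univ.filter (fun ν => occ2 (c i) (T.accJ (Cc j) i) ν ≤ T.k i ^ 10) := by
    ext ν
    simp
  have hend := hfin H₂ ε C₀ g T (by omega) hε hεε₂ hε1 hTK hTtop hT2 E X i hi r hr1 hr hr4 z (w j)
    y c (Y j) (Cc j) A κ lam C (2 * (C * M)) (120 * C ^ 2 * (κ + δ))
    (univ.filter (fun ν => ¬ occ2 (c i) (T.accJ (Cc j) i) ν ≤ T.k i ^ 10))
    hrep hlow hsg hdis hmcκ hκ0 (hRep j) (hSp j) (hcostA j) hA0 hAB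
    ((hwsum j).trans (by
      have h6 : C ^ 2 * (κ * r) ≤ C ^ 2 * (H ^ 2 * r) :=
        mul_le_mul_of_nonneg_left (mul_le_mul_of_nonneg_right hκH2 (by positivity)) (by positivity)
      have h7 := mul_le_mul_of_nonneg_right hB4 (by positivity : (0:ℝ) ≤ r)
      have h8 : 0 ≤ C ^ 2 * (H ^ 2 * r) := by positivity
      linarith only [h6, h7, h8]))
    hSc hlamabs (by rw [← hΛ, ← hU]; linarith only [hj1])
    (by
      rw [hcompl]
      have h1 := mul_le_mul_of_nonneg_right hD (by positivity : (0:ℝ) ≤ r)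
      linarith only [hgs.1, hgs.2, h1])
    hκD hδD (by linarith only [hC])
    (fun s hs' v hv => hlevw s hs' v hv)
    (by
      intro α'
      have h1 := hPb j (∑ t, α' t • (P j (ζ t) - lam • ζ t))
      have h2 : P j (∑ t, α' t • (P j (ζ t) - lam • ζ t)) =
          (1 - lam) • ∑ t, α' t • P j (ζ t) := by
        rw [map_sum, smul_sum]
        refine sum_congr rfl fun t _ => ?_
        rw [map_smul, map_sub, hPP, map_smul, smul_comm (1 - lam), sub_smul, one_smul]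
      rw [h2, norm_smul, Real.norm_of_nonneg (by linarith)] at h1
      have h3 : ((∑ t, α' t • P j (ζ t) : F) : E) = ∑ t, α' t • w j t := by
        simp [hw, Submodule.coe_sum]
      have h4 : ((∑ t, α' t • (P j (ζ t) - lam • ζ t) : F) : E) =
          ∑ t, α' t • (w j t - lam • z t) := by
        simp [hw, hζ, Submodule.coe_sum]
      rw [← h3, ← h4]
      have h5 : (1 / 2) * ‖∑ t, α' t • P j (ζ t)‖ ≤ (1 - lam) * ‖∑ t, α' t • P j (ζ t)‖ :=
        mul_le_mul_of_nonneg_right (by linarith) (norm_nonneg _)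
      exact h5.trans h1)
    (by rw [← hU]; exact hAr) (by rw [← hU]; exact hδr) (by positivity)
  rw [← hU] at hend
  have h9 : 36 * 9 * 4 * 61 * C ^ 2 * (120 * C ^ 2 * (κ + δ)) * r =
      (36 * 9 * 4 * 61 * 120) * (C ^ 4 * (κ + δ) * r) := by ring
  have h10 : 0 ≤ C ^ 4 * (κ + δ) * r := by positivity
  have h11 : 10000000 * C ^ 4 * (κ + δ) * r = 10000000 * (C ^ 4 * (κ + δ) * r) := by ring
  rw [h9] at hend
  rw [h11] at hcon'
  linarith only [hend, hcon', h10]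

end Run7.h35.NEG
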