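import Pool.Agent.Run7.h35.NEG.Rep

/-! further definitions for the core and window pieces -/

set_option autoImplicit false

namespace Run7.h35.NEG

open Finset Module Classical

/-- the sign `±1` of a Boolean -/
def sg (b : Bool) : ℝ := if b then 1 else -1

/-- the matrix `(2^{-r/2} (P_V ε)_j)_{ε, j}`, `ε ∈ {±1}^r` -/
noncomputable def signA {r : ℕ} (V : Submodule ℝ (Fin r → ℝ)) (e : Fin r → Bool) (j : Fin r) : ℝ :=
  proj V (fun t => sg (e t)) j / Real.sqrt (2 ^ r)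

/-- number of columns in which the row `ν` occurs in `u` or `v` -/
noncomputable def occ2 {N r : ℕ} (u v : Fin N → Fin r → ℝ) (ν : Fin N) : ℕ :=
  (univ.filter (fun t => u ν t ≠ 0 ∨ v ν t ≠ 0)).card

/-- number of columns in which `ν` occurs in a content of scale `≤ s` -/
noncomputable def occ {N J : ℕ} (c : ℕ → Fin N → Fin J → ℝ) (s : ℕ) (ν : Fin N) : ℕ :=
  (univ.filter (fun j => ∃ s' ∈ range (s + 1), c s' ν j ≠ 0)).card

/-- accumulated contents of a tuple, as a matrix -/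
def Tower.accJ (T : Tower) {J : ℕ} (c : ℕ → Fin (2 ^ T.a) → Fin J → ℝ) (s : ℕ)
    (ν : Fin (2 ^ T.a)) (j : Fin J) : ℝ := T.acc (fun s ν => c s ν j) s ν

/-- `G^s M` for a matrix `M` of contents -/
def Tower.GM (T : Tower) {J : ℕ} (s : ℕ) (M : Fin (2 ^ T.a) → Fin J → ℝ) (b : Fin (T.n s))
    (j : Fin J) : ℝ := ∑ ν, T.G s b ν * M ν j

/-- row restriction of a matrix -/
def rres {N J : ℕ} (R : Finset (Fin N)) (M : Fin N → Fin J → ℝ) (ν : Fin N) (j : Fin J) : ℝ :=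
  if ν ∈ R then M ν j else 0

/-- apply a linear map to all the rows -/
def rowmap {ι : Type} {J : ℕ} (P : (Fin J → ℝ) →ₗ[ℝ] (Fin J → ℝ)) (M : ι → Fin J → ℝ) (b : ι)
    (j : Fin J) : ℝ := P (M b) j

/-- the frequent rows -/
noncomputable def Sf (T : Tower) {J : ℕ} (c : ℕ → Fin (2 ^ T.a) → Fin J → ℝ) (Lo : ℕ → ℕ) (s : ℕ) :
    Finset (Fin (2 ^ T.a)) :=
  if s < T.top then univ.filter (fun ν => J ≤ Lo s * occ c s ν) else univ

/-- the span of the functions `c s' ν`, `s' ≤ s`, `ν` frequent; everything for `s = top` -/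
noncomputable def Vf (T : Tower) {J : ℕ} (c : ℕ → Fin (2 ^ T.a) → Fin J → ℝ) (Lo : ℕ → ℕ) (s : ℕ) :
    Submodule ℝ (Fin J → ℝ) :=
  if s < T.top then
    Submodule.span ℝ {w | ∃ s' ∈ range (s + 1), ∃ ν ∈ Sf T c Lo s, w = c s' ν} else ⊤

/-- a good choice of windows -/
structure Win (T : Tower) {J : ℕ} (c : ℕ → Fin (2 ^ T.a) → Fin J → ℝ) (δ : ℝ)
    (Lo r Hi : ℕ → ℕ) : Prop where
  lo : ∀ s < T.top, T.n s ^ 10 ≤ Lo s
  mid : ∀ s < T.top, Lo s ^ 10 ≤ r s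
  hi : ∀ s < T.top, r s ^ 10 ≤ Hi s
  up : ∀ s < T.top, Hi s ^ 10 ≤ T.k (s + 1)
  mass : ∀ s < T.top, ∑ ν ∈ univ.filter (fun ν => J ≤ Hi s * occ c s ν ∧ Lo s * occ c s ν < J),
    ∑ s' ∈ range (s + 1), ∑ j, c s' ν j ^ 2 ≤ δ * J

/-- sparse contents -/
def Tower.Sparse (T : Tower) {J : ℕ} (c : ℕ → Fin (2 ^ T.a) → Fin J → ℝ) (B : ℝ) : Prop :=
  ∀ s j, SG T.a (T.k s ^ 2) B (fun ν => c s ν j)

/-- the `u_i²`: mass of `acc c i` on infrequent rows -/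
noncomputable def usq (T : Tower) {J : ℕ} (c : ℕ → Fin (2 ^ T.a) → Fin J → ℝ) (Lo : ℕ → ℕ)
    (i : ℕ) : ℝ :=
  (∑ ν ∈ (Sf T c Lo i)ᶜ, ∑ j, T.accJ c i ν j ^ 2) / J

end Run7.h35.NEG
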