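import Pool.Agent.Run7.h35.NEG.Tower

/-!
# MP_6c92e3_an, the negative answer (frozen S04964): interface

Each `S_XX` is one independent piece.  Deliver `theorem main : S_XX` (pieces with hypotheses:
`theorem main : S_YY → S_XX`) in `Pool/Agent/Run7/<seat>/NEG/<XX>.lean`.
`DistGe`, `BasisLe` are in `Pool/Agent/Run7/h35/Defs.lean`.
-/

set_option autoImplicit false

namespace Run7.h35.NEG

open Finset Module MeasureTheory ProbabilityTheory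

/-! ## KW.  Kwapien's criterion.

Proof.  (1) Remove the hypothesis `‖x j‖ ≤ 1`: for every finite tuple `x` and contraction `B`,
`∑_i ‖∑_j B i j • x j‖² ≤ D² ∑_j ‖x j‖²` (replace `x_j` by `t_j = ⌈M ‖x_j‖²⌉` copies (+1) of
`√(M/t_j) x_j`, `A_{i,(j,l)} = B_{ij}/√t_j`, let `M → ∞`).
(2) If `∑_i φ(y_i)² ≤ ∑_j φ(x_j)²` for all `φ ∈ X*` then `y_i = ∑_j B i j x_j` with a contraction
`B` (`S φ = (φ y_i)_i`, `T φ = (φ x_j)_j`, `|Sφ| ≤ |Tφ|`, so `S = B ∘ T`, `B` extended by `0` on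
`(range T)^⊥`), so `∑ ‖y_i‖² ≤ D² ∑ ‖x_j‖²`.
(3) `X = ℝⁿ` by coordinates, `V = Matrix n n ℝ`; `r(v) = inf { D² ∑‖x_j‖² - ∑‖y_i‖² :
φᵀ v φ + ∑_i φ(y_i)² ≤ ∑_j φ(x_j)² ∀ φ }` is finite, positively homogeneous and subadditive with
`r(0) ≥ 0`; `exists_extension_of_le_sublinear` (from the zero functional) gives a linear
`Λ ≤ r`, and `Λ(x ⊗ x) ≤ r(x ⊗ x) ≤ D² ‖x‖²`, `-Λ(x ⊗ x) ≤ r(-x ⊗ x) ≤ -‖x‖²`.
So `Λ(x ⊗ x)` is a positive definite quadratic form with `‖x‖² ≤ Λ(x⊗x) ≤ D²‖x‖²`. -/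
def S_KW : Prop :=
  ∀ (X : Type) [NormedAddCommGroup X] [NormedSpace ℝ X] [FiniteDimensional ℝ X] (D : ℝ), 0 < D →
    (∀ (J I : ℕ) (x : Fin J → X) (A : Fin I → Fin J → ℝ), (∀ j, ‖x j‖ ≤ 1) →
      (∀ w : Fin J → ℝ, ∑ i, (∑ j, A i j * w j) ^ 2 ≤ ∑ j, w j ^ 2) →
      ∑ i, ‖∑ j, A i j • x j‖ ^ 2 ≤ D ^ 2 * J) →
    ¬ DistGe X (2 * D)

/-! ## GAUSS.  Tails of Gaussian quadratic forms.

`L : κ × ι` matrix, `O ⊆ ι`; `τ = ∑_{κ, O} L²`, `|L x|² ≤ Λ |x|²` for `x` supported on `O`.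
Lower tail (only the coordinates in `O` are used, the others act as a shift, by Fubini):
`P(|L x|² ≤ (1-ε) τ) ≤ exp(-ε² τ / (4 Λ))`.  For fixed shift `w`, in an orthonormal basis of
eigenvectors `b_i` of `LᵀL` (eigenvalues `λ_i ≤ Λ`, `∑ λ_i = τ`) one has
`|L g + w|² ≥ ∑_i λ_i (g_i + w_i)²`, `E exp(-s λ (g+w)²) ≤ (1+2sλ)^{-1/2} ≤ exp(-sλ + s²λ²)`;
Chernoff with `s = ε/(2Λ)`.  (`stdGaussian_eq_map_pi_orthonormalBasis`, `map_pi_eq_stdGaussian`.)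
Upper tail, same with `E exp(s λ g²) = (1-2sλ)^{-1/2} ≤ exp(sλ + 2 s²λ²)` for `sλ ≤ 1/4`,
`s = ε/(4Λ)`: `P(|L x|² ≥ (1+ε) τ) ≤ exp(-ε² τ / (8 Λ))`. -/
def S_GAUSS : Prop :=
  ∀ (ι κ : Type) [Fintype ι] [DecidableEq ι] [Fintype κ] (L : κ → ι → ℝ) (O : Finset ι)
    (τ Λ ε : ℝ), 0 < Λ → 0 < ε → ε ≤ 1 →
    (∀ x : ι → ℝ, (∀ i, i ∉ O → x i = 0) → ∑ e, (∑ i, L e i * x i) ^ 2 ≤ Λ * ∑ i, x i ^ 2) →
    ((τ ≤ ∑ e, ∑ i ∈ O, L e i ^ 2) →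
      (Measure.pi (fun _ : ι => gaussianReal 0 1)).real
        {x : ι → ℝ | ∑ e, (∑ i, L e i * x i) ^ 2 ≤ (1 - ε) * τ} ≤
          Real.exp (- (ε ^ 2 * τ / (4 * Λ)))) ∧
    (O = univ → (∑ e, ∑ i, L e i ^ 2 ≤ τ) →
      (Measure.pi (fun _ : ι => gaussianReal 0 1)).real
        {x : ι → ℝ | (1 + ε) * τ ≤ ∑ e, (∑ i, L e i * x i) ^ 2} ≤
          Real.exp (- (ε ^ 2 * τ / (8 * Λ))))

/-! ## RM.  The random matrix (from GAUSS; union bounds over codes of sparse grid vectors).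

`G = g/√n`, `g` i.i.d. standard Gaussian, `x : Fin n × Fin (2^a) → ℝ`.
`diag`, `off`: `4⟨Ge_ν,Ge_μ⟩ = |G(e_ν+e_μ)|² - |G(e_ν-e_μ)|²`, two tails with relative error
`t = 8√(a/n) ≤ 1`, probability `4·4^a·exp(-8a)` or so; diag with `ε`.
Codes: a sparse grid vector is determined by a map `Fin q → Fin (2^a) × (grid points in [-H,H])`,
so there are at most `2^(5aq)` of them (`a ≥ C₀`), also for `d t ∈ ℝ^R` as `R ≤ r ≤ 2^a`.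
`leak`: fix `u, d`; `D =` span of the rows of `d` in `ℝ^r`, `dim D ≤ R`; the infimum over `A` is
`∑_b |P_{D^⊥}((g_b·u_t)_t)|²/n`: quadratic form with `Λ = H²/n` (disjoint supports) and
`τ = ∑_t|u_t|² - tr(P_D diag |u_t|²) ≥ ∑_t |u_t|² - R H²`.  If `∑|u_t|² ≤ ε r` nothing to prove,
otherwise `P(fail) ≤ exp(-c(ε,H) r n)`, against `2^(10 a q r)` configurations.
`rigid`: fix `u, v` and a `4^{-a}`-grid approximation of `(p,p')` (entries in `[-1,1]`, `2 n n'`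
entries, at most `2^(3a·2n²)` of them; one may assume `n' ≤ n`... or use only the first `⌈n/2⌉`
vectors).  `O = {(b,ν) : ν in at most ρ supports}`:
`τ ≥ (1/n) ∑_e ∑_b λ r (p_{eb}² + p'_{eb}²) ≥ λ r/2 - tiny`, `Λ ≤ 2ρH²/n·(1+tiny)`
(`|∑_t v_t(ν) x_t|² ≤ ρ ∑_t v_t(ν)² x_t²`).  `P(fail) ≤ exp(-c λ r n/(ρ H²))` against
`2^(10 a q r) · 2^(6 a n²)`.  The rounding error of `(p,p')` is controlled by
`∑_t |G u_t|² ≤ ∑_t ((1+ε)|u_t|² + 8√(a/n) |u_t|_1²)`. -/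
def S_RM : Prop :=
  ∀ H ε : ℝ, 1 ≤ H → 0 < ε → ε < 1 → ∃ C₀ : ℝ, 1 ≤ C₀ ∧
    ∀ a n q ρ : ℕ, C₀ ≤ a → 1 ≤ q → 1 ≤ ρ → C₀ * a * q * ρ ≤ n →
      ∃ G : Fin n → Fin (2 ^ a) → ℝ, RMProp H ε C₀ a n q ρ G

/-! ## SPACE.  Construction of the tower space.

`W = (Σ s : Fin (top+1), Fin (n s)) → ℝ) × (Fin (top+1) → Fin (2^a) → ℝ)` with the norm
`√cost` (induced by an injective linear map into an `ℓ₂`-sum (`PiLp 2`, `WithLp 2`) of Euclidean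
spaces and `ℓ₁` spaces), `E = W ⧸ ker` of the linear map `W → ∏_s ℝ^{n s}`; `ker` is closed
(finite dimension); the quotient norm is the infimum of the norms of representatives. -/
def S_SPACE : Prop :=
  ∀ T : Tower, (∀ s, 1 ≤ T.k s) →
    ∃ (E : Type) (_ : NormedAddCommGroup E) (_ : NormedSpace ℝ E) (_ : FiniteDimensional ℝ E),
      Nonempty (TowerSpace T E)

/-! ## LOWER.  The tower space is far from Euclidean.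

`x_ν ∈ E` with `lev s x_ν = ev 0 c`, `c 0 = e_ν`, `c s = 0` for `s > 0` (exists by `surj`),
`‖x_ν‖² ≤ 1 + 1/k 0 ≤ 2`.  For signs `ε`, `x = ∑ ε_ν x_ν` has `lev top x = K^top G^top ε`;
for a representation `(y,c)` of `x`: pairing with `G^top ε`,
`K^top 2^a ≤ |y^top| 2^{a/2} + ∑_s K^{top-s} |c_s|_1 ≤ √cost (2^{a/2} + (top+1) K^top √(k top))`
so `‖x‖ ≥ K^top 2^{a/2} / 2.2` or so for `a` large.  If `S : E ≃ ℓ₂`, choose signs with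
`|∑ ε_ν S x_ν|² ≤ ∑ |S x_ν|² ≤ ‖S‖² 2·2^a`. -/
def S_LOWER : Prop :=
  ∀ K top : ℕ, 1 ≤ K → ∃ Γ : ℕ, ∀ (H ε C₀ : ℝ) (g : ℕ) (T : Tower), 4 ≤ g →
    T.K = K → T.top = top → T.OK H ε C₀ g Γ →
    ∀ (E : Type) [NormedAddCommGroup E] [NormedSpace ℝ E] [FiniteDimensional ℝ E],
      TowerSpace T E → DistGe E ((K : ℝ) ^ top / 4)

/-! ## SPARSE.  Representations with sparse grid contents.

Take a representation with cost `≤ ‖x‖² + δ'`; `c'_s(ν) =` rounding towards `0` to `4^{-a}ℤ` of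
`c_s(ν)` if `|c_s(ν)| ≥ 1/k_s`, else `0`; `e_s = c_s - c'_s` satisfies `|e_s(ν)| ≤ |c_s(ν)|` and
`|e_s|_2² ≤ |c_s|_1 / k_s + 2^a 4^{-2a}`; put `G^t (acc e)_t` into the noise:
`|G^t b|² ≤ |b|_2² (1+ε) + 8√(a/n_t) |b|_1²` with `b = acc e t`, `|b|_1 ≤ (top+1)K^top √(k_t) 2H`,
`n_t = k_t^30` (for `t = top` simply `|G b| = |b|`).  All these are `≤ δ'` for `a ≥ Γ`.
`|y + y'|² ≤ 2|y|² + 2|y'|²`. Number of nonzero entries `≤ k_s |c_s|_1 ≤ k_s²`. -/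
def S_SPARSE : Prop :=
  ∀ (K top : ℕ) (H δ : ℝ), 1 ≤ H → 0 < δ → ∃ Γ : ℕ,
    ∀ (H₂ ε C₀ : ℝ) (g : ℕ) (T : Tower), 4 ≤ g → 0 ≤ ε → ε ≤ 1 →
    T.K = K → T.top = top → T.OK H₂ ε C₀ g Γ →
    ∀ (E : Type) [NormedAddCommGroup E] [NormedSpace ℝ E] (X : TowerSpace T E) (x : E), ‖x‖ ≤ H →
      ∃ (y : (s : ℕ) → Fin (T.n s) → ℝ) (c : ℕ → Fin (2 ^ T.a) → ℝ),
        (∀ s ≤ T.top, ∀ b, X.lev s x b = T.ev y c s b) ∧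
        (∀ s, SG T.a (T.k s ^ 2) (2 * H) (c s)) ∧ T.cost y c ≤ 2 * ‖x‖ ^ 2 + δ

/-! ## PARAM.  Towers with all the standing assumptions exist (from RM).

`k 0 = a`, `n s = (k s)^30`, `k (s+1) = (n s)^g` (all powers of `a`), `n top = 2^a`, `G top = 1`,
`a` large. -/
def S_PARAM : Prop :=
  ∀ (K top g : ℕ) (H ε : ℝ), 1 ≤ H → 0 < ε → ε < 1 → ∃ C₀ : ℝ, 1 ≤ C₀ ∧ ∀ Γ : ℕ,
    ∃ T : Tower, T.K = K ∧ T.top = top ∧ T.OK H ε C₀ g Γ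

/-! ## PROPR.  The rigidity proposition (see proof.md). -/
def S_PROPR : Prop :=
  ∀ C : ℝ, 1 ≤ C → ∃ Θ : ℝ, 1 ≤ Θ ∧ ∃ K₀ : ℕ, ∀ K : ℕ, K₀ ≤ K → ∀ (top : ℕ) (H δ : ℝ),
    1 ≤ H → 0 < δ → ∃ H₂ ε : ℝ, 1 ≤ H₂ ∧ 0 < ε ∧ ε < 1 ∧ ∀ C₀ : ℝ, 1 ≤ C₀ → ∃ Γ : ℕ,
    ∀ (g : ℕ) (T : Tower), 10 ≤ g → T.K = K → T.top = top → T.OK H₂ ε C₀ g Γ →
    ∀ (E : Type) [NormedAddCommGroup E] [NormedSpace ℝ E] [FiniteDimensional ℝ E]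
      (X : TowerSpace T E) (F : Submodule ℝ E), BasisLe F C →
    ∀ i < top, ∀ r : ℕ, T.n i ^ 4 ≤ r → r ^ 4 ≤ T.k (i + 1) →
    ∀ (z : Fin r → E) (y : (s : ℕ) → Fin (T.n s) → Fin r → ℝ)
      (c : ℕ → Fin (2 ^ T.a) → Fin r → ℝ),
      (∀ t, z t ∈ F) → X.Rep z y c → (∀ s < i, c s = 0) →
      (∀ t, SG T.a (T.k i ^ 3) H (fun ν => c i ν t)) →
      (∀ t t', t ≠ t' → ∀ ν, c i ν t = 0 ∨ c i ν t' = 0) →
      ∀ κ : ℝ, ∑ t, ‖z t‖ ^ 2 + T.mc y (T.above i c) ≤ κ * r →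
        ∑ t, ∑ ν, c i ν t ^ 2 ≤ Θ * (κ + δ) * r

/-! ## WINDOW.  From the rigidity proposition to the bound for all flat tuples. -/
def S_WINDOW : Prop :=
  ∀ C : ℝ, 1 ≤ C → ∃ D : ℝ, 1 ≤ D ∧ ∃ K : ℕ, 2 ≤ K ∧ ∀ top : ℕ,
    ∃ H₂ ε : ℝ, ∃ g : ℕ, 4 ≤ g ∧ 1 ≤ H₂ ∧ 0 < ε ∧ ε < 1 ∧ ∀ C₀ : ℝ, 1 ≤ C₀ → ∃ Γ : ℕ,
    ∀ T : Tower, T.K = K → T.top = top → T.OK H₂ ε C₀ g Γ →
    ∀ (E : Type) [NormedAddCommGroup E] [NormedSpace ℝ E] [FiniteDimensional ℝ E],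
      TowerSpace T E → ∀ F : Submodule ℝ E, BasisLe F C →
      ∀ (J I : ℕ) (x : Fin J → F) (A : Fin I → Fin J → ℝ), (∀ j, ‖x j‖ ≤ 1) →
        (∀ w : Fin J → ℝ, ∑ i, (∑ j, A i j * w j) ^ 2 ≤ ∑ j, w j ^ 2) →
        ∑ i, ‖∑ j, A i j • x j‖ ^ 2 ≤ D ^ 2 * J

end Run7.h35.NEG
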