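import Pool.Agent.Run7.h35.NEG.Boot3
import Pool.Agent.Run7.h35.NEG.Core6
import Pool.Agent.Run7.h114.NEG.PIG
import Pool.Agent.Run7.h114.NEG.SAMPLE
import Pool.Agent.Run7.h163.NEG.SPARSE
import Pool.Agent.Run7.h167.NEG.ZB
import Pool.Agent.Run7.h24.NEG.PAIR
import Pool.Agent.Run7.h24.NEG.LOWB
import Pool.Agent.Run7.h324.NEG.PARAM
import Pool.Agent.Run7.h37.NEG.CLEAN
import Pool.Agent.Run7.h37.NEG.KW
import Pool.Agent.Run7.h480.NEG.LOWER
import Pool.Agent.Run7.h480.NEG.SPACE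
import Pool.Agent.Run7.h632.NEG.RM
import Pool.Agent.Run7.h651.NEG.ZC
import Pool.Agent.Run7.h651.NEG.ZR
import Pool.Agent.Run7.h778.NEG.MIXU
import Pool.Agent.Run7.h778.NEG.UPB
import Pool.Agent.Run7.h81.NEG.ANN
import Pool.Agent.Run7.h81.NEG.RIG
import Pool.Agent.Run7.h882.NEG.Leak

set_option autoImplicit false

namespace Run7.h35.NEG

open Finset Module

theorem coreAll : S_CORE :=
  core Run7.h81.NEG.ANN.main Run7.h24.NEG.PAIR.main Run7.h24.NEG.LOWB.main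
    Run7.h778.NEG.main_UPB Run7.h81.NEG.RIG.main Run7.h163.NEG.SPARSE.main

theorem windowAll : S_WINDOW :=
  window (Run7.h37.NEG.Clean.main coreAll) Run7.h114.NEG.SAMPLE.main
    (Run7.h882.NEG.main Run7.h114.NEG.SAMPLE.main) Run7.h114.NEG.PIG.main
    Run7.h163.NEG.SPARSE.main Run7.h778.NEG.main_MIXU Run7.h651.NEG.ZR.main
    Run7.h167.NEG.ZB.main Run7.h651.NEG.ZC.main

/-- For every `C ≥ 1` there is `D₀` such that spaces arbitrarily far from Euclidean exist all of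
whose subspaces with a `C`-basis are closer than `D₀` to Euclidean. -/
theorem negative (C : ℝ) (hC : 1 ≤ C) : ∃ D₀ : ℝ, 1 ≤ D₀ ∧ ∀ L : ℝ,
    ∃ (E : Type) (_ : NormedAddCommGroup E) (_ : NormedSpace ℝ E) (_ : FiniteDimensional ℝ E),
      DistGe E L ∧ ∀ F : Submodule ℝ E, BasisLe F C → ¬ DistGe F D₀ := by
  obtain ⟨D, hD, K, hK, hwin⟩ := windowAll C hC
  refine ⟨2 * D, by linarith, fun L => ?_⟩
  have hKr : (1:ℝ) < K := by exact_mod_cast (by omega : 1 < K)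
  obtain ⟨top, htop⟩ := pow_unbounded_of_one_lt (4 * L) hKr
  obtain ⟨H₂, ε, g, hg, hH₂, hε, hε1, hw⟩ := hwin top
  obtain ⟨C₀, hC₀, hpar⟩ := Pool.Agent.Run7.h324.NEG.main_PARAM Run7.h632.NEG.RM.main K top g H₂ ε
    hH₂ hε hε1
  obtain ⟨Γ₁, hw1⟩ := hw C₀ hC₀
  obtain ⟨Γ₂, hlow⟩ := Run7.h480.NEG.LOWER.main K top (by omega)
  obtain ⟨T, hTK, hTtop, hT⟩ := hpar (max Γ₁ Γ₂)
  have hT1 : T.OK H₂ ε C₀ g Γ₁ := { hT with base := (le_max_left _ _).trans hT.base }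
  have hT2 : T.OK H₂ ε C₀ g Γ₂ := { hT with base := (le_max_right _ _).trans hT.base }
  obtain ⟨E, i1, i2, i3, ⟨X⟩⟩ := Run7.h480.NEG.SPACE.main T (fun s => hT.k_pos s)
  refine ⟨E, i1, i2, i3, ?_, ?_⟩
  · have h1 := hlow H₂ ε C₀ g T hg hTK hTtop hT2 E X
    intro S
    exact le_trans (by linarith) (h1 S)
  · intro F hF
    exact Run7.h37.NEG.KW.main F D (by linarith) (hw1 T hTK hTtop hT1 E X F hF)

end Run7.h35.NEG
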