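import Pool.Agent.Run7.h35.NEG.Lib

set_option autoImplicit false

namespace Run7.h35.NEG

open Finset Module

/-! ## sign averages -/

theorem sg_sq (b : Bool) : sg b * sg b = 1 := by
  cases b <;> simp [sg]

theorem sg_not (b : Bool) : sg (!b) = - sg b := by
  cases b <;> simp [sg]

theorem sum_sg_mul {r : ℕ} (j j' : Fin r) :
    ∑ e : Fin r → Bool, sg (e j) * sg (e j') = if j = j' then (2 : ℝ) ^ r else 0 := by
  split_ifs with h
  · subst h
    simp [sg_sq]
  · have hinv : ∑ e : Fin r → Bool, sg (e j) * sg (e j') =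
        ∑ e : Fin r → Bool, - (sg (e j) * sg (e j')) := by
      refine Finset.sum_bij' (fun e _ => Function.update e j (!(e j)))
        (fun e _ => Function.update e j (!(e j))) (by simp) (by simp) ?_ ?_ ?_
      · intro e _
        simp
      · intro e _
        simp
      · intro e _
        rw [Function.update_self, Function.update_of_ne (Ne.symm h), sg_not]
        ring
    rw [sum_neg_distrib] at hinv
    linarith

theorem sum_sign_inner {r : ℕ} (v w : Fin r → ℝ) :
    ∑ e : Fin r → Bool, (∑ j, sg (e j) * v j) * (∑ j, sg (e j) * w j) =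
      (2 : ℝ) ^ r * ∑ j, v j * w j := by
  have h1 : ∀ e : Fin r → Bool, (∑ j, sg (e j) * v j) * (∑ j, sg (e j) * w j) =
      ∑ j, ∑ j', (sg (e j) * sg (e j')) * (v j * w j') := by
    intro e
    rw [sum_mul_sum]
    exact sum_congr rfl fun j _ => sum_congr rfl fun j' _ => by ring
  simp only [h1]
  rw [sum_comm]
  have h2 : ∀ j, ∑ e : Fin r → Bool, ∑ j', (sg (e j) * sg (e j')) * (v j * w j') =
      2 ^ r * (v j * w j) := by
    intro j
    rw [sum_comm]
    have : ∀ j', ∑ e : Fin r → Bool, (sg (e j) * sg (e j')) * (v j * w j') =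
        (if j = j' then (2 : ℝ) ^ r else 0) * (v j * w j') := by
      intro j'
      rw [← sum_mul, sum_sg_mul]
    simp only [this]
    simp
  simp only [h2, mul_sum]

theorem mixR_signA {r : ℕ} (V : Submodule ℝ (Fin r → ℝ)) (w : Fin r → ℝ) (e : Fin r → Bool) :
    mixR (signA V) w e = (∑ j, sg (e j) * proj V w j) / Real.sqrt (2 ^ r) := by
  unfold mixR signA
  rw [← proj_symm V (fun t => sg (e t)) w, sum_div]
  exact sum_congr rfl fun j _ => by ring

/-- `∑_e ⟨A_e, v⟩ ⟨A_e, w⟩ = ⟨P v, P w⟩` -/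
theorem sum_mixR_signA {r : ℕ} (V : Submodule ℝ (Fin r → ℝ)) (v w : Fin r → ℝ) :
    ∑ e, mixR (signA V) v e * mixR (signA V) w e = ∑ j, proj V v j * proj V w j := by
  simp only [mixR_signA]
  have h1 : ∀ e : Fin r → Bool, (∑ j, sg (e j) * proj V v j) / Real.sqrt (2 ^ r) *
      ((∑ j, sg (e j) * proj V w j) / Real.sqrt (2 ^ r)) =
      (∑ j, sg (e j) * proj V v j) * (∑ j, sg (e j) * proj V w j) / 2 ^ r := by
    intro e
    rw [div_mul_div_comm, Real.mul_self_sqrt (by positivity)]
  simp only [h1]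
  rw [← sum_div, sum_sign_inner, mul_div_assoc, mul_comm, div_mul_cancel₀ _ (by positivity)]

theorem sum_mixR_signA_sq {r : ℕ} (V : Submodule ℝ (Fin r → ℝ)) (w : Fin r → ℝ) :
    ∑ e, mixR (signA V) w e ^ 2 = ∑ j, proj V w j ^ 2 := by
  have := sum_mixR_signA V w w
  simpa [pow_two] using this

theorem contr_signA {r : ℕ} (V : Submodule ℝ (Fin r → ℝ)) : Contr (signA V) := by
  intro w
  have h := sum_mixR_signA_sq V w
  unfold mixR at h
  rw [h]
  exact proj_norm_le V w

/-! ## traces of projections -/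

section trace

variable {J : ℕ}

/-- Pythagoras -/
theorem proj_pyth (V : Submodule ℝ (Fin J → ℝ)) (v w : Fin J → ℝ) :
    ∑ j, proj V v j * proj V w j + ∑ j, (v j - proj V v j) * (w j - proj V w j) =
      ∑ j, v j * w j := by
  have h1 : ∑ j, proj V v j * proj V w j = ∑ j, v j * proj V w j := by
    rw [proj_symm, proj_idem]
  have h2 : ∑ j, proj V v j * w j = ∑ j, v j * proj V w j := proj_symm V v w
  have h3 : ∑ j, (v j - proj V v j) * (w j - proj V w j) =
      ∑ j, v j * w j - ∑ j, v j * proj V w j - ∑ j, proj V v j * w j +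
        ∑ j, proj V v j * proj V w j := by
    rw [← sum_sub_distrib, ← sum_sub_distrib, ← sum_add_distrib]
    exact sum_congr rfl fun j _ => by ring
  rw [h3, h2, h1]
  ring

/-- `∑_j |P e_j|² = dim V` -/
theorem sum_proj_single (V : Submodule ℝ (Fin J → ℝ)) :
    ∑ j, ∑ j', proj V (Pi.single j 1) j' ^ 2 = finrank ℝ V := by
  -- `∑_j' P(e_j)_j'^2 = P(e_j)_j`, the trace of the projection
  have h1 : ∀ j, ∑ j', proj V (Pi.single j 1) j' ^ 2 = proj V (Pi.single j 1) j := by
    intro j
    have h2 : ∑ j', proj V (Pi.single j 1) j' ^ 2 =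
        ∑ j', proj V (Pi.single j 1) j' * proj V (Pi.single j 1) j' :=
      sum_congr rfl fun _ _ => by ring
    rw [h2, proj_symm, proj_idem]
    simp [Pi.single_apply]
  simp only [h1]
  have h3 : LinearMap.trace ℝ (Fin J → ℝ) (proj V) = ∑ j, proj V (Pi.single j 1) j := by
    rw [LinearMap.trace_eq_matrix_trace ℝ (Pi.basisFun ℝ (Fin J))]
    simp [Matrix.trace]
  rw [← h3]
  have h4 : LinearMap.IsProj V (proj V) := ⟨fun x => proj_mem V x, fun x hx => proj_of_mem hx⟩
  exact h4.trace

/-- `∑_j |e_j - P e_j|² = J - dim V` -/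
theorem sum_sub_proj_single (V : Submodule ℝ (Fin J → ℝ)) :
    ∑ j, ∑ j', ((Pi.single j 1 : Fin J → ℝ) j' - proj V (Pi.single j 1) j') ^ 2 =
      J - finrank ℝ V := by
  have h1 : ∀ j, ∑ j', ((Pi.single j 1 : Fin J → ℝ) j' - proj V (Pi.single j 1) j') ^ 2 =
      1 - ∑ j', proj V (Pi.single j 1) j' ^ 2 := by
    intro j
    have h2 := proj_pyth V (Pi.single j 1) (Pi.single j 1)
    have h3 : ∑ j', (Pi.single j 1 : Fin J → ℝ) j' * (Pi.single j 1 : Fin J → ℝ) j' = 1 := by
      simp [Pi.single_apply]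
    rw [h3] at h2
    have h4 : ∑ j', proj V (Pi.single j 1) j' ^ 2 =
        ∑ j', proj V (Pi.single j 1) j' * proj V (Pi.single j 1) j' :=
      sum_congr rfl fun _ _ => by ring
    have h5 : ∑ j', ((Pi.single j 1 : Fin J → ℝ) j' - proj V (Pi.single j 1) j') ^ 2 =
        ∑ j', ((Pi.single j 1 : Fin J → ℝ) j' - proj V (Pi.single j 1) j') *
          ((Pi.single j 1 : Fin J → ℝ) j' - proj V (Pi.single j 1) j') :=
      sum_congr rfl fun _ _ => by ring
    rw [h4, h5]
    linarith
  simp only [h1]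
  rw [sum_sub_distrib, sum_proj_single]
  simp

end trace

/-- `rho(P M)² ≤ dim V · ∑_j |M_j|_1²` -/
theorem rho_proj_sq_le {ι : Type} [Fintype ι] {J : ℕ} (V : Submodule ℝ (Fin J → ℝ))
    (M : ι → Fin J → ℝ) :
    rho (fun b => proj V (M b)) ^ 2 ≤ finrank ℝ V * ∑ j, (∑ b, |M b j|) ^ 2 := by
  -- unit vectors `w_b` in the direction of `P m_b`
  set q : Fin J → ℝ := fun j => Real.sqrt (∑ j', proj V (Pi.single j 1) j' ^ 2) with hq
  have h1 : ∀ b, Real.sqrt (∑ j, proj V (M b) j ^ 2) ≤ ∑ j, q j * |M b j| := by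
    intro b
    set x := proj V (M b) with hx
    set N := Real.sqrt (∑ j, x j ^ 2) with hN
    have hN0 : 0 ≤ N := Real.sqrt_nonneg _
    have hN2 : N * N = ∑ j, x j ^ 2 := Real.mul_self_sqrt (by positivity)
    rcases hN0.eq_or_lt with h0 | h0
    · rw [← h0]
      exact sum_nonneg fun j _ => mul_nonneg (Real.sqrt_nonneg _) (abs_nonneg _)
    · -- `N² = ⟨x, M b⟩ = ∑ x_j M_bj`, `|x_j| = |⟨x, P e_j⟩| ≤ N q_j`
      have h2 : ∑ j, x j ^ 2 = ∑ j, x j * M b j := by
        have : ∑ j, x j * x j = ∑ j, x j * M b j := by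
          conv_lhs => rw [hx]
          rw [← proj_symm V (proj V (M b)) (M b), proj_idem]
        rw [← this]
        exact sum_congr rfl fun _ _ => by ring
      have h3 : ∀ j, |x j| ≤ N * q j := by
        intro j
        have h4 : x j = ∑ j', x j' * proj V (Pi.single j 1) j' := by
          rw [← proj_symm V x (Pi.single j 1), hx, proj_idem]
          simp [Pi.single_apply]
        rw [h4]
        have h5 := Real.sum_mul_le_sqrt_mul_sqrt univ (fun j' => |x j'|)
          (fun j' => |proj V (Pi.single j 1) j'|)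
        refine (abs_sum_le_sum_abs _ _).trans ?_
        simp only [abs_mul]
        simpa [sq_abs] using h5
      have h6 : N * N ≤ N * ∑ j, q j * |M b j| := by
        rw [hN2, h2, mul_sum]
        refine sum_le_sum fun j _ => ?_
        calc x j * M b j ≤ |x j * M b j| := le_abs_self _
          _ = |x j| * |M b j| := abs_mul _ _
          _ ≤ N * q j * |M b j| := mul_le_mul_of_nonneg_right (h3 j) (abs_nonneg _)
          _ = _ := by ring
      exact le_of_mul_le_mul_left h6 h0
  have h7 : rho (fun b => proj V (M b)) ≤ ∑ j, q j * ∑ b, |M b j| := by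
    unfold rho
    refine (sum_le_sum fun b _ => h1 b).trans (le_of_eq ?_)
    rw [sum_comm]
    exact sum_congr rfl fun j _ => by rw [mul_sum]
  have h8 := pow_le_pow_left₀ (rho_nonneg _) h7 2
  refine h8.trans ?_
  have h9 := sum_mul_sq_le_sq_mul_sq univ q (fun j => ∑ b, |M b j|)
  refine h9.trans (le_of_eq ?_)
  congr 1
  rw [← sum_proj_single V]
  refine sum_congr rfl fun j _ => ?_
  rw [hq]
  exact Real.sq_sqrt (by positivity)

end Run7.h35.NEG
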