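import Pool.Agent.Run7.h35.NEG.Iface2
import Pool.Agent.Run7.h35.NEG.Iface
import Pool.Agent.Run7.h35.NEG.Lib2

/-!
# Interface, part 3: the localized tuples `Z_i`, cleaning, bootstrap
-/

set_option autoImplicit false

namespace Run7.h35.NEG

open Finset Module Classical

/-- `S_i⁺`: the rows of frequency at least `1/Hi i` -/
noncomputable def Sp (T : Tower) {J : ℕ} (c : ℕ → Fin (2 ^ T.a) → Fin J → ℝ) (Hi : ℕ → ℕ) (i : ℕ) :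
    Finset (Fin (2 ^ T.a)) := univ.filter (fun ν => J ≤ Hi i * occ c i ν)

/-- `Q_i = P_{i+1} - P_i` -/
noncomputable def Qf (T : Tower) {J : ℕ} (c : ℕ → Fin (2 ^ T.a) → Fin J → ℝ) (Lo : ℕ → ℕ)
    (i : ℕ) : (Fin J → ℝ) →ₗ[ℝ] (Fin J → ℝ) := proj (Vf T c Lo (i + 1)) - proj (Vf T c Lo i)

/-- the matrix of a linear map of `ℝ^J` -/
noncomputable def matOf {J : ℕ} (Q : (Fin J → ℝ) →ₗ[ℝ] (Fin J → ℝ)) (j j' : Fin J) : ℝ :=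
  Q (Pi.single j' 1) j

/-- `ū_i`: the rows of `acc c i` in `S_{i+1} ∖ S_i⁺` -/
noncomputable def Ub (T : Tower) {J : ℕ} (c : ℕ → Fin (2 ^ T.a) → Fin J → ℝ) (Lo Hi : ℕ → ℕ)
    (i : ℕ) : Fin (2 ^ T.a) → Fin J → ℝ :=
  rres (Sf T c Lo (i + 1) \ Sp T c Hi i) (T.accJ c i)

/-- `A₂ = K Q_i (1_{S_{i+1}^c} b_i)` -/
noncomputable def A2 (T : Tower) {J : ℕ} (c : ℕ → Fin (2 ^ T.a) → Fin J → ℝ) (Lo : ℕ → ℕ)
    (i : ℕ) (ν : Fin (2 ^ T.a)) (j : Fin J) : ℝ :=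
  T.K * rowmap (Qf T c Lo i) (rres (Sf T c Lo (i + 1))ᶜ (T.accJ c i)) ν j

/-- contents of the representation of `Z_i = Q_i X` -/
noncomputable def cZ (T : Tower) {J : ℕ} (c : ℕ → Fin (2 ^ T.a) → Fin J → ℝ) (Lo Hi : ℕ → ℕ)
    (i : ℕ) (s : ℕ) (ν : Fin (2 ^ T.a)) (j : Fin J) : ℝ :=
  if s < i then 0
  else if s = i then Ub T c Lo Hi i ν j
  else if s = i + 1 then
    T.K * (rowmap (Qf T c Lo i) (rres (Sf T c Lo (i + 1)) (T.accJ c i)) ν j - Ub T c Lo Hi i ν j)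
  else if s = i + 2 then T.K * (A2 T c Lo i ν j + rowmap (Qf T c Lo i) (c (i + 1)) ν j)
  else T.K * rowmap (Qf T c Lo i) (c (s - 1)) ν j

/-- noise of the representation of `Z_i` -/
noncomputable def yZ (T : Tower) {J : ℕ} (y : (s : ℕ) → Fin (T.n s) → Fin J → ℝ)
    (c : ℕ → Fin (2 ^ T.a) → Fin J → ℝ) (Lo Hi : ℕ → ℕ) (i : ℕ) (s : ℕ) (b : Fin (T.n s))
    (j : Fin J) : ℝ :=
  if s < i then rowmap (Qf T c Lo i) (fun b j => y s b j + T.GM s (T.accJ c s) b j) b j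
  else if s = i then
    rowmap (Qf T c Lo i) (fun b j => y s b j + T.GM s (T.accJ c s) b j) b j -
      T.GM s (Ub T c Lo Hi i) b j
  else if s = i + 1 then
    rowmap (Qf T c Lo i) (y s) b j +
      T.GM s (fun ν j => A2 T c Lo i ν j + rowmap (Qf T c Lo i) (c s) ν j) b j
  else rowmap (Qf T c Lo i) (y s) b j + T.GM s (rowmap (Qf T c Lo i) (c s)) b j

/-! ## ZR (algebra).  `acc (cZ) (i+1) = Q b_{i+1} - Q c_{i+1} - A₂`, `acc (cZ) s = Q b_s - Q c_s`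
for `s ≥ i+2` (induction with `acc_succ`); `Q` commutes with `G^s` acting on the left. -/
def S_ZR : Prop :=
  ∀ (T : Tower) (E : Type) [NormedAddCommGroup E] [NormedSpace ℝ E] (X : TowerSpace T E) (J : ℕ)
    (x : Fin J → E) (y : (s : ℕ) → Fin (T.n s) → Fin J → ℝ)
    (c : ℕ → Fin (2 ^ T.a) → Fin J → ℝ) (Lo Hi : ℕ → ℕ) (i : ℕ),
    X.Rep x y c → X.Rep (mixE (matOf (Qf T c Lo i)) x) (yZ T y c Lo Hi i) (cZ T c Lo Hi i)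

/-- the conclusions of LEAK -/
def Leaks (T : Tower) {J : ℕ} (c : ℕ → Fin (2 ^ T.a) → Fin J → ℝ) (Lo Hi : ℕ → ℕ) (δ : ℝ) : Prop :=
  ∀ i < T.top, ∀ s' ≤ i, ∀ R : Finset (Fin (2 ^ T.a)), (∀ ν ∈ R, Hi i * occ c i ν < J) →
    hs (rowmap (proj (Vf T c Lo i)) (T.GM i (rres R (T.accJ c s')))) ≤ δ * J ∧
    hs (rowmap (proj (Vf T c Lo i)) (rres R (T.accJ c s'))) ≤ δ * J

/-! ## ZB.  Mixing cost of the `Z_i` (away from the main content `ū_i`).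
Facts: `V_i ⊆ V_{i+1}` (`V_top = ⊤`), so `P_i P_{i+1} = P_i` and
`∑_i |Q_i v|² ≤ |v|²`; rows `c s' ν`, `s' ≤ i`, `ν ∈ S_i` are killed by `Q_i` and fixed by
`P_{i+1}`; `dim V_i ≤ (i+1) |S_i| ≤ (i+1)² k_i² Lo_i ≤ Lo_i²` for `i < top`;
`#{ν : J ≤ Hi·occ} ≤ (i+1) k_i² Hi_i`.  `b_s = accJ c s`.
* levels `s < i`: `yZ i s = Q_i(y_s + G^s(1_{S_{s+1}^c} b_s))`, sum over `i` by orthogonality,
  `1_{S_{s+1}^c} b_s = K^{-1} 1_{S_{s+1}^c}(b_{s+1} - c_{s+1})`.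
* level `i`: `yZ i i = Q_i y_i + Q_i G^i(1_{S_{i+1}^c} b_i) + Q_i G^i(1_{buf_i ∩ S_{i+1}} b_i)
  - P_i G^i ū_i` (LEAK for the last one; `buf_i = S_i⁺ ∖ S_i` has small mass by `Win.mass`).
* contents at `i+1`: `K(-P_i ū_i + Q_i(1_{buf_i ∩ S_{i+1}} b_i))`: `hs` tiny by LEAK(2), mass;
  `rho² ≤ dim V_i ∑|ū|_1²` resp. `≤ |S_i⁺| hs`, both `≪ k_{i+1}`.
* `A₂` (`= 0` if `i + 1 = top`): `G^{i+1} A₂ = K Q_i G^{i+1}(1_{S_{i+1}^c} b_i)`,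
  `Q_i = Q_i P_{i+1}`, rows outside `S_{i+1}⁺` by LEAK at `i+1`, buffer rows by mass;
  `hs(A₂)` the same with LEAK(2), `rho(A₂)² ≤ dim V_{i+1} K² ∑_j |b_i|_1² ≪ k_{i+2}`.
* `Q_i c_s`, `s ≥ i+1`: `hs(G^s Q_i c_s) = hs(Q_i G^s c_s)`, sum over `i` by orthogonality;
  `K Q_i c_s` at scale `s+1 ≤ top`: `rho² ≤ dim V_{i+1} K² ∑_j|c_s|_1² ≤ Lo_s² K² k_s² B² J ≪ k_{s+1}`. -/
def S_ZB : Prop :=
  ∀ (K top : ℕ) (B : ℝ), 1 ≤ K → 1 ≤ B → ∃ δ₀ ε₀ : ℝ, 0 < δ₀ ∧ 0 < ε₀ ∧ ∃ Γ : ℕ,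
    ∀ (H₂ ε C₀ δ : ℝ) (g : ℕ) (T : Tower), 10 ≤ g → 0 < ε → ε ≤ ε₀ → ε < 1 → 0 < δ → δ ≤ δ₀ →
    T.K = K → T.top = top → T.OK H₂ ε C₀ g Γ →
    ∀ (J : ℕ) (y : (s : ℕ) → Fin (T.n s) → Fin J → ℝ) (c : ℕ → Fin (2 ^ T.a) → Fin J → ℝ)
      (Lo r Hi : ℕ → ℕ),
      1 ≤ J → T.Sparse c B → Win T c δ Lo r Hi → Leaks T c Lo Hi δ →
      (∀ j, T.cost (fun s b => y s b j) (fun s ν => c s ν j) ≤ 3) →
      ∑ i ∈ range top, T.mc (yZ T y c Lo Hi i) (T.above i (cZ T c Lo Hi i)) ≤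
        (200 * (K : ℝ) ^ 2 + 200 / (K : ℝ) ^ 2 * ∑ i ∈ range (top + 1), usq T c Lo i) * J

/-! ## ZC.  Column cost of the `Z_i`.
`Z_i = U_i(ū_i) + h_i`, `h_i` has the representation `(yZ, above i cZ)` (an element of `E` with these
levels exists by `surj`), `∑_j ‖h_i(j)‖² ≤ mc`.  `U_i(ū_i)` has also the representation with contents
`1_Δ c_s` (`s ≤ i`, `Δ = S_{i+1} ∖ S_i⁺`) and noise `- G^s(1_Δ b_s)` at the levels `s < i`; the sets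
`Δ_i` are disjoint, `Δ_i ⊆ S_{s+1}^c` for `i > s`. -/
def S_ZC : Prop :=
  ∀ (K top : ℕ) (B : ℝ), 1 ≤ K → 1 ≤ B → ∃ ε₀ : ℝ, 0 < ε₀ ∧ ∃ Γ : ℕ,
    ∀ (H₂ ε C₀ δ : ℝ) (g : ℕ) (T : Tower), 10 ≤ g → 0 < ε → ε ≤ ε₀ → ε < 1 →
    T.K = K → T.top = top → T.OK H₂ ε C₀ g Γ →
    ∀ (E : Type) [NormedAddCommGroup E] [NormedSpace ℝ E] (X : TowerSpace T E)
      (J : ℕ) (x : Fin J → E) (y : (s : ℕ) → Fin (T.n s) → Fin J → ℝ)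
      (c : ℕ → Fin (2 ^ T.a) → Fin J → ℝ) (Lo r Hi : ℕ → ℕ),
      1 ≤ J → X.Rep x y c → T.Sparse c B → Win T c δ Lo r Hi →
      (∀ j, T.cost (fun s b => y s b j) (fun s ν => c s ν j) ≤ 3) →
      ∑ i ∈ range top, ∑ j, ‖mixE (matOf (Qf T c Lo i)) x j‖ ^ 2 ≤
        2 * ∑ i ∈ range top, T.mc (yZ T y c Lo Hi i) (T.above i (cZ T c Lo Hi i)) +
        (200 * (K : ℝ) ^ 2 + 200 / (K : ℝ) ^ 2 * ∑ i ∈ range (top + 1), usq T c Lo i) * J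

/-! ## CLEAN: `S_CORE → S_PROPR`.
We may assume `κ ≤ H²` (otherwise `hs u ≤ H² r ≤ κ r`) and `κ ≥ 0`.  `z : Fin r → E` with the
representation `(y,c)`, `u = c_i`.  Let `V₀ = {v : lev_s(∑ v_j z_j) = 0 ∀ s ≤ i}`,
`σ² = δ₁ (r/2)/n_i`.  Take a maximal orthonormal family `v_1..v_ω ∈ V₀` with `‖∑ v_j z_j‖² > σ²`.
For `v ∈ V₀` the vector `∑_j v_j z_j` has the representation with noise `y_s v` (`s > i`), contents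
`(K u + c_{i+1}) v` at `i+1` and `c_s v`, `s ≥ i+2`; its mixing cost (any orthonormal family) is
`≤ 2K²(hs u + rho(u)²/k_{i+1}) + 2 κ r ≤ 4K²H² r + 2κ r`; so `ω ≤ C n_i/δ₁`.
`z'_t = z_t - ∑_j (P_rem)_{tj} z_j`; representation of `z'`: contents `c_s = 0` (`s<i`), `u` at `i`,
`c_{i+1}(1-P) - K u P` at `i+1`, `c_s (1-P)` for `s ≥ i+2`; noise `y_s - [s > i] y_s P`;
`mc ≤ 6κr + small` since `hs(uP) ≤ H² ω`, `rho(uP)² ≤ k_i³ r hs(uP)`, `r ≥ n_i⁴`.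
`∑ ‖z'_t‖² ≤ 2κ r + 2 mc(zP) ≤ 7 κ r` or so.  Good columns: `‖z'_t‖ ≤ M`, `M² = C H⁴/δ`, the others
carry `≤ δ r/4` of `hs u`; they are at least `r/2 ≥ n_i³` many.  Restrict everything to the good
columns (reindex by `Fin r'`), apply CORE with `δ/4`, `10κ`. -/
def S_CLEAN : Prop := S_CORE → S_PROPR

/-! ## BOOT (helper35): from PROPR, SAMPLE, ZR, ZB, ZC, LEAK, PIG, SPARSE, MIXU to WINDOW. -/

end Run7.h35.NEG
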