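import Pool.Agent.Run7.h35.NEG.Defs2

set_option autoImplicit false

namespace Run7.h35.NEG

open Finset Module

/-! ## almost isometries -/

/-- bilinear form of an almost orthonormal system -/
theorem gram_inner {n N : ℕ} (G : Fin n → Fin N → ℝ) (ε κ : ℝ) (hε : 0 ≤ ε) (hκ : 0 ≤ κ)
    (hd : ∀ ν, |∑ b, G b ν ^ 2 - 1| ≤ ε)
    (ho : ∀ ν μ, ν ≠ μ → |∑ b, G b ν * G b μ| ≤ κ) (v w : Fin N → ℝ) :
    |∑ b, (∑ ν, G b ν * v ν) * (∑ ν, G b ν * w ν) - ∑ ν, v ν * w ν| ≤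
      ε * (Real.sqrt (∑ ν, v ν ^ 2) * Real.sqrt (∑ ν, w ν ^ 2)) +
        κ * ((∑ ν, |v ν|) * ∑ ν, |w ν|) := by
  have e1 : ∑ b, (∑ ν, G b ν * v ν) * (∑ ν, G b ν * w ν) =
      ∑ ν, ∑ μ, v ν * w μ * ∑ b, G b ν * G b μ := by
    calc ∑ b, (∑ ν, G b ν * v ν) * (∑ ν, G b ν * w ν)
        = ∑ b, ∑ ν, ∑ μ, (G b ν * v ν) * (G b μ * w μ) := by
          refine Finset.sum_congr rfl fun b _ => ?_
          rw [Finset.sum_mul_sum]
      _ = ∑ ν, ∑ μ, ∑ b, (G b ν * v ν) * (G b μ * w μ) := by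
          rw [Finset.sum_comm]
          refine Finset.sum_congr rfl fun ν _ => ?_
          rw [Finset.sum_comm]
      _ = _ := by
          refine Finset.sum_congr rfl fun ν _ => Finset.sum_congr rfl fun μ _ => ?_
          rw [Finset.mul_sum]
          exact Finset.sum_congr rfl fun b _ => by ring
  have e2 : ∑ ν, v ν * w ν = ∑ ν, ∑ μ, v ν * w μ * (if ν = μ then 1 else 0) := by
    refine Finset.sum_congr rfl fun ν _ => ?_
    simp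
  rw [e1, e2, ← Finset.sum_sub_distrib]
  have e3 : ∀ ν, ∑ μ, v ν * w μ * ∑ b, G b ν * G b μ - ∑ μ, v ν * w μ * (if ν = μ then 1 else 0) =
      ∑ μ, v ν * w μ * (∑ b, G b ν * G b μ - if ν = μ then 1 else 0) := by
    intro ν
    rw [← Finset.sum_sub_distrib]
    exact Finset.sum_congr rfl fun μ _ => by ring
  simp only [e3]
  have e4 : ∀ ν μ, |v ν * w μ * (∑ b, G b ν * G b μ - if ν = μ then 1 else 0)| ≤
      (if ν = μ then ε * (|v ν| * |w μ|) else 0) + κ * (|v ν| * |w μ|) := by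
    intro ν μ
    rw [abs_mul, abs_mul]
    have h0 : 0 ≤ |v ν| * |w μ| := by positivity
    by_cases h : ν = μ
    · subst h
      simp only [if_true]
      have h1 := hd ν
      have h2 : ∑ b, G b ν * G b ν = ∑ b, G b ν ^ 2 := sum_congr rfl fun b _ => by ring
      rw [h2]
      have h3 := mul_le_mul_of_nonneg_left h1 h0
      have h4 : 0 ≤ κ * (|v ν| * |w ν|) := by positivity
      linarith
    · simp only [h, if_false, sub_zero]
      have h1 := mul_le_mul_of_nonneg_left (ho ν μ h) h0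
      linarith
  have e5 : |∑ ν, ∑ μ, v ν * w μ * (∑ b, G b ν * G b μ - if ν = μ then 1 else 0)| ≤
      ∑ ν, ∑ μ, ((if ν = μ then ε * (|v ν| * |w μ|) else 0) + κ * (|v ν| * |w μ|)) := by
    refine (abs_sum_le_sum_abs _ _).trans (sum_le_sum fun ν _ => ?_)
    exact (abs_sum_le_sum_abs _ _).trans (sum_le_sum fun μ _ => e4 ν μ)
  refine e5.trans ?_
  simp only [sum_add_distrib, sum_ite_eq, mem_univ, if_true]
  have e6 : ∑ ν, ∑ μ, κ * (|v ν| * |w μ|) = κ * ((∑ ν, |v ν|) * ∑ ν, |w ν|) := by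
    rw [sum_mul_sum]
    simp only [mul_sum]
  rw [e6, ← mul_sum]
  have e7 : ∑ ν, |v ν| * |w ν| ≤ Real.sqrt (∑ ν, v ν ^ 2) * Real.sqrt (∑ ν, w ν ^ 2) := by
    have := Real.sum_mul_le_sqrt_mul_sqrt univ (fun ν => |v ν|) (fun ν => |w ν|)
    simpa [sq_abs] using this
  have e8 := mul_le_mul_of_nonneg_left e7 hε
  linarith

namespace Tower

/-- the off-diagonal error of level `s` -/
noncomputable def eta (T : Tower) (s : ℕ) : ℝ :=
  if s < T.top then 8 * Real.sqrt ((T.a : ℝ) / T.n s) else 0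

theorem eta_nonneg (T : Tower) (s : ℕ) : 0 ≤ T.eta s := by
  unfold eta; split_ifs <;> positivity

variable {T : Tower} {H ε C₀ : ℝ} {g Γ : ℕ}

theorem OK.inner (hT : T.OK H ε C₀ g Γ) (hε : 0 ≤ ε) {s : ℕ} (hs : s ≤ T.top)
    (v w : Fin (2 ^ T.a) → ℝ) :
    |∑ b, (∑ ν, T.G s b ν * v ν) * (∑ ν, T.G s b ν * w ν) - ∑ ν, v ν * w ν| ≤
      ε * (Real.sqrt (∑ ν, v ν ^ 2) * Real.sqrt (∑ ν, w ν ^ 2)) +
        T.eta s * ((∑ ν, |v ν|) * ∑ ν, |w ν|) := by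
  rcases hs.lt_or_eq with h | h
  · have h1 := hT.rm s h
    unfold eta
    rw [if_pos h]
    exact gram_inner _ _ _ hε (by positivity) h1.diag h1.off v w
  · subst h
    refine gram_inner _ _ _ hε (T.eta_nonneg _) ?_ ?_ v w
    · intro ν
      have h1 := hT.topG ν ν
      have h2 : ∑ b, T.G T.top b ν * T.G T.top b ν = ∑ b, T.G T.top b ν ^ 2 :=
        sum_congr rfl fun b _ => by ring
      rw [h2] at h1
      rw [h1]
      simpa using hε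
    · intro ν μ hne
      rw [hT.topG ν μ, if_neg hne]
      simp [T.eta_nonneg]

theorem OK.sq_le (hT : T.OK H ε C₀ g Γ) (hε : 0 ≤ ε) {s : ℕ} (hs : s ≤ T.top)
    (v : Fin (2 ^ T.a) → ℝ) :
    ∑ b, (∑ ν, T.G s b ν * v ν) ^ 2 ≤ (1 + ε) * ∑ ν, v ν ^ 2 + T.eta s * (∑ ν, |v ν|) ^ 2 := by
  have h := (abs_le.mp (hT.inner hε hs v v)).2
  have h1 : Real.sqrt (∑ ν, v ν ^ 2) * Real.sqrt (∑ ν, v ν ^ 2) = ∑ ν, v ν ^ 2 :=
    Real.mul_self_sqrt (by positivity)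
  have h2 : ∑ b, (∑ ν, T.G s b ν * v ν) * (∑ ν, T.G s b ν * v ν) =
      ∑ b, (∑ ν, T.G s b ν * v ν) ^ 2 := sum_congr rfl fun b _ => by ring
  have h3 : ∑ ν, v ν * v ν = ∑ ν, v ν ^ 2 := sum_congr rfl fun b _ => by ring
  rw [h1, h2, h3] at h
  rw [pow_two (∑ ν, |v ν|)]
  linarith

theorem OK.sq_ge (hT : T.OK H ε C₀ g Γ) (hε : 0 ≤ ε) {s : ℕ} (hs : s ≤ T.top)
    (v : Fin (2 ^ T.a) → ℝ) :
    (1 - ε) * ∑ ν, v ν ^ 2 - T.eta s * (∑ ν, |v ν|) ^ 2 ≤ ∑ b, (∑ ν, T.G s b ν * v ν) ^ 2 := by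
  have h := (abs_le.mp (hT.inner hε hs v v)).1
  have h1 : Real.sqrt (∑ ν, v ν ^ 2) * Real.sqrt (∑ ν, v ν ^ 2) = ∑ ν, v ν ^ 2 :=
    Real.mul_self_sqrt (by positivity)
  have h2 : ∑ b, (∑ ν, T.G s b ν * v ν) * (∑ ν, T.G s b ν * v ν) =
      ∑ b, (∑ ν, T.G s b ν * v ν) ^ 2 := sum_congr rfl fun b _ => by ring
  have h3 : ∑ ν, v ν * v ν = ∑ ν, v ν ^ 2 := sum_congr rfl fun b _ => by ring
  rw [h1, h2, h3] at h
  rw [pow_two (∑ ν, |v ν|)]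
  linarith

/-- `hs(G M) ≤ (1+ε) hs M + η ∑_j |M_j|_1²` -/
theorem OK.hs_GM_le_col (hT : T.OK H ε C₀ g Γ) (hε : 0 ≤ ε) {s : ℕ} (hs' : s ≤ T.top) {J : ℕ}
    (M : Fin (2 ^ T.a) → Fin J → ℝ) :
    hs (T.GM s M) ≤ (1 + ε) * hs M + T.eta s * ∑ j, (∑ ν, |M ν j|) ^ 2 := by
  have h1 : hs (T.GM s M) = ∑ j, ∑ b, (∑ ν, T.G s b ν * M ν j) ^ 2 := by
    unfold hs GM; rw [sum_comm]
  have h2 : hs M = ∑ j, ∑ ν, M ν j ^ 2 := by
    unfold hs; rw [sum_comm]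
  rw [h1, h2, mul_sum, mul_sum, ← sum_add_distrib]
  exact sum_le_sum fun j _ => hT.sq_le hε hs' (fun ν => M ν j)

/-- `hs(G M) ≤ (1+ε) hs M + η rho(M)²` -/
theorem OK.hs_GM_le (hT : T.OK H ε C₀ g Γ) (hε : 0 ≤ ε) {s : ℕ} (hs' : s ≤ T.top) {J : ℕ}
    (M : Fin (2 ^ T.a) → Fin J → ℝ) :
    hs (T.GM s M) ≤ (1 + ε) * hs M + T.eta s * rho M ^ 2 := by
  refine (hT.hs_GM_le_col hε hs' M).trans ?_
  have := mul_le_mul_of_nonneg_left (sum_l1_sq_le M) (T.eta_nonneg s)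
  linarith

theorem OK.k_pos (hT : T.OK H ε C₀ g Γ) (s : ℕ) : 1 ≤ T.k s := hT.one_le_a.trans (hT.k_ge s)

theorem OK.n_le_k_succ (hT : T.OK H ε C₀ g Γ) (hg : 1 ≤ g) {s : ℕ} (hs : s < T.top) :
    T.n s ≤ T.k (s + 1) := by
  refine le_trans ?_ (hT.gap s hs)
  exact Nat.le_self_pow (by omega) _

theorem OK.k_le_succ (hT : T.OK H ε C₀ g Γ) (hg : 1 ≤ g) {s : ℕ} (hs : s < T.top) :
    T.k s ≤ T.k (s + 1) := by
  refine le_trans ?_ (hT.n_le_k_succ hg hs)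
  rw [hT.n_eq s hs]
  exact Nat.le_self_pow (by norm_num) _

theorem OK.k_mono (hT : T.OK H ε C₀ g Γ) (hg : 1 ≤ g) {s s' : ℕ} (h : s' ≤ s)
    (hs : s ≤ T.top) : T.k s' ≤ T.k s := by
  induction s, h using Nat.le_induction with
  | base => exact le_rfl
  | succ m hm ih => exact (ih (by omega)).trans (hT.k_le_succ hg (by omega))

theorem OK.eta_le (hT : T.OK H ε C₀ g Γ) (s : ℕ) : T.eta s ≤ 8 / (T.k s : ℝ) ^ 14 := by
  have hk : (1 : ℝ) ≤ T.k s := by exact_mod_cast hT.k_pos s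
  unfold eta
  split_ifs with h
  · have h1 : Real.sqrt ((T.a : ℝ) / T.n s) ≤ 1 / (T.k s : ℝ) ^ 14 := by
      refine Real.sqrt_le_iff.mpr ⟨by positivity, ?_⟩
      rw [hT.n_eq s h]
      push_cast
      rw [div_pow, one_pow, ← pow_mul, div_le_div_iff₀ (by positivity) (by positivity), one_mul]
      have h2 : (T.a : ℝ) ≤ T.k s := by exact_mod_cast hT.k_ge s
      calc (T.a : ℝ) * (T.k s : ℝ) ^ (14 * 2) ≤ T.k s * (T.k s : ℝ) ^ (14 * 2) :=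
            mul_le_mul_of_nonneg_right h2 (by positivity)
        _ = (T.k s : ℝ) ^ 29 := by ring
        _ ≤ (T.k s : ℝ) ^ 30 := pow_le_pow_right₀ hk (by norm_num)
    calc 8 * Real.sqrt ((T.a : ℝ) / T.n s) ≤ 8 * (1 / (T.k s : ℝ) ^ 14) := by linarith
      _ = _ := by ring
  · positivity

/-- `η_s k_s^p ≤ 8 / k_s^{14-p}` in convenient form -/
theorem OK.eta_mul_le (hT : T.OK H ε C₀ g Γ) (s : ℕ) (p : ℕ) (hp : p ≤ 13) :
    T.eta s * (T.k s : ℝ) ^ p ≤ 8 / T.k s := by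
  have hk : (1 : ℝ) ≤ T.k s := by exact_mod_cast hT.k_pos s
  have h1 := mul_le_mul_of_nonneg_right (hT.eta_le s) (by positivity : (0:ℝ) ≤ (T.k s : ℝ) ^ p)
  refine h1.trans ?_
  rw [div_mul_eq_mul_div, div_le_div_iff₀ (by positivity) (by positivity), mul_assoc, ← pow_succ]
  exact mul_le_mul_of_nonneg_left (pow_le_pow_right₀ hk (by omega)) (by norm_num)

end Tower

end Run7.h35.NEG
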