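import Pool.Agent.Run7.h35.NEG.Basic

set_option autoImplicit false

namespace Run7.h35.NEG

open Finset Module

variable {T : Tower}

namespace Tower

theorem acc_zero (T : Tower) (c : ℕ → Fin (2 ^ T.a) → ℝ) (ν : Fin (2 ^ T.a)) :
    T.acc c 0 ν = c 0 ν := by
  simp [acc]

theorem acc_succ (T : Tower) (c : ℕ → Fin (2 ^ T.a) → ℝ) (s : ℕ) (ν : Fin (2 ^ T.a)) :
    T.acc c (s + 1) ν = c (s + 1) ν + T.K * T.acc c s ν := by
  unfold acc
  rw [sum_range_succ, mul_sum]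
  simp only [Nat.sub_self, pow_zero, one_mul]
  rw [add_comm]
  congr 1
  refine sum_congr rfl fun s' hs' => ?_
  rw [mem_range] at hs'
  have : s + 1 - s' = (s - s') + 1 := by omega
  rw [this, pow_succ]
  ring

theorem acc_sum {J : Type} [Fintype J] (T : Tower) (A : J → ℝ)
    (c : ℕ → Fin (2 ^ T.a) → J → ℝ) (s : ℕ) (ν : Fin (2 ^ T.a)) :
    T.acc (fun s ν => ∑ j, A j * c s ν j) s ν =
      ∑ j, A j * T.acc (fun s ν => c s ν j) s ν := by
  unfold acc
  simp only [mul_sum]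
  rw [sum_comm]
  refine sum_congr rfl fun j _ => sum_congr rfl fun s' _ => by ring

theorem acc_add (T : Tower) (c c' : ℕ → Fin (2 ^ T.a) → ℝ) (s : ℕ) (ν : Fin (2 ^ T.a)) :
    T.acc (fun s ν => c s ν + c' s ν) s ν = T.acc c s ν + T.acc c' s ν := by
  unfold acc
  rw [← sum_add_distrib]
  exact sum_congr rfl fun s' _ => by ring

theorem acc_smul (T : Tower) (r : ℝ) (c : ℕ → Fin (2 ^ T.a) → ℝ) (s : ℕ) (ν : Fin (2 ^ T.a)) :
    T.acc (fun s ν => r * c s ν) s ν = r * T.acc c s ν := by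
  unfold acc
  rw [mul_sum]
  exact sum_congr rfl fun s' _ => by ring

theorem ev_sum {J : Type} [Fintype J] (T : Tower) (A : J → ℝ)
    (y : (s : ℕ) → Fin (T.n s) → J → ℝ)
    (c : ℕ → Fin (2 ^ T.a) → J → ℝ) (s : ℕ) (b : Fin (T.n s)) :
    T.ev (fun s b => ∑ j, A j * y s b j) (fun s ν => ∑ j, A j * c s ν j) s b =
      ∑ j, A j * T.ev (fun s b => y s b j) (fun s ν => c s ν j) s b := by
  unfold ev
  simp only [acc_sum, mul_add, sum_add_distrib]
  congr 1
  simp only [mul_sum]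
  rw [sum_comm]
  exact sum_congr rfl fun j _ => sum_congr rfl fun ν _ => by ring

theorem ev_add (T : Tower) (y y' : (s : ℕ) → Fin (T.n s) → ℝ)
    (c c' : ℕ → Fin (2 ^ T.a) → ℝ) (s : ℕ) (b : Fin (T.n s)) :
    T.ev (fun s b => y s b + y' s b) (fun s ν => c s ν + c' s ν) s b =
      T.ev y c s b + T.ev y' c' s b := by
  unfold ev
  simp only [acc_add, mul_add, sum_add_distrib]
  ring

theorem ev_smul (T : Tower) (r : ℝ) (y : (s : ℕ) → Fin (T.n s) → ℝ)
    (c : ℕ → Fin (2 ^ T.a) → ℝ) (s : ℕ) (b : Fin (T.n s)) :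
    T.ev (fun s b => r * y s b) (fun s ν => r * c s ν) s b = r * T.ev y c s b := by
  unfold ev
  simp only [acc_smul, mul_add, mul_sum]
  congr 1
  exact sum_congr rfl fun ν _ => by ring

end Tower

section mc

variable {J I : Type} [Fintype J] [Fintype I]

theorem mc_eq (y : (s : ℕ) → Fin (T.n s) → J → ℝ) (c : ℕ → Fin (2 ^ T.a) → J → ℝ) :
    T.mc y c = ∑ s ∈ range (T.top + 1), (hs (y s) + hs (c s) + rho (c s) ^ 2 / (T.k s : ℝ)) := rfl

theorem mc_nonneg (y : (s : ℕ) → Fin (T.n s) → J → ℝ) (c : ℕ → Fin (2 ^ T.a) → J → ℝ) :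
    0 ≤ T.mc y c := by
  rw [mc_eq]
  refine sum_nonneg fun s _ => ?_
  have := hs_nonneg (y s)
  have := hs_nonneg (c s)
  positivity

theorem mc_add_le (y y' : (s : ℕ) → Fin (T.n s) → J → ℝ) (c c' : ℕ → Fin (2 ^ T.a) → J → ℝ) :
    T.mc (fun s b j => y s b j + y' s b j) (fun s ν j => c s ν j + c' s ν j) ≤
      2 * T.mc y c + 2 * T.mc y' c' := by
  simp only [mc_eq, mul_sum, ← sum_add_distrib]
  refine sum_le_sum fun s _ => ?_
  have h1 := hs_add_le (y s) (y' s)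
  have h2 := hs_add_le (c s) (c' s)
  have h3 := rho_add_le (c s) (c' s)
  have h4 : rho (fun b j => c s b j + c' s b j) ^ 2 ≤ 2 * rho (c s) ^ 2 + 2 * rho (c' s) ^ 2 := by
    have := pow_le_pow_left₀ (rho_nonneg _) h3 2
    nlinarith [sq_nonneg (rho (c s) - rho (c' s))]
  have h5 : rho (fun b j => c s b j + c' s b j) ^ 2 / (T.k s : ℝ) ≤
      2 * (rho (c s) ^ 2 / (T.k s : ℝ)) + 2 * (rho (c' s) ^ 2 / (T.k s : ℝ)) := by
    rw [← mul_div_assoc, ← mul_div_assoc, ← add_div]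
    exact div_le_div_of_nonneg_right h4 (Nat.cast_nonneg _)
  linarith

theorem mc_smul (r : ℝ) (y : (s : ℕ) → Fin (T.n s) → J → ℝ) (c : ℕ → Fin (2 ^ T.a) → J → ℝ) :
    T.mc (fun s b j => r * y s b j) (fun s ν j => r * c s ν j) = r ^ 2 * T.mc y c := by
  simp only [mc_eq, mul_sum]
  refine sum_congr rfl fun s _ => ?_
  have h1 : hs (fun b j => r * y s b j) = r ^ 2 * hs (y s) := by
    simp only [hs, mul_sum, mul_pow]
  have h2 : hs (fun b j => r * c s b j) = r ^ 2 * hs (c s) := by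
    simp only [hs, mul_sum, mul_pow]
  have h3 : rho (fun b j => r * c s b j) = |r| * rho (c s) := by
    simp only [rho, mul_sum]
    refine sum_congr rfl fun b _ => ?_
    have : ∑ j, (r * c s b j) ^ 2 = r ^ 2 * ∑ j, c s b j ^ 2 := by
      simp only [mul_sum, mul_pow]
    rw [this, Real.sqrt_mul (sq_nonneg r), Real.sqrt_sq_eq_abs]
  rw [h1, h2, h3, mul_pow, sq_abs]
  ring

theorem mc_mix_le {A : I → J → ℝ} (hA : Contr A) (y : (s : ℕ) → Fin (T.n s) → J → ℝ)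
    (c : ℕ → Fin (2 ^ T.a) → J → ℝ) :
    T.mc (fun s b => mixR A (y s b)) (fun s ν => mixR A (c s ν)) ≤ T.mc y c := by
  simp only [mc_eq]
  refine sum_le_sum fun s _ => ?_
  have h1 := hs_mix_le hA (y s)
  have h2 := hs_mix_le hA (c s)
  have h3 := rho_mix_le hA (c s)
  have h4 := pow_le_pow_left₀ (rho_nonneg _) h3 2
  have h5 := div_le_div_of_nonneg_right h4 (Nat.cast_nonneg (T.k s) : (0:ℝ) ≤ _)
  linarith

/-- the sum of the column costs is at most the mixing cost -/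
theorem sum_cost_le (y : (s : ℕ) → Fin (T.n s) → J → ℝ) (c : ℕ → Fin (2 ^ T.a) → J → ℝ) :
    ∑ j, T.cost (fun s b => y s b j) (fun s ν => c s ν j) ≤ T.mc y c := by
  unfold Tower.cost
  rw [sum_comm, mc_eq]
  refine sum_le_sum fun s _ => ?_
  rw [sum_add_distrib, sum_add_distrib]
  have h1 : ∑ j, ∑ b, y s b j ^ 2 = hs (y s) := by rw [sum_comm]; rfl
  have h2 : ∑ j, ∑ b, c s b j ^ 2 = hs (c s) := by rw [sum_comm]; rfl
  have h3 := sum_l1_sq_le (c s)
  rw [h1, h2, ← sum_div]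
  have h5 := div_le_div_of_nonneg_right h3 (Nat.cast_nonneg (T.k s) : (0:ℝ) ≤ _)
  linarith

variable {E : Type} [NormedAddCommGroup E] [NormedSpace ℝ E] (X : TowerSpace T E)

theorem rep_mix {z : J → E} {y : (s : ℕ) → Fin (T.n s) → J → ℝ}
    {c : ℕ → Fin (2 ^ T.a) → J → ℝ} (h : X.Rep z y c) (A : I → J → ℝ) :
    X.Rep (mixE A z) (fun s b => mixR A (y s b)) (fun s ν => mixR A (c s ν)) := by
  intro s hs b i
  have h1 := T.ev_sum (A i) y c s b
  unfold mixR mixE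
  rw [h1, map_sum, Finset.sum_apply]
  refine sum_congr rfl fun j _ => ?_
  rw [map_smul, Pi.smul_apply, smul_eq_mul, h s hs b j]

theorem rep_add {z z' : J → E} {y y' : (s : ℕ) → Fin (T.n s) → J → ℝ}
    {c c' : ℕ → Fin (2 ^ T.a) → J → ℝ} (h : X.Rep z y c) (h' : X.Rep z' y' c') :
    X.Rep (fun j => z j + z' j) (fun s b j => y s b j + y' s b j)
      (fun s ν j => c s ν j + c' s ν j) := by
  intro s hs b j
  rw [map_add, Pi.add_apply, h s hs b j, h' s hs b j]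
  exact (T.ev_add _ _ _ _ s b).symm

theorem rep_smul {z : J → E} {y : (s : ℕ) → Fin (T.n s) → J → ℝ}
    {c : ℕ → Fin (2 ^ T.a) → J → ℝ} (h : X.Rep z y c) (r : ℝ) :
    X.Rep (fun j => r • z j) (fun s b j => r * y s b j) (fun s ν j => r * c s ν j) := by
  intro s hs b j
  rw [map_smul, Pi.smul_apply, smul_eq_mul, h s hs b j]
  exact (T.ev_smul r _ _ s b).symm

/-- MIX: the column sum of squares is at most the mixing cost -/
theorem sum_norm_sq_le {z : J → E} {y : (s : ℕ) → Fin (T.n s) → J → ℝ}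
    {c : ℕ → Fin (2 ^ T.a) → J → ℝ} (h : X.Rep z y c) : ∑ j, ‖z j‖ ^ 2 ≤ T.mc y c := by
  refine le_trans (sum_le_sum fun j _ => ?_) (sum_cost_le y c)
  exact X.upper (z j) _ _ (fun s hs b => h s hs b j)

/-- MIX for mixed tuples -/
theorem sum_mix_norm_sq_le {z : J → E} {y : (s : ℕ) → Fin (T.n s) → J → ℝ}
    {c : ℕ → Fin (2 ^ T.a) → J → ℝ} (h : X.Rep z y c) {A : I → J → ℝ} (hA : Contr A) :
    ∑ i, ‖mixE A z i‖ ^ 2 ≤ T.mc y c :=
  (sum_norm_sq_le X (rep_mix X h A)).trans (mc_mix_le hA y c)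

end mc

end Run7.h35.NEG
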