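import Pool.Agent.Run7.h35.Defs

set_option autoImplicit false

namespace Run7.h35.NEG

open Finset Module

/-- vectors with entries in `4^{-a}ℤ`, with at most `q` nonzero entries and Euclidean norm `≤ H` -/
def SG (a q : ℕ) (H : ℝ) {N : ℕ} (v : Fin N → ℝ) : Prop :=
  (∀ ν, ∃ z : ℤ, v ν * 4 ^ a = z) ∧ (univ.filter (fun ν => v ν ≠ 0)).card ≤ q ∧
    ∑ ν, v ν ^ 2 ≤ H ^ 2

/-- the properties we need of one random `n × 2^a` matrix `G` (Gaussian divided by `√n`) -/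
structure RMProp (H ε C₀ : ℝ) (a n q ρ : ℕ) (G : Fin n → Fin (2 ^ a) → ℝ) : Prop where
  diag : ∀ ν, |∑ b, G b ν ^ 2 - 1| ≤ ε
  off : ∀ ν μ, ν ≠ μ → |∑ b, G b ν * G b μ| ≤ 8 * Real.sqrt ((a : ℝ) / n)
  leak : ∀ r R : ℕ, r ≤ 2 ^ a → C₀ * a * n ≤ r → C₀ * R ≤ r →
    ∀ (u : Fin r → Fin (2 ^ a) → ℝ) (d : Fin r → Fin R → ℝ),
      (∀ t, SG a q H (u t)) → (∀ t, SG a q H (d t)) →
      (∀ t t', t ≠ t' → ∀ ν, u t ν = 0 ∨ u t' ν = 0) →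
      ∀ A : Fin n → Fin R → ℝ,
        (1 - ε) * ∑ t, ∑ ν, u t ν ^ 2 - ε * r ≤
          ∑ t, ∑ b, (∑ ν, G b ν * u t ν - ∑ e, A b e * d t e) ^ 2
  rigid : ∀ r : ℕ, r ≤ 2 ^ a → C₀ * a * n ^ 2 ≤ r →
    ∀ (u v : Fin r → Fin (2 ^ a) → ℝ),
      (∀ t, SG a q H (u t)) → (∀ t, SG a q H (v t)) →
      ∀ lam : ℝ, ε ≤ lam →
      (∀ α β : ℝ, lam * r * (α ^ 2 + β ^ 2) ≤
        ∑ t, ∑ ν ∈ univ.filter
          (fun ν => (univ.filter (fun t => u t ν ≠ 0 ∨ v t ν ≠ 0)).card ≤ ρ),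
            (α * u t ν + β * v t ν) ^ 2) →
      ∀ (n' : ℕ), n ≤ 2 * n' → ∀ (p p' : Fin n' → Fin n → ℝ),
        (∀ e f, ∑ b, p e b * p f b + ∑ b, p' e b * p' f b = if e = f then 1 else 0) →
        lam / 4 * r ≤ ∑ t, ∑ e,
          (∑ b, p e b * ∑ ν, G b ν * u t ν + ∑ b, p' e b * ∑ ν, G b ν * v t ν) ^ 2

/-- numerical data and matrices of a tower with levels `0,…,top` -/
structure Tower where
  a : ℕ
  top : ℕ
  K : ℕ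
  n : ℕ → ℕ
  k : ℕ → ℕ
  G : (s : ℕ) → Fin (n s) → Fin (2 ^ a) → ℝ

namespace Tower

variable (T : Tower)

/-- accumulated content at level `s`: `∑_{s' ≤ s} K^{s-s'} c_{s'}` -/
def acc (c : ℕ → Fin (2 ^ T.a) → ℝ) (s : ℕ) (ν : Fin (2 ^ T.a)) : ℝ :=
  ∑ s' ∈ range (s + 1), (T.K : ℝ) ^ (s - s') * c s' ν

/-- the level-`s` part of the vector with noise `y` and contents `c` -/
def ev (y : (s : ℕ) → Fin (T.n s) → ℝ) (c : ℕ → Fin (2 ^ T.a) → ℝ) (s : ℕ) (b : Fin (T.n s)) :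
    ℝ := y s b + ∑ ν, T.G s b ν * T.acc c s ν

/-- the cost of a representation -/
noncomputable def cost (y : (s : ℕ) → Fin (T.n s) → ℝ) (c : ℕ → Fin (2 ^ T.a) → ℝ) : ℝ :=
  ∑ s ∈ range (T.top + 1),
    (∑ b, y s b ^ 2 + ∑ ν, c s ν ^ 2 + (∑ ν, |c s ν|) ^ 2 / (T.k s : ℝ))

/-- the mixing cost of a representation of a tuple indexed by `J` -/
noncomputable def mc {J : Type} [Fintype J] (y : (s : ℕ) → Fin (T.n s) → J → ℝ)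
    (c : ℕ → Fin (2 ^ T.a) → J → ℝ) : ℝ :=
  ∑ s ∈ range (T.top + 1),
    (∑ b, ∑ j, y s b j ^ 2 + ∑ ν, ∑ j, c s ν j ^ 2 +
      (∑ ν, Real.sqrt (∑ j, c s ν j ^ 2)) ^ 2 / (T.k s : ℝ))

/-- the contents born above level `i` -/
def above {J : Type} (i : ℕ) (c : ℕ → Fin (2 ^ T.a) → J → ℝ) : ℕ → Fin (2 ^ T.a) → J → ℝ :=
  fun s ν j => if s ≤ i then 0 else c s ν j

/-- the standing assumptions on the tower -/
structure OK (H ε C₀ : ℝ) (g Γ : ℕ) : Prop where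
  base : Γ ≤ T.a
  one_le_a : 1 ≤ T.a
  k_ge : ∀ s, T.a ≤ T.k s
  n_eq : ∀ s < T.top, T.n s = T.k s ^ 30
  gap : ∀ s < T.top, T.n s ^ g ≤ T.k (s + 1)
  k_top : T.k T.top ^ g ≤ 2 ^ T.a
  rm : ∀ s < T.top, RMProp H ε C₀ T.a (T.n s) (T.k s ^ 3) (T.k s ^ 10) (T.G s)
  topG : ∀ ν μ, ∑ b, T.G T.top b ν * T.G T.top b μ = if ν = μ then 1 else 0

end Tower

/-- `E` is (isometric to) the tower space of `T`; `lev s x` is the level-`s` part of `x` -/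
structure TowerSpace (T : Tower) (E : Type) [NormedAddCommGroup E] [NormedSpace ℝ E] where
  lev : (s : ℕ) → E →ₗ[ℝ] (Fin (T.n s) → ℝ)
  upper : ∀ (x : E) (y : (s : ℕ) → Fin (T.n s) → ℝ) (c : ℕ → Fin (2 ^ T.a) → ℝ),
    (∀ s ≤ T.top, ∀ b, lev s x b = T.ev y c s b) → ‖x‖ ^ 2 ≤ T.cost y c
  rep : ∀ (x : E) (δ : ℝ), 0 < δ → ∃ (y : (s : ℕ) → Fin (T.n s) → ℝ)
    (c : ℕ → Fin (2 ^ T.a) → ℝ),
    (∀ s ≤ T.top, ∀ b, lev s x b = T.ev y c s b) ∧ T.cost y c ≤ ‖x‖ ^ 2 + δ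
  surj : ∀ w : (s : ℕ) → Fin (T.n s) → ℝ, ∃ x : E, ∀ s ≤ T.top, ∀ b, lev s x b = w s b

/-- `(y, c)` represents the tuple `z` -/
def TowerSpace.Rep {T : Tower} {E : Type} [NormedAddCommGroup E] [NormedSpace ℝ E]
    (X : TowerSpace T E) {J : Type} (z : J → E) (y : (s : ℕ) → Fin (T.n s) → J → ℝ)
    (c : ℕ → Fin (2 ^ T.a) → J → ℝ) : Prop :=
  ∀ s ≤ T.top, ∀ b j, X.lev s (z j) b = T.ev (fun s b => y s b j) (fun s ν => c s ν j) s b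

end Run7.h35.NEG
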